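import Pool.Agent.Helper297.SF.Lib
set_option autoImplicit false
open MvPolynomial

namespace SF
namespace S_Phi_inj

/-- J61: injectivity. -/
theorem Phi_inj {R : Type} [CommRing R] [IsDomain R] [CharP R 2] (n : ℕ)
    (M M' : Matrix (Fin n) (Fin n) R)
    (F : R) (hF : F ≠ 0) (b : ℕ) (hM : M' * M = F ^ b • (1 : Matrix (Fin n) (Fin n) R)) :
    Function.Injective (Phi M) ∧ Function.Injective (Psi M) := by
  have hprod : cm M' * cm M = Matrix.diagonal (fun I : Finset (Fin n) => (F ^ b) ^ I.card) := by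
    rw [← cm_mul, hM, cm_smul_one]
  have hdet : (cm M).det ≠ 0 := by
    intro h0
    have h1 := congrArg Matrix.det hprod
    rw [Matrix.det_mul, h0, mul_zero, Matrix.det_diagonal] at h1
    exact Finset.prod_ne_zero_iff.2 (fun I _ => pow_ne_zero _ (pow_ne_zero _ hF)) h1.symm
  constructor
  · rw [injective_iff_map_eq_zero]
    intro v hv
    exact Matrix.eq_zero_of_vecMul_eq_zero hdet hv
  · rw [injective_iff_map_eq_zero]
    intro v hv
    refine Matrix.eq_zero_of_vecMul_eq_zero (M := Matrix.kroneckerMap (· * ·) (cm M) (cm M)) ?_ hv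
    have := Matrix.det_kronecker (cm M) (cm M)
    rw [Matrix.det_kronecker]
    exact mul_ne_zero (pow_ne_zero _ hdet) (pow_ne_zero _ hdet)


end S_Phi_inj

alias Phi_inj := S_Phi_inj.Phi_inj

end SF
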