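import Pool.Agent.Helper297.SF.Defs
set_option autoImplicit false
open MvPolynomial

namespace SF
namespace S_Phi_mulW
/-- J23 -/
theorem Phi_mulW {R : Type} [CommRing R] (n : ℕ) (M : Matrix (Fin n) (Fin n) R)
    (hrow : ∀ (j : Fin n) (J I : Finset (Fin n)),
      ∑ i ∈ I, M j i * cm M J (I.erase i) = if j ∈ J then 0 else cm M (insert j J) I)
    (w : Fin n → R) (u : Finset (Fin n) → R) :
    Phi M (mulW w u) = mulW (Matrix.vecMul w M) (Phi M u) := by
  ext I
  have hL : Phi M (mulW w u) I = ∑ j, ∑ J ∈ Finset.univ.filter (fun J : Finset (Fin n) => j ∈ J),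
      w j * u (J.erase j) * cm M J I := by
    show ∑ J, (∑ j ∈ J, w j * u (J.erase j)) * cm M J I = _
    simp_rw [Finset.sum_mul, Finset.sum_filter]
    rw [Finset.sum_comm]
    refine Finset.sum_congr rfl fun J _ => ?_
    rw [Finset.sum_ite_mem, Finset.univ_inter]
  have hR : mulW (Matrix.vecMul w M) (Phi M u) I =
      ∑ j, ∑ J ∈ Finset.univ.filter (fun J : Finset (Fin n) => j ∉ J), w j * u J * cm M (insert j J) I := by
    show ∑ i ∈ I, (∑ j, w j * M j i) * (∑ J, u J * cm M J (I.erase i)) = _
    simp_rw [Finset.sum_mul_sum]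
    rw [Finset.sum_comm]
    refine Finset.sum_congr rfl fun j _ => ?_
    rw [Finset.sum_comm, Finset.sum_filter]
    refine Finset.sum_congr rfl fun J _ => ?_
    have := hrow j J I
    calc ∑ i ∈ I, w j * M j i * (u J * cm M J (I.erase i)) = w j * u J * ∑ i ∈ I, M j i * cm M J (I.erase i) := by
          rw [Finset.mul_sum]
          refine Finset.sum_congr rfl fun i _ => ?_
          ring
      _ = _ := by
          rw [this]
          by_cases h : j ∈ J
          · simp [h]
          · simp [h]
  rw [hL, hR]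
  refine Finset.sum_congr rfl fun j _ => ?_
  refine Finset.sum_bij' (fun J _ => J.erase j) (fun J _ => insert j J) ?_ ?_ ?_ ?_ ?_
  · intro J hJ; simp
  · intro J hJ; simp
  · intro J hJ
    rw [Finset.mem_filter] at hJ
    exact Finset.insert_erase hJ.2
  · intro J hJ
    rw [Finset.mem_filter] at hJ
    exact Finset.erase_insert hJ.2
  · intro J hJ
    rw [Finset.mem_filter] at hJ
    simp only [Finset.insert_erase hJ.2]


end S_Phi_mulW

alias Phi_mulW := S_Phi_mulW.Phi_mulW

end SF
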