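import Pool.Agent.Helper297.SF.Defs
set_option autoImplicit false
open MvPolynomial

namespace SF
namespace S_Psi_dT
theorem J24_Psi {R : Type} [CommRing R] {n : ℕ} (M : Matrix (Fin n) (Fin n) R)
    (v : Finset (Fin n) × Finset (Fin n) → R) (I J : Finset (Fin n)) :
    Psi M v (I, J) = ∑ p : Finset (Fin n) × Finset (Fin n), v p * (cm M p.1 I * cm M p.2 J) := by
  unfold Psi
  rfl

theorem J24_reindex {R : Type} [CommRing R] {n : ℕ}
    (f : Finset (Fin n) × Finset (Fin n) → Fin n → R) :
    ∑ p : Finset (Fin n) × Finset (Fin n), ∑ j ∈ p.1 \ p.2, f p j =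
      ∑ p : Finset (Fin n) × Finset (Fin n), ∑ j ∈ p.2 \ p.1, f (insert j p.1, p.2.erase j) j := by
  classical
  rw [Finset.sum_comm' (t' := (Finset.univ : Finset (Fin n)))
    (s' := fun j => Finset.univ.filter
      (fun p : Finset (Fin n) × Finset (Fin n) => j ∈ p.1 ∧ j ∉ p.2)) (by
      intro p j
      simp only [Finset.mem_univ, true_and, Finset.mem_sdiff, Finset.mem_filter, and_true])]
  rw [Finset.sum_comm' (t' := (Finset.univ : Finset (Fin n)))
    (s' := fun j => Finset.univ.filter
      (fun p : Finset (Fin n) × Finset (Fin n) => j ∈ p.2 ∧ j ∉ p.1)) (by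
      intro p j
      simp only [Finset.mem_univ, true_and, Finset.mem_sdiff, Finset.mem_filter, and_true])]
  refine Finset.sum_congr rfl fun j _ => ?_
  refine Finset.sum_nbij' (fun p => (p.1.erase j, insert j p.2))
    (fun p => (insert j p.1, p.2.erase j)) ?_ ?_ ?_ ?_ ?_
  · intro p hp
    rw [Finset.mem_filter] at hp ⊢
    exact ⟨Finset.mem_univ _, Finset.mem_insert_self _ _, Finset.notMem_erase _ _⟩
  · intro p hp
    rw [Finset.mem_filter] at hp ⊢
    exact ⟨Finset.mem_univ _, Finset.mem_insert_self _ _, Finset.notMem_erase _ _⟩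
  · intro p hp
    rw [Finset.mem_filter] at hp
    exact Prod.ext (Finset.insert_erase hp.2.1) (Finset.erase_insert hp.2.2)
  · intro p hp
    rw [Finset.mem_filter] at hp
    exact Prod.ext (Finset.erase_insert hp.2.2) (Finset.insert_erase hp.2.1)
  · intro p hp
    rw [Finset.mem_filter] at hp
    show f p j = f (insert j (p.1.erase j), (insert j p.2).erase j) j
    rw [Finset.insert_erase hp.2.1, Finset.erase_insert hp.2.2]

/-- J24 -/
theorem Psi_dT {R : Type} [CommRing R] (n : ℕ) (M : Matrix (Fin n) (Fin n) R)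
    (hrow : ∀ (j : Fin n) (J I : Finset (Fin n)),
      ∑ i ∈ I, M j i * cm M J (I.erase i) = if j ∈ J then 0 else cm M (insert j J) I)
    (hcol : ∀ (i : Fin n) (J I : Finset (Fin n)),
      ∑ j ∈ J, M j i * cm M (J.erase j) I = if i ∈ I then 0 else cm M J (insert i I))
    (u : Finset (Fin n) × Finset (Fin n) → R) :
    Psi M (dT u) = dT (Psi M u) := by
  classical
  funext ⟨I, J⟩
  rw [J24_Psi]
  have hR : dT (Psi M u) (I, J) = ∑ i ∈ I \ J, Psi M u (I.erase i, insert i J) := rfl
  rw [hR]
  have hL : ∀ p : Finset (Fin n) × Finset (Fin n), dT u p * (cm M p.1 I * cm M p.2 J) =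
      ∑ j ∈ p.1 \ p.2, u (p.1.erase j, insert j p.2) * (cm M p.1 I * cm M p.2 J) := by
    intro p
    rw [← Finset.sum_mul]
    rfl
  rw [Finset.sum_congr rfl (fun p _ => hL p),
    J24_reindex (fun p j => u (p.1.erase j, insert j p.2) * (cm M p.1 I * cm M p.2 J))]
  have hR2 : ∀ i ∈ I \ J, Psi M u (I.erase i, insert i J) =
      ∑ p : Finset (Fin n) × Finset (Fin n), u p * (cm M p.1 (I.erase i) * cm M p.2 (insert i J)) :=
    fun i _ => J24_Psi M u _ _
  rw [Finset.sum_congr rfl hR2, Finset.sum_comm]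
  refine Finset.sum_congr rfl fun p _ => ?_
  obtain ⟨A, B⟩ := p
  rw [← Finset.mul_sum]
  have h1 : ∀ j ∈ B \ A, u ((insert j A).erase j, insert j (B.erase j)) *
      (cm M (insert j A) I * cm M (B.erase j) J) =
      u (A, B) * (cm M (insert j A) I * cm M (B.erase j) J) := by
    intro j hj
    rw [Finset.mem_sdiff] at hj
    rw [Finset.erase_insert hj.2, Finset.insert_erase hj.1]
  show ∑ j ∈ B \ A, u ((insert j A).erase j, insert j (B.erase j)) *
      (cm M (insert j A) I * cm M (B.erase j) J) = _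
  rw [Finset.sum_congr rfl h1, ← Finset.mul_sum]
  congr 1
  have h2 : ∑ j ∈ B \ A, cm M (insert j A) I * cm M (B.erase j) J =
      ∑ j ∈ B, (if j ∈ A then 0 else cm M (insert j A) I) * cm M (B.erase j) J := by
    rw [Finset.sdiff_eq_filter, Finset.sum_filter]
    refine Finset.sum_congr rfl fun j _ => ?_
    by_cases hj : j ∈ A
    · rw [if_neg (by simpa using hj), if_pos hj, zero_mul]
    · rw [if_pos hj, if_neg hj]
  have h3 : ∑ i ∈ I \ J, cm M A (I.erase i) * cm M B (insert i J) =
      ∑ i ∈ I, cm M A (I.erase i) * (if i ∈ J then 0 else cm M B (insert i J)) := by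
    rw [Finset.sdiff_eq_filter, Finset.sum_filter]
    refine Finset.sum_congr rfl fun i _ => ?_
    by_cases hi : i ∈ J
    · rw [if_neg (by simpa using hi), if_pos hi, mul_zero]
    · rw [if_pos hi, if_neg hi]
  rw [h2, h3]
  calc ∑ j ∈ B, (if j ∈ A then 0 else cm M (insert j A) I) * cm M (B.erase j) J
      = ∑ j ∈ B, ∑ i ∈ I, M j i * cm M A (I.erase i) * cm M (B.erase j) J := by
        refine Finset.sum_congr rfl fun j _ => ?_
        rw [← hrow j A I, Finset.sum_mul]
    _ = ∑ i ∈ I, ∑ j ∈ B, M j i * cm M A (I.erase i) * cm M (B.erase j) J := Finset.sum_comm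
    _ = ∑ i ∈ I, cm M A (I.erase i) * (if i ∈ J then 0 else cm M B (insert i J)) := by
        refine Finset.sum_congr rfl fun i _ => ?_
        rw [← hcol i B J, Finset.mul_sum]
        exact Finset.sum_congr rfl fun j _ => by ring


end S_Psi_dT

alias Psi_dT := S_Psi_dT.Psi_dT

end SF
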