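import Pool.Agent.Helper297.SF.Defs
set_option autoImplicit false
open MvPolynomial

namespace SF
namespace S_X_not_sq
/-- J72: `X` is not a square in the rational function field. -/
theorem X_not_sq (k : Type) [Field k] :
    ∀ a : FractionRing (Polynomial k), a ^ 2 ≠ algebraMap (Polynomial k) _ Polynomial.X := by
  intro a h
  obtain ⟨p, q, hq, rfl⟩ := IsFractionRing.div_surjective (A := Polynomial k) a
  have hq0 : q ≠ 0 := nonZeroDivisors.ne_zero hq
  have hq1 : algebraMap (Polynomial k) (FractionRing (Polynomial k)) q ≠ 0 := by
    intro h0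
    apply hq0
    exact (IsFractionRing.injective (Polynomial k) (FractionRing (Polynomial k)))
      (by rw [h0, map_zero])
  rw [div_pow, div_eq_iff (pow_ne_zero 2 hq1), ← map_pow, ← map_pow, ← map_mul] at h
  have h2 : p ^ 2 = Polynomial.X * q ^ 2 :=
    IsFractionRing.injective (Polynomial k) (FractionRing (Polynomial k)) h
  have h3 := congrArg Polynomial.natDegree h2
  rw [Polynomial.natDegree_pow, Polynomial.natDegree_mul Polynomial.X_ne_zero (pow_ne_zero 2 hq0),
    Polynomial.natDegree_X, Polynomial.natDegree_pow] at h3
  omega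


end S_X_not_sq

alias X_not_sq := S_X_not_sq.X_not_sq

end SF
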