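import Pool.Agent.Helper297.SF.Defs
set_option autoImplicit false
open MvPolynomial

namespace SF
namespace S_clear_denoms
/-- J71: clearing denominators. -/
theorem clear_denoms {B : Type} [CommRing B] [IsDomain B] (F : B) (hF : F ≠ 0) (m : ℕ)
    (x : Fin (m + 1) → B)
    (N N' : Matrix (Fin (m + 1)) (Fin (m + 1)) (Localization.Away F)) (h : N' * N = 1)
    (hx : ∀ i, N 0 i = algebraMap B (Localization.Away F) (x i)) :
    ∃ (M M' : Matrix (Fin (m + 1)) (Fin (m + 1)) B) (b : ℕ),
      M' * M = F ^ b • (1 : Matrix (Fin (m + 1)) (Fin (m + 1)) B) ∧ ∀ i, M 0 i = x i := by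
  classical
  have hinj : Function.Injective (algebraMap B (Localization.Away F)) :=
    IsLocalization.injective _ (powers_le_nonZeroDivisors_of_noZeroDivisors hF)
  set φ := algebraMap B (Localization.Away F) with hφ
  have hsurj : ∀ z : Localization.Away F, ∃ (n : ℕ) (a : B), z * φ F ^ n = φ a :=
    fun z => IsLocalization.Away.surj F z
  choose n a hna using hsurj
  have hclear : ∀ (P : Matrix (Fin (m + 1)) (Fin (m + 1)) (Localization.Away F)) (c : ℕ),
      (∀ i j, n (P i j) ≤ c) → ∃ A : Matrix (Fin (m + 1)) (Fin (m + 1)) B,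
        ∀ i j, φ (A i j) = φ F ^ c * P i j := by
    intro P c hc
    refine ⟨fun i j => F ^ (c - n (P i j)) * a (P i j), fun i j => ?_⟩
    rw [map_mul, map_pow, ← hna]
    have : φ F ^ c = φ F ^ (c - n (P i j)) * φ F ^ n (P i j) := by
      rw [← pow_add, Nat.sub_add_cancel (hc i j)]
    rw [this]; ring
  set c := (∑ i, ∑ j, n (N i j)) + ∑ i, ∑ j, n (N' i j) with hc
  have hle : ∀ (P : Matrix (Fin (m + 1)) (Fin (m + 1)) (Localization.Away F)) i j,
      n (P i j) ≤ ∑ i, ∑ j, n (P i j) := by
    intro P i j
    exact (Finset.single_le_sum (f := fun j => n (P i j)) (fun _ _ => Nat.zero_le _)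
      (Finset.mem_univ j)).trans (Finset.single_le_sum (f := fun i => ∑ j, n (P i j))
        (fun _ _ => Nat.zero_le _) (Finset.mem_univ i))
  obtain ⟨A, hA⟩ := hclear N c (fun i j => (hle N i j).trans (Nat.le_add_right _ _))
  obtain ⟨A', hA'⟩ := hclear N' c (fun i j => (hle N' i j).trans (Nat.le_add_left _ _))
  refine ⟨Matrix.of fun i j => if i = 0 then x j else A i j,
    Matrix.of fun i j => if j = 0 then F ^ c * A' i j else A' i j, c + c, ?_, ?_⟩
  · ext i k
    apply hinj
    have h1 : (N' * N) i k = (1 : Matrix _ _ (Localization.Away F)) i k := by rw [h]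
    rw [Matrix.mul_apply] at h1
    rw [Matrix.mul_apply, map_sum]
    have h2 : ∀ j : Fin (m + 1), φ ((Matrix.of fun i j => if j = 0 then F ^ c * A' i j
        else A' i j) i j * (Matrix.of fun i j => if i = 0 then x j else A i j) j k)
        = φ F ^ (c + c) * (N' i j * N j k) := by
      intro j
      simp only [Matrix.of_apply]
      by_cases hj : j = 0
      · rw [if_pos hj, if_pos hj, map_mul, map_mul, hA', map_pow, hj, hx, pow_add]
        ring
      · rw [if_neg hj, if_neg hj, map_mul, hA', hA, pow_add]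
        ring
    rw [Finset.sum_congr rfl fun j _ => h2 j, ← Finset.mul_sum, h1, Matrix.smul_apply,
      smul_eq_mul, map_mul, map_pow]
    congr 1
    by_cases hik : i = k
    · rw [hik, Matrix.one_apply_eq, Matrix.one_apply_eq, map_one]
    · rw [Matrix.one_apply_ne hik, Matrix.one_apply_ne hik, map_zero]
  · intro i
    simp


end S_clear_denoms

alias clear_denoms := S_clear_denoms.clear_denoms

end SF
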