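import Pool.Agent.Helper297.SF.Defs
set_option autoImplicit false
open MvPolynomial

namespace SF
namespace S_cm_card
/-- J19 -/
theorem cm_card {R : Type} [CommRing R] (n : ℕ) (M : Matrix (Fin n) (Fin n) R)
    (J I : Finset (Fin n)) (h : J.card ≠ I.card) : cm M J I = 0 := by
  unfold cm
  have h1 : (∏ j ∈ J, Yf M j).IsHomogeneous (∑ _j ∈ J, 1) := by
    apply MvPolynomial.IsHomogeneous.prod
    intro j _
    unfold Yf
    apply MvPolynomial.IsHomogeneous.sum
    intro i _
    have := (MvPolynomial.isHomogeneous_C (Fin n) (M j i)).mul (MvPolynomial.isHomogeneous_X R i)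
    simpa using this
  apply h1.coeff_eq_zero
  have h2 : (mon I).degree = I.card := by
    unfold mon
    rw [map_sum]
    simp
  rw [h2]
  simp only [Finset.sum_const, smul_eq_mul, mul_one]
  exact fun h' => h h'.symm


end S_cm_card

alias cm_card := S_cm_card.cm_card

end SF
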