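import Pool.Agent.Helper297.SF.Defs
set_option autoImplicit false
open MvPolynomial

namespace SF
namespace S_cm_map
/-- J20 -/
theorem cm_map {R R' : Type} [CommRing R] [CommRing R'] (φ : R →+* R') (n : ℕ)
    (M : Matrix (Fin n) (Fin n) R) : cm (M.map φ) = (cm M).map φ := by
  have hY : ∀ j, Yf (M.map φ) j = MvPolynomial.map φ (Yf M j) := by
    intro j
    simp [Yf, Matrix.map_apply]
  ext J I
  simp only [cm, Matrix.map_apply]
  rw [← MvPolynomial.coeff_map, map_prod]
  simp only [hY]


end S_cm_map

alias cm_map := S_cm_map.cm_map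

end SF
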