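import Pool.Agent.Helper297.SF.Defs
set_option autoImplicit false
open MvPolynomial

namespace SF
namespace S_cm_mul
theorem cm_mul_mon_apply {n : ℕ} (I : Finset (Fin n)) (i : Fin n) :
    mon I i = if i ∈ I then 1 else 0 := by
  classical
  unfold mon
  rw [Finsupp.finset_sum_apply]
  simp [Finsupp.single_apply]

theorem cm_mul_mon_inj {n : ℕ} {I J : Finset (Fin n)} (h : mon I = mon J) : I = J := by
  ext i
  have := DFunLike.congr_fun h i
  rw [cm_mul_mon_apply, cm_mul_mon_apply] at this
  by_cases h1 : i ∈ I <;> by_cases h2 : i ∈ J <;> simp_all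

theorem cm_mul_exists {n : ℕ} (α : Fin n →₀ ℕ) (h : ∀ i, α i ≤ 1) : ∃ L, α = mon L := by
  refine ⟨α.support, ?_⟩
  ext i
  rw [cm_mul_mon_apply]
  have := h i
  split_ifs with h1
  · rw [Finsupp.mem_support_iff] at h1; omega
  · rw [Finsupp.mem_support_iff] at h1; omega

theorem cm_mul_sq {R : Type} [CommRing R] [CharP R 2] {n : ℕ} (M : Matrix (Fin n) (Fin n) R)
    (j : Fin n) (q : MvPolynomial (Fin n) R) (I : Finset (Fin n)) :
    coeff (mon I) (q * (Yf M j) ^ 2) = 0 := by
  have h2 : (Yf M j) ^ 2 = ∑ l, monomial (Finsupp.single l 2) (M j l ^ 2) := by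
    unfold Yf
    rw [sum_pow_char]
    apply Finset.sum_congr rfl
    intro l _
    rw [mul_pow, ← C_pow, X_pow_eq_monomial, C_mul_monomial, mul_one]
  rw [h2, Finset.mul_sum, coeff_sum]
  apply Finset.sum_eq_zero
  intro l _
  rw [coeff_mul_monomial', if_neg]
  intro h
  have := h l
  rw [cm_mul_mon_apply] at this
  simp at this
  split_ifs at this <;> omega

theorem cm_mul_key {R : Type} [CommRing R] [CharP R 2] {n : ℕ} (M' : Matrix (Fin n) (Fin n) R)
    (I : Finset (Fin n)) (p : MvPolynomial (Fin n) R) :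
    coeff (mon I) (aeval (Yf M') p) = ∑ L, coeff (mon L) p * cm M' L I := by
  classical
  refine MvPolynomial.induction_on' p ?_ ?_
  · intro α c
    rw [aeval_monomial, MvPolynomial.algebraMap_eq, coeff_C_mul, Finsupp.prod_fintype _ _ (by simp)]
    by_cases h : ∀ i, α i ≤ 1
    · obtain ⟨L, rfl⟩ := cm_mul_exists α h
      rw [Finset.sum_eq_single L]
      · rw [coeff_monomial, if_pos rfl]
        congr 1
        unfold cm
        congr 1
        rw [← Finset.prod_subset (Finset.subset_univ L)]
        · apply Finset.prod_congr rfl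
          intro i hi
          rw [cm_mul_mon_apply, if_pos hi, pow_one]
        · intro i _ hi
          rw [cm_mul_mon_apply, if_neg hi, pow_zero]
      · intro L' _ hL'
        rw [coeff_monomial, if_neg, zero_mul]
        intro h'
        exact hL' (cm_mul_mon_inj h').symm
      · intro h'; exact absurd (Finset.mem_univ _) h'
    · push Not at h
      obtain ⟨i, hi⟩ := h
      rw [Finset.sum_eq_zero]
      · rw [← Finset.mul_prod_erase _ _ (Finset.mem_univ i)]
        obtain ⟨m, hm⟩ := Nat.exists_eq_add_of_le (show 2 ≤ α i by omega)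
        rw [hm, pow_add]
        have := cm_mul_sq M' i (Yf M' i ^ m * ∏ x ∈ Finset.univ.erase i, Yf M' x ^ α x) I
        rw [show Yf M' i ^ 2 * Yf M' i ^ m * ∏ x ∈ Finset.univ.erase i, Yf M' x ^ α x =
          (Yf M' i ^ m * ∏ x ∈ Finset.univ.erase i, Yf M' x ^ α x) * Yf M' i ^ 2 by ring, this, mul_zero]
      · intro L _
        rw [coeff_monomial, if_neg, zero_mul]
        intro h'
        have := DFunLike.congr_fun h' i
        rw [cm_mul_mon_apply] at this
        split_ifs at this <;> omega
  · intro p q hp hq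
    rw [map_add, coeff_add, hp, hq, ← Finset.sum_add_distrib]
    apply Finset.sum_congr rfl
    intro L _
    rw [coeff_add, add_mul]

/-- J18 -/
theorem cm_mul {R : Type} [CommRing R] [CharP R 2] (n : ℕ) (M M' : Matrix (Fin n) (Fin n) R) :
    cm (M * M') = cm M * cm M' := by
  
  ext J I
  rw [Matrix.mul_apply]
  have h : ∀ j, Yf (M * M') j = aeval (Yf M') (Yf M j) := by
    intro j
    unfold Yf
    rw [map_sum]
    simp only [map_mul, aeval_X, aeval_C]
    simp only [Matrix.mul_apply, map_sum, Finset.sum_mul, Finset.mul_sum]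
    rw [Finset.sum_comm]
    apply Finset.sum_congr rfl
    intro l _
    apply Finset.sum_congr rfl
    intro i _
    rw [map_mul, MvPolynomial.algebraMap_eq, mul_assoc]
  have h2 : ∏ j ∈ J, Yf (M * M') j = aeval (Yf M') (∏ j ∈ J, Yf M j) := by
    rw [map_prod]
    exact Finset.prod_congr rfl fun j _ => h j
  change coeff (mon I) (∏ j ∈ J, Yf (M * M') j) = _
  rw [h2, cm_mul_key]
  rfl



end S_cm_mul

alias cm_mul := S_cm_mul.cm_mul

end SF
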