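import Pool.Agent.Helper297.SF.Defs
set_option autoImplicit false
open MvPolynomial

namespace SF
namespace S_cm_one
theorem cm_one_mon {n : ℕ} (I : Finset (Fin n)) (i : Fin n) :
    mon I i = if i ∈ I then 1 else 0 := by
  unfold mon
  rw [Finsupp.finset_sum_apply]
  simp [Finsupp.single_apply]

theorem cm_one_inj {n : ℕ} (I J : Finset (Fin n)) : mon J = mon I ↔ J = I := by
  constructor
  · intro h
    ext i
    have := DFunLike.congr_fun h i
    rw [cm_one_mon, cm_one_mon] at this
    by_cases h1 : i ∈ J <;> by_cases h2 : i ∈ I <;> simp_all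
  · rintro rfl; rfl

theorem cm_one_Yf {R : Type} [CommRing R] {n : ℕ} (j : Fin n) :
    Yf (1 : Matrix (Fin n) (Fin n) R) j = X j := by
  unfold Yf
  rw [Finset.sum_eq_single j]
  · simp
  · intro i _ hi
    rw [Matrix.one_apply_ne hi.symm]
    simp
  · intro h
    exact absurd (Finset.mem_univ j) h

theorem cm_one_prod {R : Type} [CommRing R] {n : ℕ} (J : Finset (Fin n)) :
    ∏ j ∈ J, (X j : MvPolynomial (Fin n) R) = monomial (mon J) 1 := by
  unfold mon
  rw [MvPolynomial.monomial_sum_one]
  rfl

/-- J16 -/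
theorem cm_one {R : Type} [CommRing R] (n : ℕ) : cm (1 : Matrix (Fin n) (Fin n) R) = 1 := by
  classical
  ext J I
  unfold cm
  simp only [cm_one_Yf]
  rw [cm_one_prod, coeff_monomial, Matrix.one_apply]
  by_cases h : J = I
  · rw [if_pos ((cm_one_inj I J).mpr h), if_pos h]
  · rw [if_neg (fun h' => h ((cm_one_inj I J).mp h')), if_neg h]


end S_cm_one

alias cm_one := S_cm_one.cm_one

end SF
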