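import Pool.Agent.Helper297.SF.Defs
set_option autoImplicit false
open MvPolynomial

namespace SF
namespace S_cm_smul_one
/-- J17 -/
theorem cm_smul_one {R : Type} [CommRing R] (n : ℕ) (c : R) :
    cm (c • (1 : Matrix (Fin n) (Fin n) R)) = Matrix.diagonal (fun I => c ^ I.card) := by
  classical
  have hY : ∀ j, Yf (c • (1 : Matrix (Fin n) (Fin n) R)) j = C c * X j := by
    intro j
    unfold Yf
    rw [Finset.sum_eq_single j]
    · simp
    · intro i _ hi
      simp [Matrix.one_apply_ne' hi]
    · simp
  have hmon : ∀ (I : Finset (Fin n)) (i : Fin n), mon I i = if i ∈ I then 1 else 0 := by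
    intro I i
    unfold mon
    rw [Finsupp.finsetSum_apply]
    simp [Finsupp.single_apply]
  have hinj : ∀ I J : Finset (Fin n), mon I = mon J ↔ I = J := by
    intro I J
    constructor
    · intro h
      ext i
      have := DFunLike.congr_fun h i
      rw [hmon, hmon] at this
      by_cases h1 : i ∈ I <;> by_cases h2 : i ∈ J <;> simp_all
    · rintro rfl
      rfl
  have hprod : ∀ J : Finset (Fin n), ∏ j ∈ J, (X j : MvPolynomial (Fin n) R) =
      monomial (mon J) 1 := by
    intro J
    unfold mon
    rw [monomial_sum_one]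
    rfl
  ext J I
  unfold cm
  rw [Finset.prod_congr rfl (fun j _ => hY j), Finset.prod_mul_distrib, Finset.prod_const, hprod,
    ← C_pow, coeff_C_mul, coeff_monomial, Matrix.diagonal_apply]
  simp only [hinj]
  split_ifs <;> simp


end S_cm_smul_one

alias cm_smul_one := S_cm_smul_one.cm_smul_one

end SF
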