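import Pool.Agent.Helper297.SF.Defs
set_option autoImplicit false
open MvPolynomial

namespace SF
namespace S_complete_of_free
/-- J70: a basis of the kernel of a unimodular row completes the row to an invertible matrix. -/
theorem complete_of_free {A : Type} [CommRing A] (m : ℕ) (x w : Fin (m + 1) → A)
    (hxw : ∑ i, w i * x i = 1)
    (e : LinearMap.ker (Fintype.linearCombination A x) ≃ₗ[A] (Fin m → A)) :
    ∃ N N' : Matrix (Fin (m + 1)) (Fin (m + 1)) A, N' * N = 1 ∧ N * N' = 1 ∧ ∀ i, N 0 i = x i := by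
  classical
  set L : (Fin (m + 1) → A) →ₗ[A] A := Fintype.linearCombination A x with hL
  have hLapp : ∀ v, L v = ∑ i, v i • x i := fun v => Fintype.linearCombination_apply A x v
  have hLw : L w = 1 := by
    rw [hLapp]
    exact hxw
  let P0 : (Fin (m + 1) → A) →ₗ[A] (Fin (m + 1) → A) :=
    LinearMap.id - (LinearMap.toSpanSingleton A _ w) ∘ₗ L
  have hP0 : ∀ v, P0 v = v - L v • w := fun v => rfl
  have hPk : ∀ v, P0 v ∈ LinearMap.ker L := by
    intro v
    rw [LinearMap.mem_ker, hP0, map_sub, map_smul, hLw, smul_eq_mul, mul_one, sub_self]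
  let P : (Fin (m + 1) → A) →ₗ[A] LinearMap.ker L := LinearMap.codRestrict _ P0 hPk
  let Ψ : (Fin (m + 1) → A) →ₗ[A] (Fin (m + 1) → A) :=
    LinearMap.pi (fun i => Fin.cases (motive := fun _ => (Fin (m + 1) → A) →ₗ[A] A) L
      (fun j => LinearMap.proj j ∘ₗ e.toLinearMap ∘ₗ P) i)
  let T : (Fin (m + 1) → A) →ₗ[A] (Fin m → A) := LinearMap.pi (fun j => LinearMap.proj j.succ)
  let Φ : (Fin (m + 1) → A) →ₗ[A] (Fin (m + 1) → A) :=
    (LinearMap.toSpanSingleton A _ w) ∘ₗ (LinearMap.proj 0) +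
      (LinearMap.ker L).subtype ∘ₗ e.symm.toLinearMap ∘ₗ T
  have hΨ0 : ∀ v, Ψ v 0 = L v := fun v => rfl
  have hTΨ : ∀ v, T (Ψ v) = e (P v) := by
    intro v
    funext j
    rfl
  have hΦ : ∀ c, Φ c = c 0 • w + ((e.symm (T c) : LinearMap.ker L) : Fin (m + 1) → A) :=
    fun c => rfl
  have hcomp : Φ ∘ₗ Ψ = LinearMap.id := by
    apply LinearMap.ext
    intro v
    rw [LinearMap.comp_apply, hΦ, hΨ0, hTΨ, LinearEquiv.symm_apply_apply, LinearMap.id_apply]
    show L v • w + (v - L v • w) = v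
    abel
  have h1 : LinearMap.toMatrix' Φ * LinearMap.toMatrix' Ψ = 1 := by
    rw [← LinearMap.toMatrix'_comp, hcomp, LinearMap.toMatrix'_id]
  refine ⟨LinearMap.toMatrix' Ψ, LinearMap.toMatrix' Φ, h1, mul_eq_one_comm.1 h1, ?_⟩
  intro i
  rw [LinearMap.toMatrix'_apply, hΨ0, hLapp, Finset.sum_eq_single i]
  · simp
  · intro j _ hj
    simp [hj]
  · intro hi
    exact absurd (Finset.mem_univ i) hi


end S_complete_of_free

alias complete_of_free := S_complete_of_free.complete_of_free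

end SF
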