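import Pool.Agent.Helper297.SF.Defs
set_option autoImplicit false
open MvPolynomial

namespace SF
namespace S_dT_exact
/-- contracting homotopy -/
noncomputable def dT_exact_h {R : Type} [CommRing R] {n : ℕ}
    (u : Finset (Fin n) × Finset (Fin n) → R) (p : Finset (Fin n) × Finset (Fin n)) : R :=
  if hD : (symmDiff p.1 p.2).Nonempty then
    (if (symmDiff p.1 p.2).min' hD ∈ p.2 then
      u (insert ((symmDiff p.1 p.2).min' hD) p.1, p.2.erase ((symmDiff p.1 p.2).min' hD)) else 0)
  else 0

theorem dT_exact_h_eq {R : Type} [CommRing R] {n : ℕ}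
    (u : Finset (Fin n) × Finset (Fin n) → R) (I J D : Finset (Fin n)) (hD : D.Nonempty)
    (h : symmDiff I J = D) :
    dT_exact_h u (I, J) = if D.min' hD ∈ J then u (insert (D.min' hD) I, J.erase (D.min' hD))
      else 0 := by
  subst h
  unfold dT_exact_h
  rw [dif_pos hD]

theorem dT_exact_sd {n : ℕ} (I J : Finset (Fin n)) (i : Fin n) (hi : i ∈ I \ J) :
    symmDiff (I.erase i) (insert i J) = symmDiff I J := by
  rw [Finset.mem_sdiff] at hi
  ext x
  simp only [Finset.mem_symmDiff, Finset.mem_erase, Finset.mem_insert]
  by_cases hx : x = i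
  · subst hx
    simp [hi.1, hi.2]
  · simp [hx]

/-- J26 -/
theorem dT_exact {R : Type} [CommRing R] [CharP R 2] (n k i : ℕ)
    (u : Finset (Fin n) × Finset (Fin n) → R) (hu : u ∈ TD R n k i) (hd : dT u = 0)
    (hdiag : ∀ I, u (I, I) = 0) : ∃ v ∈ TD R n k (i + 1), dT v = u := by
  have hdT : ∀ (w : Finset (Fin n) × Finset (Fin n) → R) (I J : Finset (Fin n)),
      dT w (I, J) = ∑ i ∈ I \ J, w (I.erase i, insert i J) := fun w I J => rfl
  refine ⟨dT_exact_h u, ?_, ?_⟩
  · rintro ⟨I, J⟩ hp
    by_cases hD : (symmDiff I J).Nonempty
    · rw [dT_exact_h_eq u I J _ hD rfl]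
      by_cases hm : (symmDiff I J).min' hD ∈ J
      · rw [if_pos hm]
        apply hu
        intro hc
        apply hp
        have hmI : (symmDiff I J).min' hD ∉ I := by
          have h1 := (symmDiff I J).min'_mem hD
          rw [Finset.mem_symmDiff] at h1
          rcases h1 with h1 | h1
          · exact absurd hm h1.2
          · exact h1.2
        have hJ : 0 < J.card := Finset.card_pos.2 ⟨_, hm⟩
        simp only [Finset.card_insert_of_notMem hmI, Finset.card_erase_of_mem hm] at hc
        simp only
        omega
      · rw [if_neg hm]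
    · unfold dT_exact_h
      rw [dif_neg hD]
  · funext p
    obtain ⟨I, J⟩ := p
    rw [hdT]
    by_cases hIJ : I = J
    · subst hIJ
      rw [hdiag, sdiff_self]
      rfl
    · have hD : (symmDiff I J).Nonempty := by
        rw [Finset.nonempty_iff_ne_empty]
        intro h0
        exact hIJ (symmDiff_eq_bot.1 h0)
      set m := (symmDiff I J).min' hD with hm
      have hmD : m ∈ symmDiff I J := (symmDiff I J).min'_mem hD
      have hterm : ∀ i ∈ I \ J, dT_exact_h u (I.erase i, insert i J) =
          if m ∈ insert i J then u (insert m (I.erase i), (insert i J).erase m) else 0 := by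
        intro i hi
        rw [dT_exact_h_eq u _ _ (symmDiff I J) hD (dT_exact_sd I J i hi)]
      rw [Finset.sum_congr rfl hterm]
      rw [Finset.mem_symmDiff] at hmD
      rcases hmD with ⟨hmI, hmJ⟩ | ⟨hmJ, hmI⟩
      · rw [Finset.sum_eq_single m]
        · rw [if_pos (Finset.mem_insert_self _ _), Finset.insert_erase hmI,
            Finset.erase_insert hmJ]
        · intro i _ hne
          rw [if_neg]
          rw [Finset.mem_insert]
          rintro (h1 | h1)
          · exact hne h1.symm
          · exact hmJ h1
        · intro h1
          exact absurd (Finset.mem_sdiff.2 ⟨hmI, hmJ⟩) h1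
      · have h1 : dT u (insert m I, J.erase m) = 0 := by rw [hd]; rfl
        rw [hdT] at h1
        have h2 : insert m I \ J.erase m = insert m (I \ J) := by
          ext x
          simp only [Finset.mem_sdiff, Finset.mem_insert, Finset.mem_erase]
          by_cases hx : x = m
          · simp [hx]
          · simp [hx]
        have h3 : m ∉ I \ J := fun h => hmI (Finset.mem_sdiff.1 h).1
        rw [h2, Finset.sum_insert h3, Finset.erase_insert hmI, Finset.insert_erase hmJ] at h1
        have h4 : ∀ i ∈ I \ J, (if m ∈ insert i J then
            u (insert m (I.erase i), (insert i J).erase m) else 0) =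
            u ((insert m I).erase i, insert i (J.erase m)) := by
          intro i hi
          rw [Finset.mem_sdiff] at hi
          have hne : i ≠ m := fun h => hi.2 (h ▸ hmJ)
          rw [if_pos (Finset.mem_insert_of_mem hmJ)]
          congr 1
          apply Prod.ext
          · exact (Finset.erase_insert_of_ne hne.symm).symm
          · exact Finset.erase_insert_of_ne hne
        rw [Finset.sum_congr rfl h4]
        have h5 := eq_neg_of_add_eq_zero_right h1
        rw [h5, CharTwo.neg_eq]


end S_dT_exact

alias dT_exact := S_dT_exact.dT_exact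

end SF
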