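import Pool.Agent.Helper297.SF.Defs
set_option autoImplicit false
open MvPolynomial

namespace SF
namespace S_eventually_const
variable {K : Type} [Field K] {n : ℕ} {M : Type} [AddCommGroup M] [Module K M]
    [Module (MvPolynomial (Fin n) K) M] [IsScalarTower K (MvPolynomial (Fin n) K) M]

/-- J5: eventually constant. -/
theorem eventually_const (q : ℕ)
    (H : ∀ (N N' : Fam K n M), (WellFoundedGT {N' : Fam K n M // N' ≤ N}) →
      (∀ d, Module.Finite K (N.N d)) → N' ≤ N → (∀ d, N.N d ≤ N'.N (d + 1)) →
      ∃ d0, ∀ d ≥ d0, q ∣ Module.finrank K (N.N d) - Module.finrank K (N'.N d))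
    (N : Fam K n M) (hN : Good N) :
    ∃ d0, ∀ d ≥ d0, (Module.finrank K (N.N d) : ZMod q) = (Module.finrank K (N.N d0) : ZMod q) := by
  let N' : Fam K n M :=
    { N := fun d => Nat.casesOn d ⊥ (fun e => N.N e)
      mono := by
        intro d
        cases d with
        | zero => exact bot_le
        | succ e => exact N.mono e
      smul := by
        intro d v hv i
        cases d with
        | zero =>
          have hv0 : v = 0 := (Submodule.mem_bot K).1 hv
          rw [hv0, smul_zero]
          exact Submodule.zero_mem _
        | succ e => exact N.smul e v hv i }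
  have hle : N' ≤ N := by
    intro d
    cases d with
    | zero => exact bot_le
    | succ e => exact N.mono e
  obtain ⟨d0, hd0⟩ := H N N' hN.acc hN.fin hle (fun d => le_refl (N.N d))
  refine ⟨d0, fun d hd => ?_⟩
  induction d, hd using Nat.le_induction with
  | base => rfl
  | succ d hd ih =>
    rw [← ih]
    have h1 : q ∣ Module.finrank K (N.N (d + 1)) - Module.finrank K (N.N d) :=
      hd0 (d + 1) (by omega)
    have h2 : Module.finrank K (N.N d) ≤ Module.finrank K (N.N (d + 1)) := by
      have := hN.fin (d + 1)
      exact Submodule.finrank_mono (N.mono d)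
    obtain ⟨c, hc⟩ := h1
    have h3 : Module.finrank K (N.N (d + 1)) = Module.finrank K (N.N d) + q * c := by omega
    rw [h3]
    simp


end S_eventually_const

alias eventually_const := S_eventually_const.eventually_const

end SF
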