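import Pool.Agent.Helper297.SF.Defs
set_option autoImplicit false
open MvPolynomial

namespace SF
namespace S_eventually_eq
variable {K : Type} [Field K] {n : ℕ} {M : Type} [AddCommGroup M] [Module K M]
    [Module (MvPolynomial (Fin n) K) M] [IsScalarTower K (MvPolynomial (Fin n) K) M]

/-- J6 aux: shift down by `k`. -/
noncomputable def eventually_eq_down (A : Fam K n M) (k : ℕ) : Fam K n M where
  N d := if k ≤ d then A.N (d - k) else ⊥
  mono d := by
    by_cases h : k ≤ d
    · rw [if_pos h, if_pos (by omega)]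
      have : d + 1 - k = (d - k) + 1 := by omega
      rw [this]; exact A.mono _
    · rw [if_neg h]; exact bot_le
  smul d v hv i := by
    by_cases h : k ≤ d
    · rw [if_pos h] at hv
      rw [if_pos (by omega)]
      have : d + 1 - k = (d - k) + 1 := by omega
      rw [this]; exact A.smul _ v hv i
    · rw [if_neg h] at hv
      rw [(Submodule.mem_bot K).1 hv, smul_zero]
      exact Submodule.zero_mem _

/-- J6 aux: supremum. -/
noncomputable def eventually_eq_sup (A B : Fam K n M) : Fam K n M where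
  N d := A.N d ⊔ B.N d
  mono d := sup_le_sup (A.mono d) (B.mono d)
  smul d v hv i := by
    obtain ⟨a, ha, b, hb, rfl⟩ := Submodule.mem_sup.1 hv
    rw [smul_add]
    exact Submodule.add_mem_sup (A.smul d a ha i) (B.smul d b hb i)

/-- J6 aux: intersection with a shift up. -/
noncomputable def eventually_eq_inf (A B : Fam K n M) (c : ℕ) : Fam K n M where
  N d := A.N d ⊓ B.N (d + c)
  mono d := by
    refine inf_le_inf (A.mono d) ?_
    have : d + 1 + c = (d + c) + 1 := by omega
    rw [this]; exact B.mono _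
  smul d v hv i := by
    have : d + 1 + c = (d + c) + 1 := by omega
    rw [this]
    exact ⟨A.smul d v hv.1 i, B.smul _ v hv.2 i⟩

theorem eventually_eq_mono (A : Fam K n M) : Monotone A.N := monotone_nat_of_le_succ A.mono

theorem eventually_eq_down_le (A : Fam K n M) (k : ℕ) : eventually_eq_down A k ≤ A := by
  intro d
  show (if k ≤ d then A.N (d - k) else ⊥) ≤ A.N d
  by_cases h : k ≤ d
  · rw [if_pos h]; exact eventually_eq_mono A (by omega)
  · rw [if_neg h]; exact bot_le

theorem eventually_eq_down_anti (A : Fam K n M) (k : ℕ) :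
    eventually_eq_down A (k + 1) ≤ eventually_eq_down A k := by
  intro d
  show (if k + 1 ≤ d then A.N (d - (k + 1)) else ⊥) ≤ (if k ≤ d then A.N (d - k) else ⊥)
  by_cases h : k + 1 ≤ d
  · rw [if_pos h, if_pos (by omega)]; exact eventually_eq_mono A (by omega)
  · rw [if_neg h]; exact bot_le

theorem eventually_eq_down_step (A : Fam K n M) (k : ℕ) (d : ℕ) :
    (eventually_eq_down A k).N d ≤ (eventually_eq_down A (k + 1)).N (d + 1) := by
  show (if k ≤ d then A.N (d - k) else ⊥) ≤ (if k + 1 ≤ d + 1 then A.N (d + 1 - (k + 1)) else ⊥)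
  by_cases h : k ≤ d
  · rw [if_pos h, if_pos (by omega)]; exact eventually_eq_mono A (by omega)
  · rw [if_neg h]; exact bot_le

theorem eventually_eq_down_zero (A : Fam K n M) : eventually_eq_down A 0 = A := by
  apply Fam.ext
  funext d
  show (if 0 ≤ d then A.N (d - 0) else ⊥) = A.N d
  rw [if_pos (Nat.zero_le _), Nat.sub_zero]

theorem eventually_eq_wf (P A : Fam K n M) (hP : WellFoundedGT {N' : Fam K n M // N' ≤ P})
    (hA : A ≤ P) : WellFoundedGT {N' : Fam K n M // N' ≤ A} := by
  let f : {N' : Fam K n M // N' ≤ A} → {N' : Fam K n M // N' ≤ P} :=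
    fun x => ⟨x.1, x.2.trans hA⟩
  have hf : StrictMono f := fun x y hxy => hxy
  exact hf.wellFoundedGT

theorem eventually_eq_fin (P A : Fam K n M) (hP : ∀ d, Module.Finite K (P.N d))
    (hA : A ≤ P) (d : ℕ) : Module.Finite K (A.N d) := by
  haveI := hP d
  exact Submodule.finiteDimensional_of_le (hA d)

/-- one step -/
theorem eventually_eq_one (q : ℕ)
    (H : ∀ (N N' : Fam K n M), (WellFoundedGT {N' : Fam K n M // N' ≤ N}) →
      (∀ d, Module.Finite K (N.N d)) → N' ≤ N → (∀ d, N.N d ≤ N'.N (d + 1)) →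
      ∃ d0, ∀ d ≥ d0, q ∣ Module.finrank K (N.N d) - Module.finrank K (N'.N d))
    (P A B : Fam K n M) (hP : Good P) (hA : A ≤ P) (hB : B ≤ A)
    (hAB : ∀ d, A.N d ≤ B.N (d + 1)) :
    ∃ d0, ∀ d ≥ d0, (Module.finrank K (A.N d) : ZMod q) = (Module.finrank K (B.N d) : ZMod q) := by
  obtain ⟨d0, hd0⟩ := H A B (eventually_eq_wf P A hP.acc hA)
    (eventually_eq_fin P A hP.fin hA) hB hAB
  refine ⟨d0, fun d hd => ?_⟩
  have h1 := hd0 d hd
  haveI := eventually_eq_fin P A hP.fin hA d
  have h2 : Module.finrank K (B.N d) ≤ Module.finrank K (A.N d) := Submodule.finrank_mono (hB d)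
  have h3 := (ZMod.natCast_eq_zero_iff _ _).2 h1
  rw [Nat.cast_sub h2, sub_eq_zero] at h3
  exact h3

theorem eventually_eq_trans (q : ℕ) (A B C : Fam K n M)
    (h1 : ∃ d0, ∀ d ≥ d0, (Module.finrank K (A.N d) : ZMod q) = (Module.finrank K (B.N d) : ZMod q))
    (h2 : ∃ d0, ∀ d ≥ d0, (Module.finrank K (B.N d) : ZMod q) = (Module.finrank K (C.N d) : ZMod q)) :
    ∃ d0, ∀ d ≥ d0, (Module.finrank K (A.N d) : ZMod q) = (Module.finrank K (C.N d) : ZMod q) := by
  obtain ⟨a, ha⟩ := h1
  obtain ⟨b, hb⟩ := h2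
  refine ⟨max a b, fun d hd => ?_⟩
  rw [ha d (le_trans (le_max_left _ _) hd), hb d (le_trans (le_max_right _ _) hd)]

/-- chain of steps -/
theorem eventually_eq_chain (q : ℕ)
    (H : ∀ (N N' : Fam K n M), (WellFoundedGT {N' : Fam K n M // N' ≤ N}) →
      (∀ d, Module.Finite K (N.N d)) → N' ≤ N → (∀ d, N.N d ≤ N'.N (d + 1)) →
      ∃ d0, ∀ d ≥ d0, q ∣ Module.finrank K (N.N d) - Module.finrank K (N'.N d))
    (P : Fam K n M) (hP : Good P) (B : ℕ → Fam K n M) (hB : ∀ j, B j ≤ P)
    (hanti : ∀ j, B (j + 1) ≤ B j) (hst : ∀ j d, (B j).N d ≤ (B (j + 1)).N (d + 1)) (j : ℕ) :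
    ∃ d0, ∀ d ≥ d0, (Module.finrank K ((B 0).N d) : ZMod q) =
      (Module.finrank K ((B j).N d) : ZMod q) := by
  induction j with
  | zero => exact ⟨0, fun _ _ => rfl⟩
  | succ j ih =>
    exact eventually_eq_trans q _ _ _ ih
      (eventually_eq_one q H P (B j) (B (j + 1)) hP (hB j) (hanti j) (hst j))

theorem eventually_eq_shift (N N' : Fam K n M) (hN : Good N) (hN' : Good N') :
    ∃ c, ∀ c' ≥ c, ∀ d, N.N d ≤ N'.N (d + c') := by
  haveI := hN.acc
  let a : ℕ →o {A : Fam K n M // A ≤ N} :=
    { toFun := fun c => ⟨eventually_eq_inf N N' c, fun d => inf_le_left⟩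
      monotone' := by
        intro c c' hc d
        exact inf_le_inf le_rfl (eventually_eq_mono N' (by omega)) }
  obtain ⟨c, hc⟩ := WellFoundedGT.monotone_chain_condition a
  refine ⟨c, fun c' hc' d v hv => ?_⟩
  obtain ⟨d', hd'⟩ := hN'.exh v
  have h1 := hc (max c d') (le_max_left _ _)
  have h2 : eventually_eq_inf N N' c = eventually_eq_inf N N' (max c d') := congrArg Subtype.val h1
  have h3 : v ∈ (eventually_eq_inf N N' (max c d')).N d :=
    ⟨hv, eventually_eq_mono N' (le_trans (le_max_right c d') (Nat.le_add_left _ _)) hd'⟩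
  rw [← h2] at h3
  exact eventually_eq_mono N' (by omega) h3.2

/-- J6: independence of the family. -/
theorem eventually_eq (q : ℕ)
    (H : ∀ (N N' : Fam K n M), (WellFoundedGT {N' : Fam K n M // N' ≤ N}) →
      (∀ d, Module.Finite K (N.N d)) → N' ≤ N → (∀ d, N.N d ≤ N'.N (d + 1)) →
      ∃ d0, ∀ d ≥ d0, q ∣ Module.finrank K (N.N d) - Module.finrank K (N'.N d))
    (N N' : Fam K n M) (hN : Good N) (hN' : Good N') :
    ∃ d0, ∀ d ≥ d0, (Module.finrank K (N.N d) : ZMod q) = (Module.finrank K (N'.N d) : ZMod q) := by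
  obtain ⟨c1, hc1⟩ := eventually_eq_shift N N' hN hN'
  obtain ⟨c2, hc2⟩ := eventually_eq_shift N' N hN' hN
  set c := max c1 c2 with hc
  have k1 : ∀ d, N.N d ≤ N'.N (d + c) := hc1 c (le_max_left _ _)
  have k2 : ∀ d, N'.N d ≤ N.N (d + c) := hc2 c (le_max_right _ _)
  -- N and its down shift
  have s1 : ∃ d0, ∀ d ≥ d0, (Module.finrank K (N.N d) : ZMod q) =
      (Module.finrank K ((eventually_eq_down N c).N d) : ZMod q) := by
    have := eventually_eq_chain q H N hN (fun j => eventually_eq_down N j)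
      (fun j => eventually_eq_down_le N j) (fun j => eventually_eq_down_anti N j)
      (fun j d => eventually_eq_down_step N j d) c
    rw [eventually_eq_down_zero] at this
    exact this
  have hdn : eventually_eq_down N c ≤ N' := by
    intro d
    show (if c ≤ d then N.N (d - c) else ⊥) ≤ N'.N d
    by_cases h : c ≤ d
    · rw [if_pos h]
      have := k1 (d - c)
      rwa [Nat.sub_add_cancel h] at this
    · rw [if_neg h]; exact bot_le
  have hdn2 : eventually_eq_down N' (2 * c) ≤ eventually_eq_down N c := by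
    intro d
    show (if 2 * c ≤ d then N'.N (d - 2 * c) else ⊥) ≤ (if c ≤ d then N.N (d - c) else ⊥)
    by_cases h : 2 * c ≤ d
    · rw [if_pos h, if_pos (by omega)]
      have := k2 (d - 2 * c)
      have e : d - 2 * c + c = d - c := by omega
      rwa [e] at this
    · rw [if_neg h]; exact bot_le
  have s2 := eventually_eq_chain q H N' hN'
    (fun j => eventually_eq_sup (eventually_eq_down N c) (eventually_eq_down N' j))
    (fun j d => sup_le (hdn d) (eventually_eq_down_le N' j d))
    (fun j d => sup_le_sup le_rfl (eventually_eq_down_anti N' j d))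
    (fun j d => sup_le_sup ((eventually_eq_down N c).mono d) (eventually_eq_down_step N' j d))
    (2 * c)
  have e0 : eventually_eq_sup (eventually_eq_down N c) (eventually_eq_down N' 0) = N' := by
    apply Fam.ext
    funext d
    show (eventually_eq_down N c).N d ⊔ (eventually_eq_down N' 0).N d = N'.N d
    rw [eventually_eq_down_zero]
    exact sup_eq_right.2 (hdn d)
  have e1 : eventually_eq_sup (eventually_eq_down N c) (eventually_eq_down N' (2 * c)) =
      eventually_eq_down N c := by
    apply Fam.ext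
    funext d
    exact sup_eq_left.2 (hdn2 d)
  rw [e0, e1] at s2
  obtain ⟨a, ha⟩ := s1
  obtain ⟨b, hb⟩ := s2
  refine ⟨max a b, fun d hd => ?_⟩
  rw [ha d (le_trans (le_max_left _ _) hd), hb d (le_trans (le_max_right _ _) hd)]


end S_eventually_eq

alias eventually_eq := S_eventually_eq.eventually_eq

end SF
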