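import Pool.Agent.Helper297.SF.Defs
set_option autoImplicit false
open MvPolynomial

namespace SF
namespace S_exists_good
/-- J8b: existence of good families. -/
theorem exists_good
    (hstd : ∀ (K : Type) [Field K] (n : ℕ) (ι : Type) [Fintype ι],
      ∃ N : Fam K n (ι → MvPolynomial (Fin n) K), Good N ∧
      ∀ d v, v ∈ N.N d ↔ ∀ i, (v i).totalDegree ≤ d)
    (hmap : ∀ (K : Type) [Field K] (n : ℕ) (M M' : Type) [AddCommGroup M] [Module K M]
      [Module (MvPolynomial (Fin n) K) M] [IsScalarTower K (MvPolynomial (Fin n) K) M]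
      [AddCommGroup M'] [Module K M'] [Module (MvPolynomial (Fin n) K) M']
      [IsScalarTower K (MvPolynomial (Fin n) K) M'] (f : M →ₗ[MvPolynomial (Fin n) K] M'),
      Function.Surjective f → ∀ (N : Fam K n M), Good N →
      ∃ N' : Fam K n M', Good N' ∧ ∀ d, N'.N d = (N.N d).map (f.restrictScalars K))
    (K : Type) [Field K] (n : ℕ) (M : Type) [AddCommGroup M] [Module K M]
    [Module (MvPolynomial (Fin n) K) M] [IsScalarTower K (MvPolynomial (Fin n) K) M]
    [Module.Finite (MvPolynomial (Fin n) K) M] : ∃ N : Fam K n M, Good N := by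
  obtain ⟨m, f, hf⟩ := Module.Finite.exists_fin' (MvPolynomial (Fin n) K) M
  obtain ⟨N, hN, -⟩ := hstd K n (Fin m)
  obtain ⟨N', hN', -⟩ := hmap K n (Fin m → MvPolynomial (Fin n) K) M f hf N hN
  exact ⟨N', hN'⟩


end S_exists_good

alias exists_good := S_exists_good.exists_good

end SF
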