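import Pool.Agent.Helper297.SF.Defs
set_option autoImplicit false
open MvPolynomial

namespace SF
namespace S_exists_inv
/-- rank-nullity for the intersection with a submodule and the image in the quotient -/
theorem j10_rank (K : Type) [Field K] (n : ℕ) (M : Type) [AddCommGroup M] [Module K M]
    [Module (MvPolynomial (Fin n) K) M] [IsScalarTower K (MvPolynomial (Fin n) K) M]
    (P : Submodule (MvPolynomial (Fin n) K) M) (N : Submodule K M) (hN : Module.Finite K N) :
    Module.finrank K N = Module.finrank K (N.comap (P.subtype.restrictScalars K)) +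
      Module.finrank K (N.map (P.mkQ.restrictScalars K)) := by
  let g : N →ₗ[K] (M ⧸ P) := (P.mkQ.restrictScalars K).domRestrict N
  have h1 := LinearMap.finrank_range_add_finrank_ker g
  have h2 : LinearMap.range g = N.map (P.mkQ.restrictScalars K) := by
    ext x
    simp only [LinearMap.mem_range, Submodule.mem_map, g, LinearMap.domRestrict_apply]
    constructor
    · rintro ⟨y, hy⟩
      exact ⟨y, y.2, hy⟩
    · rintro ⟨y, hy, hyx⟩
      exact ⟨⟨y, hy⟩, hyx⟩
  have h3 : (LinearMap.ker g).map N.subtype =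
      (N.comap (P.subtype.restrictScalars K)).map (P.subtype.restrictScalars K) := by
    ext x
    simp only [Submodule.mem_map, LinearMap.mem_ker, Submodule.mem_comap]
    constructor
    · rintro ⟨y, hy, rfl⟩
      have hyP : (y : M) ∈ P := by
        have : P.mkQ (y : M) = 0 := hy
        rwa [Submodule.mkQ_apply, Submodule.Quotient.mk_eq_zero] at this
      exact ⟨⟨y, hyP⟩, y.2, rfl⟩
    · rintro ⟨y, hy, rfl⟩
      refine ⟨⟨(y : M), hy⟩, ?_, rfl⟩
      show P.mkQ (y : M) = 0
      rw [Submodule.mkQ_apply, Submodule.Quotient.mk_eq_zero]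
      exact y.2
  have h4 := (Submodule.equivMapOfInjective N.subtype N.subtype_injective (LinearMap.ker g)).finrank_eq
  have h5 := (Submodule.equivMapOfInjective (P.subtype.restrictScalars K) P.subtype_injective
    (N.comap (P.subtype.restrictScalars K))).finrank_eq
  rw [h4, h3, ← h5, h2] at h1
  rw [← h1, add_comm]

/-- the action of `K` through the polynomial ring -/
theorem j10_indep (K : Type) [Field K] (n q : ℕ) (M : Type) [AddCommGroup M] [i : Module K M]
    [Module (MvPolynomial (Fin n) K) M] [IsScalarTower K (MvPolynomial (Fin n) K) M] :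
    theta K n q M = @theta K _ n q M _ (Module.compHom M (algebraMap K (MvPolynomial (Fin n) K))) _ := by
  have h : i = Module.compHom M (algebraMap K (MvPolynomial (Fin n) K)) := by
    apply Module.ext'
    intro r m
    show r • m = (algebraMap K (MvPolynomial (Fin n) K) r) • m
    rw [algebraMap_smul]
  subst h
  rfl

/-- J10: the additive invariant exists. -/
theorem exists_inv (K : Type) [Field K] (n q : ℕ) (F : MvPolynomial (Fin n) K)
    (hspec : ∀ (M : Type) [AddCommGroup M] [Module K M] [Module (MvPolynomial (Fin n) K) M]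
      [IsScalarTower K (MvPolynomial (Fin n) K) M], (∃ b : ℕ, ∀ v : M, F ^ b • v = 0) →
      ∀ N : Fam K n M, Good N →
      ∃ d0, ∀ d ≥ d0, (Module.finrank K (N.N d) : ZMod q) = theta K n q M)
    (hex : ∀ (M : Type) [AddCommGroup M] [Module K M] [Module (MvPolynomial (Fin n) K) M]
      [IsScalarTower K (MvPolynomial (Fin n) K) M] [Module.Finite (MvPolynomial (Fin n) K) M],
      ∃ N : Fam K n M, Good N)
    (hmap : ∀ (M M' : Type) [AddCommGroup M] [Module K M]
      [Module (MvPolynomial (Fin n) K) M] [IsScalarTower K (MvPolynomial (Fin n) K) M]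
      [AddCommGroup M'] [Module K M'] [Module (MvPolynomial (Fin n) K) M']
      [IsScalarTower K (MvPolynomial (Fin n) K) M'] (f : M →ₗ[MvPolynomial (Fin n) K] M'),
      Function.Surjective f → ∀ (N : Fam K n M), Good N →
      ∃ N' : Fam K n M', Good N' ∧ ∀ d, N'.N d = (N.N d).map (f.restrictScalars K))
    (hcomap : ∀ (M M' : Type) [AddCommGroup M] [Module K M]
      [Module (MvPolynomial (Fin n) K) M] [IsScalarTower K (MvPolynomial (Fin n) K) M]
      [AddCommGroup M'] [Module K M'] [Module (MvPolynomial (Fin n) K) M']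
      [IsScalarTower K (MvPolynomial (Fin n) K) M'] (f : M' →ₗ[MvPolynomial (Fin n) K] M),
      Function.Injective f → ∀ (N : Fam K n M), Good N →
      ∃ N' : Fam K n M', Good N' ∧ ∀ d, N'.N d = (N.N d).comap (f.restrictScalars K)) :
    ∃ Θ : Inv (MvPolynomial (Fin n) K) F (ZMod q),
      ∀ (M : Type) [AddCommGroup M] [Module K M] [Module (MvPolynomial (Fin n) K) M]
        [IsScalarTower K (MvPolynomial (Fin n) K) M], (∃ b : ℕ, ∀ v : M, F ^ b • v = 0) →
        ∀ N : Fam K n M, Good N →
        ∃ d0, ∀ d ≥ d0, (Module.finrank K (N.N d) : ZMod q) = Θ.th M := by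
  -- invariance under isomorphisms
  have hA : ∀ (M M' : Type) [AddCommGroup M] [Module K M]
      [Module (MvPolynomial (Fin n) K) M] [IsScalarTower K (MvPolynomial (Fin n) K) M]
      [AddCommGroup M'] [Module K M'] [Module (MvPolynomial (Fin n) K) M']
      [IsScalarTower K (MvPolynomial (Fin n) K) M'],
      Module.Finite (MvPolynomial (Fin n) K) M → (∃ b : ℕ, ∀ v : M, F ^ b • v = 0) →
      (M ≃ₗ[MvPolynomial (Fin n) K] M') → theta K n q M = theta K n q M' := by
    intro M M' _ _ _ _ _ _ _ _ hfin htor e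
    obtain ⟨N, hN⟩ := hex M
    obtain ⟨N', hN', hNd⟩ := hmap M M' e.toLinearMap e.surjective N hN
    obtain ⟨b, hb⟩ := htor
    have htor' : ∃ b : ℕ, ∀ v : M', F ^ b • v = 0 := by
      refine ⟨b, fun v => ?_⟩
      have h1 := congrArg e (hb (e.symm v))
      rw [map_smul, e.apply_symm_apply, map_zero] at h1
      exact h1
    obtain ⟨d0, h0⟩ := hspec M ⟨b, hb⟩ N hN
    obtain ⟨d1, h1⟩ := hspec M' htor' N' hN'
    have h2 := h0 (max d0 d1) (le_max_left _ _)
    have h3 := h1 (max d0 d1) (le_max_right _ _)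
    rw [hNd] at h3
    have h4 := (Submodule.equivMapOfInjective (e.toLinearMap.restrictScalars K) e.injective
      (N.N (max d0 d1))).finrank_eq
    rw [← h4, h2] at h3
    exact h3
  -- additivity
  have hB : ∀ (M : Type) [AddCommGroup M] [Module K M]
      [Module (MvPolynomial (Fin n) K) M] [IsScalarTower K (MvPolynomial (Fin n) K) M]
      (P : Submodule (MvPolynomial (Fin n) K) M),
      Module.Finite (MvPolynomial (Fin n) K) M → (∃ b : ℕ, ∀ v : M, F ^ b • v = 0) →
      theta K n q M = theta K n q P + theta K n q (M ⧸ P) := by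
    intro M _ _ _ _ P hfin htor
    obtain ⟨N, hN⟩ := hex M
    obtain ⟨N', hN', hNd'⟩ := hcomap M P P.subtype P.subtype_injective N hN
    obtain ⟨N'', hN'', hNd''⟩ := hmap M (M ⧸ P) P.mkQ P.mkQ_surjective N hN
    obtain ⟨b, hb⟩ := htor
    have htor' : ∃ b : ℕ, ∀ v : P, F ^ b • v = 0 := by
      refine ⟨b, fun v => ?_⟩
      apply Subtype.ext
      exact hb v
    have htor'' : ∃ b : ℕ, ∀ v : M ⧸ P, F ^ b • v = 0 := by
      refine ⟨b, fun v => ?_⟩
      obtain ⟨w, rfl⟩ := P.mkQ_surjective v
      rw [← map_smul, hb, map_zero]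
    obtain ⟨d0, h0⟩ := hspec M ⟨b, hb⟩ N hN
    obtain ⟨d1, h1⟩ := hspec P htor' N' hN'
    obtain ⟨d2, h2⟩ := hspec (M ⧸ P) htor'' N'' hN''
    set d := max d0 (max d1 d2) with hd
    have e0 := h0 d (le_max_left _ _)
    have e1 := h1 d ((le_max_left _ _).trans (le_max_right _ _))
    have e2 := h2 d ((le_max_right _ _).trans (le_max_right _ _))
    rw [hNd'] at e1
    rw [hNd''] at e2
    rw [← e0, ← e1, ← e2, ← Nat.cast_add, j10_rank K n M P (N.N d) (hN.fin d)]
  let th : ∀ (M : Type) [AddCommGroup M] [Module (MvPolynomial (Fin n) K) M], ZMod q :=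
    fun M _ _ => @theta K _ n q M _ (Module.compHom M (algebraMap K (MvPolynomial (Fin n) K))) _
  have hind : ∀ (M : Type) [AddCommGroup M] [Module K M] [Module (MvPolynomial (Fin n) K) M]
      [IsScalarTower K (MvPolynomial (Fin n) K) M], theta K n q M = th M :=
    fun M _ _ _ _ => j10_indep K n q M
  refine ⟨⟨th, ?_, ?_⟩, ?_⟩
  · intro M M' _ _ _ _ hfin htor e
    letI i1 : Module K M := Module.compHom M (algebraMap K (MvPolynomial (Fin n) K))
    letI i2 : Module K M' := Module.compHom M' (algebraMap K (MvPolynomial (Fin n) K))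
    haveI : IsScalarTower K (MvPolynomial (Fin n) K) M := ⟨fun r x m => by
      show (r • x) • m = (algebraMap K (MvPolynomial (Fin n) K) r) • (x • m)
      rw [Algebra.smul_def, mul_smul]⟩
    haveI : IsScalarTower K (MvPolynomial (Fin n) K) M' := ⟨fun r x m => by
      show (r • x) • m = (algebraMap K (MvPolynomial (Fin n) K) r) • (x • m)
      rw [Algebra.smul_def, mul_smul]⟩
    rw [← hind M, ← hind M']
    exact hA M M' hfin htor e
  · intro M _ _ P hfin htor
    letI i1 : Module K M := Module.compHom M (algebraMap K (MvPolynomial (Fin n) K))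
    haveI : IsScalarTower K (MvPolynomial (Fin n) K) M := ⟨fun r x m => by
      show (r • x) • m = (algebraMap K (MvPolynomial (Fin n) K) r) • (x • m)
      rw [Algebra.smul_def, mul_smul]⟩
    rw [← hind M, ← hind P, ← hind (M ⧸ P)]
    exact hB M P hfin htor
  · intro M _ _ _ _ htor N hN
    obtain ⟨d0, h0⟩ := hspec M htor N hN
    refine ⟨d0, fun d hd => ?_⟩
    rw [h0 d hd]
    exact hind M


end S_exists_inv

alias exists_inv := S_exists_inv.exists_inv

end SF
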