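import Pool.Agent.Helper297.SF.Defs
set_option autoImplicit false
open MvPolynomial

namespace SF
namespace S_exists_prime_ann
variable {K : Type} [Field K] {n : ℕ} {M : Type} [AddCommGroup M] [Module K M]
    [Module (MvPolynomial (Fin n) K) M] [IsScalarTower K (MvPolynomial (Fin n) K) M]

section AnnAux

attribute [local instance] MvPolynomial.gradedAlgebra

theorem aux_dec (r : MvPolynomial (Fin n) K) (d : ℕ) :
    ((DirectSum.decompose (homogeneousSubmodule (Fin n) K) r d : _) : MvPolynomial (Fin n) K)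
      = homogeneousComponent d r :=
  decomposition.decompose'_apply r d

theorem aux_hc_add {a : MvPolynomial (Fin n) K} {i : ℕ} (ha : a ∈ homogeneousSubmodule (Fin n) K i)
    (b : MvPolynomial (Fin n) K) (j : ℕ) :
    homogeneousComponent (i + j) (a * b) = a * homogeneousComponent j b := by
  rw [← aux_dec, ← aux_dec]
  exact DirectSum.coe_decompose_mul_add_of_left_mem (homogeneousSubmodule (Fin n) K) ha

theorem aux_hc_lt {a : MvPolynomial (Fin n) K} {i : ℕ} (ha : a ∈ homogeneousSubmodule (Fin n) K i)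
    (b : MvPolynomial (Fin n) K) (j : ℕ) (hj : ¬ i ≤ j) :
    homogeneousComponent j (a * b) = 0 := by
  rw [← aux_dec]
  exact DirectSum.coe_decompose_mul_of_left_mem_of_not_le (homogeneousSubmodule (Fin n) K) ha hj

theorem aux_smul_mono (F : Fam K n M) : ∀ (i : ℕ) (m : Fin n →₀ ℕ), m.degree = i →
    ∀ (c : K) (d : ℕ) (w : M), w ∈ F.N d →
      (monomial m c : MvPolynomial (Fin n) K) • w ∈ F.N (d + i) := by
  intro i
  induction i with
  | zero =>
    intro m hm c d w hw
    rw [Finsupp.degree_eq_zero_iff] at hm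
    subst hm
    have : (monomial 0 c : MvPolynomial (Fin n) K) • w = c • w := by
      rw [← C_apply, ← mul_one (C c), ← MvPolynomial.smul_eq_C_mul, smul_assoc, one_smul]
    rw [this]
    exact (F.N d).smul_mem c hw
  | succ i ih =>
    intro m hm c d w hw
    have hm0 : m ≠ 0 := by
      rintro rfl
      simp at hm
    obtain ⟨j, hj⟩ := Finsupp.ne_iff.1 hm0
    have hj' : 1 ≤ m j := Nat.one_le_iff_ne_zero.2 hj
    have hle : Finsupp.single j 1 ≤ m := by
      rw [Finsupp.single_le_iff]; exact hj'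
    have hsplit : m = Finsupp.single j 1 + (m - Finsupp.single j 1) :=
      (add_tsub_cancel_of_le hle).symm
    have hdeg : (m - Finsupp.single j 1).degree = i := by
      have h1 := congrArg Finsupp.degree hsplit
      rw [map_add, Finsupp.degree_single] at h1
      omega
    have hmon : (monomial m c : MvPolynomial (Fin n) K)
        = X j * monomial (m - Finsupp.single j 1) c := by
      rw [X, monomial_mul, one_mul, ← hsplit]
    rw [hmon, mul_smul]
    exact F.smul _ _ (ih _ hdeg c d w hw) j

theorem aux_smul_hom (F : Fam K n M) {a : MvPolynomial (Fin n) K} {i : ℕ}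
    (ha : a ∈ homogeneousSubmodule (Fin n) K i) (d : ℕ) (w : M) (hw : w ∈ F.N d) :
    a • w ∈ F.N (d + i) := by
  rw [MvPolynomial.as_sum a, Finset.sum_smul]
  refine Submodule.sum_mem _ fun m hm => ?_
  refine aux_smul_mono F i m ?_ _ d w hw
  have h1 := (mem_homogeneousSubmodule i a).1 ha
  have h2 := h1 (mem_support_iff.1 hm)
  rw [← h2, Finsupp.degree_eq_weight_one]
  rfl

/-- annihilator -/
noncomputable def aux_ann (N' : Fam K n M) (e : ℕ) (v : M) : Ideal (MvPolynomial (Fin n) K) where
  carrier := {r | ∀ d, homogeneousComponent d r • v ∈ N'.N (e + d)}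
  zero_mem' := by
    intro d
    rw [map_zero, zero_smul]
    exact Submodule.zero_mem _
  add_mem' := by
    intro a b ha hb d
    rw [map_add, add_smul]
    exact Submodule.add_mem _ (ha d) (hb d)
  smul_mem' := by
    intro c r hr d
    rw [smul_eq_mul, ← sum_homogeneousComponent c, Finset.sum_mul, map_sum, Finset.sum_smul]
    refine Submodule.sum_mem _ fun i _ => ?_
    have hc : homogeneousComponent i c ∈ homogeneousSubmodule (Fin n) K i :=
      homogeneousComponent_mem i c
    by_cases hid : i ≤ d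
    · obtain ⟨j, rfl⟩ := Nat.exists_eq_add_of_le hid
      rw [aux_hc_add hc, mul_smul]
      have := aux_smul_hom N' hc (e + j) _ (hr j)
      rwa [add_assoc, add_comm j i] at this
    · rw [aux_hc_lt hc _ _ hid, zero_smul]
      exact Submodule.zero_mem _

theorem aux_mem_ann (N' : Fam K n M) (e : ℕ) (v : M) (r : MvPolynomial (Fin n) K) :
    r ∈ aux_ann N' e v ↔ ∀ d, homogeneousComponent d r • v ∈ N'.N (e + d) := Iff.rfl

theorem aux_mem_ann_hom (N' : Fam K n M) (e : ℕ) (v : M) {a : MvPolynomial (Fin n) K} {i : ℕ}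
    (ha : a ∈ homogeneousSubmodule (Fin n) K i) :
    a ∈ aux_ann N' e v ↔ a • v ∈ N'.N (e + i) := by
  rw [aux_mem_ann]
  constructor
  · intro h
    have := h i
    rwa [homogeneousComponent_of_mem ha, if_pos rfl] at this
  · intro h d
    rw [homogeneousComponent_of_mem ha]
    split_ifs with hd
    · subst hd; exact h
    · rw [zero_smul]; exact Submodule.zero_mem _

/-- J4a: a maximal homogeneous annihilator is a prime ideal. -/
theorem exists_prime_ann (N N' : Fam K n M) (hle : N' ≤ N) (hne : N' ≠ N)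
    (hx0 : ∀ d, N.N d ≤ N'.N (d + 1)) :
    ∃ (e0 : ℕ) (v : M) (P : Ideal (MvPolynomial (Fin n) K)), P.IsPrime ∧
      v ∈ N.N e0 ∧ v ∉ N'.N e0 ∧
      ∀ r, r ∈ P ↔ ∀ d, homogeneousComponent d r • v ∈ N'.N (e0 + d) := by
  -- nonempty
  have h0 : ∃ (e : ℕ) (v : M), v ∈ N.N e ∧ v ∉ N'.N e := by
    by_contra hcon
    push Not at hcon
    apply hne
    apply le_antisymm hle
    intro e v hv
    exact hcon e v hv
  let 𝒮 : Set (Ideal (MvPolynomial (Fin n) K)) :=
    {I | ∃ (e : ℕ) (v : M), v ∈ N.N e ∧ v ∉ N'.N e ∧ I = aux_ann N' e v}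
  have hS : 𝒮.Nonempty := by
    obtain ⟨e, v, h1, h2⟩ := h0
    exact ⟨_, e, v, h1, h2, rfl⟩
  have hnoeth : IsNoetherian (MvPolynomial (Fin n) K) (MvPolynomial (Fin n) K) :=
    inferInstanceAs (IsNoetherianRing (MvPolynomial (Fin n) K))
  obtain ⟨P, ⟨e, v, hv1, hv2, hP⟩, hmax⟩ := set_has_maximal_iff_noetherian.2 hnoeth 𝒮 hS
  refine ⟨e, v, P, ?_, hv1, hv2, fun r => by rw [hP]; exact aux_mem_ann N' e v r⟩
  have hhom : P.IsHomogeneous (homogeneousSubmodule (Fin n) K) := by
    intro i r hr
    rw [aux_dec]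
    rw [hP] at hr ⊢
    rw [aux_mem_ann_hom N' e v (homogeneousComponent_mem i r)]
    exact hr i
  refine Ideal.IsHomogeneous.isPrime_of_homogeneous_mem_or_mem hhom ?_ ?_
  · rw [Ideal.ne_top_iff_one]
    intro h1
    rw [hP] at h1
    have h2 := h1 0
    rw [homogeneousComponent_zero] at h2
    simp only [coeff_zero_one, map_one, one_smul, add_zero] at h2
    exact hv2 h2
  · rintro a b ⟨i, ha⟩ ⟨j, hb⟩ hab
    by_cases hbP : b ∈ P
    · exact Or.inr hbP
    left
    have hab' : a * b ∈ homogeneousSubmodule (Fin n) K (i + j) :=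
      SetLike.mul_mem_graded ha hb
    rw [hP, aux_mem_ann_hom N' e v hab'] at hab
    rw [hP, aux_mem_ann_hom N' e v hb] at hbP
    have hw1 : b • v ∈ N.N (e + j) := aux_smul_hom N hb e v hv1
    have hle2 : P ≤ aux_ann N' (e + j) (b • v) := by
      intro r hr
      rw [hP] at hr
      intro d
      rw [← mul_smul, mul_comm, mul_smul]
      have := aux_smul_hom N' hb (e + d) _ (hr d)
      rwa [add_assoc, add_comm d j, ← add_assoc] at this
    have heq : P = aux_ann N' (e + j) (b • v) := by
      by_contra hne2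
      exact hmax _ ⟨e + j, b • v, hw1, hbP, rfl⟩ (lt_of_le_of_ne hle2 hne2)
    rw [heq, aux_mem_ann_hom N' _ _ ha, ← mul_smul]
    have e1 : e + j + i = e + (i + j) := by omega
    rw [e1]
    exact hab

end AnnAux


end S_exists_prime_ann

alias exists_prime_ann := S_exists_prime_ann.exists_prime_ann

end SF
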