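import Pool.Agent.Helper297.SF.Defs
set_option autoImplicit false
open MvPolynomial

namespace SF
namespace S_field_lemma
theorem J1_split {Q : Type} [AddCommMonoid Q] (f : ℕ → Q) (m : ℕ) :
    ∑ i ∈ Finset.range (2 * m), f i = ∑ i ∈ Finset.range m, (f (2 * i) + f (2 * i + 1)) := by
  induction m with
  | zero => simp
  | succ m ih =>
    rw [show 2 * (m + 1) = 2 * m + 1 + 1 by ring, Finset.sum_range_succ, Finset.sum_range_succ, ih,
      Finset.sum_range_succ, add_assoc]

theorem J1_ns {Q : Type} [Field Q] [CharP Q 2] (ε : Q) (hε : ¬ IsSquare ε) :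
    ∀ (r : ℕ) (z : ℕ → Q), ∑ i ∈ Finset.range (2 ^ r), ε ^ i * z i ^ (2 ^ r) = 0 →
      ∀ i < 2 ^ r, z i = 0 := by
  intro r
  induction r with
  | zero =>
    intro z hz i hi
    have : i = 0 := by simpa using hi
    subst this
    simpa using hz
  | succ r ih =>
    intro z hz i hi
    have : Fact (Nat.Prime 2) := ⟨Nat.prime_two⟩
    have : ExpChar Q 2 := ExpChar.prime Nat.prime_two
    set A := ∑ i ∈ Finset.range (2 ^ r), ε ^ i * z (2 * i) ^ (2 ^ r) with hA
    set B := ∑ i ∈ Finset.range (2 ^ r), ε ^ i * z (2 * i + 1) ^ (2 ^ r) with hB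
    have hA2 : A ^ 2 = ∑ i ∈ Finset.range (2 ^ r), ε ^ (2 * i) * z (2 * i) ^ (2 ^ (r + 1)) := by
      rw [hA, sum_pow_char]
      apply Finset.sum_congr rfl
      intro i _
      rw [mul_pow, ← pow_mul, ← pow_mul, mul_comm i 2, pow_succ 2 r]
    have hB2 : B ^ 2 = ∑ i ∈ Finset.range (2 ^ r), ε ^ (2 * i) * z (2 * i + 1) ^ (2 ^ (r + 1)) := by
      rw [hB, sum_pow_char]
      apply Finset.sum_congr rfl
      intro i _
      rw [mul_pow, ← pow_mul, ← pow_mul, mul_comm i 2, pow_succ 2 r]
    have hsum : A ^ 2 + ε * B ^ 2 = 0 := by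
      rw [hA2, hB2, Finset.mul_sum, ← Finset.sum_add_distrib, ← hz, pow_succ 2 r, mul_comm (2 ^ r) 2,
        J1_split]
      apply Finset.sum_congr rfl
      intro i _
      ring
    have hB0 : B = 0 := by
      by_contra hB0
      apply hε
      refine ⟨A / B, ?_⟩
      have h2 : (2 : Q) = 0 := by
        have := CharP.cast_eq_zero Q 2
        simpa using this
      field_simp
      have : ε * B ^ 2 = A ^ 2 - 2 * A ^ 2 := by linear_combination hsum
      rw [this, h2]; ring
    have hA0 : A = 0 := by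
      rw [hB0] at hsum
      simpa using hsum
    rcases Nat.even_or_odd' i with ⟨c, hc | hc⟩
    · have := ih (fun i => z (2 * i)) hA0 c (by rw [pow_succ] at hi; omega)
      rw [hc]; exact this
    · have := ih (fun i => z (2 * i + 1)) hB0 c (by rw [pow_succ] at hi; omega)
      rw [hc]; exact this

/-- J1 -/
theorem field_lemma {Q : Type} [Field Q] [CharP Q 2] (t : Q) (n e s : ℕ) (hn : n ≤ 2 ^ e)
    (hes : e ≤ s) (y : Fin n → Q) (hy : ∃ i, y i ≠ 0)
    (h : ∑ i : Fin n, t ^ (i : ℕ) * y i ^ (2 ^ s) = 0) :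
    ∃ ε : Q, ε ^ (2 ^ (s - e)) = t := by
  have : Fact (Nat.Prime 2) := ⟨Nat.prime_two⟩
  have : ExpChar Q 2 := ExpChar.prime Nat.prime_two
  have key : ∀ j ≤ s - e, ∃ ε : Q, ε ^ (2 ^ j) = t := by
    intro j
    induction j with
    | zero => intro _; exact ⟨t, by simp⟩
    | succ j ih =>
      intro hj
      obtain ⟨ε, hε⟩ := ih (by omega)
      have hpow : (∑ i : Fin n, ε ^ (i : ℕ) * y i ^ (2 ^ (s - j))) ^ (2 ^ j) = 0 := by
        rw [sum_pow_char_pow, ← h]
        apply Finset.sum_congr rfl
        intro i _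
        rw [mul_pow, ← pow_mul, ← pow_mul, ← pow_add, mul_comm (i : ℕ) (2 ^ j), pow_mul, hε]
        congr 3
        omega
      have h0 : ∑ i : Fin n, ε ^ (i : ℕ) * y i ^ (2 ^ (s - j)) = 0 := by
        exact pow_eq_zero_iff (by positivity) |>.mp hpow
      have hle : n ≤ 2 ^ (s - j) := hn.trans (Nat.pow_le_pow_right (by norm_num) (by omega))
      have hsq : IsSquare ε := by
        by_contra hsq
        obtain ⟨i0, hi0⟩ := hy
        apply hi0
        have h2 : ∑ i : Fin n, ε ^ (i : ℕ) * y i ^ (2 ^ (s - j)) =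
            ∑ i ∈ Finset.range n,
              (fun i => ε ^ i * (if h : i < n then y ⟨i, h⟩ else 0) ^ (2 ^ (s - j))) i := by
          rw [← Fin.sum_univ_eq_sum_range]
          apply Finset.sum_congr rfl
          intro i _
          simp [i.2]
        have h3 : ∑ i ∈ Finset.range n,
            (fun i => ε ^ i * (if h : i < n then y ⟨i, h⟩ else 0) ^ (2 ^ (s - j))) i =
            ∑ i ∈ Finset.range (2 ^ (s - j)),
              (fun i => ε ^ i * (if h : i < n then y ⟨i, h⟩ else 0) ^ (2 ^ (s - j))) i := by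
          apply Finset.sum_subset
          · intro i hi
            simp only [Finset.mem_range] at hi ⊢
            omega
          · intro i _ hi
            simp only [Finset.mem_range] at hi
            simp only [dif_neg hi]
            rw [zero_pow (by positivity)]
            ring
        have h4 := h3.symm.trans (h2.symm.trans h0)
        have h1 := J1_ns ε hsq (s - j) (fun i => if h : i < n then y ⟨i, h⟩ else 0) h4
          i0 (by have := i0.2; omega)
        simpa [i0.2] using h1
      obtain ⟨η, hη⟩ := hsq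
      refine ⟨η, ?_⟩
      rw [pow_succ, mul_comm, pow_mul, pow_two, ← hη, hε]
  exact key (s - e) le_rfl


end S_field_lemma

alias field_lemma := S_field_lemma.field_lemma

end SF
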