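import Pool.Agent.Helper297.SF.Lib
set_option autoImplicit false
open MvPolynomial

namespace SF
namespace S_frob_XD

theorem j22529_sum {n m : ℕ} {R : Type} [CommRing R] (g : Finset (Fin n) → R)
    (hg : ∀ J, J.card ≠ m → g J = 0) :
    ∑ J, g J = ∑ J : {I : Finset (Fin n) // I.card = m}, g J.1 := by
  classical
  rw [← Finset.sum_filter_add_sum_filter_not Finset.univ (fun J => J.card = m) g]
  rw [Finset.sum_eq_zero (s := Finset.univ.filter (fun J : Finset (Fin n) => ¬ J.card = m))
    (fun J hJ => hg J (Finset.mem_filter.1 hJ).2), add_zero]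
  exact Finset.sum_subtype _ (by simp) _

/-- coordinates of the degree `m` part -/
noncomputable def j22529_e (R : Type) [CommRing R] (n m : ℕ) :
    ↥(XD R n m) ≃ₗ[R] ({I : Finset (Fin n) // I.card = m} → R) where
  toFun u I := u.1 I.1
  map_add' _ _ := rfl
  map_smul' _ _ := rfl
  invFun v := ⟨fun I => if h : I.card = m then v ⟨I, h⟩ else 0, fun I hI => dif_neg hI⟩
  left_inv u := by
    apply Subtype.ext
    funext I
    by_cases h : I.card = m
    · simp [h]
    · simp only [h, dite_false]
      exact (u.2 I h).symm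
  right_inv v := by
    funext I
    simp [I.2]

theorem j22529_key {R : Type} [CommRing R] (n m : ℕ) (M : Matrix (Fin n) (Fin n) R)
    (u : XD R n m) (I : {I : Finset (Fin n) // I.card = m}) :
    Phi M u.1 I.1 = Matrix.vecMulLinear ((cm M).submatrix
      (Subtype.val : {I : Finset (Fin n) // I.card = m} → Finset (Fin n))
      (Subtype.val : {I : Finset (Fin n) // I.card = m} → Finset (Fin n)))
      (j22529_e R n m u) I := by
  have h1 : Phi M u.1 I.1 = ∑ J, u.1 J * cm M J I.1 := rfl
  have h2 : Matrix.vecMulLinear ((cm M).submatrix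
      (Subtype.val : {I : Finset (Fin n) // I.card = m} → Finset (Fin n))
      (Subtype.val : {I : Finset (Fin n) // I.card = m} → Finset (Fin n)))
      (j22529_e R n m u) I =
      ∑ J : {I : Finset (Fin n) // I.card = m}, u.1 J.1 * cm M J.1 I.1 := rfl
  rw [h1, h2]
  exact j22529_sum (fun J => u.1 J * cm M J I.1) (fun J hJ => by rw [u.2 J hJ, zero_mul])

theorem j22529_mem {R : Type} [CommRing R] (n m : ℕ) (M : Matrix (Fin n) (Fin n) R)
    (u : XD R n m) : Phi M u.1 ∈ XD R n m := by
  intro I hI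
  show ∑ J, u.1 J * cm M J I = 0
  refine Finset.sum_eq_zero fun J _ => ?_
  by_cases hJ : J.card = m
  · rw [cm_card n M J I (by rw [hJ]; exact fun h => hI h.symm), mul_zero]
  · rw [u.2 J hJ, zero_mul]

theorem j22529_map {R : Type} [CommRing R] (n m : ℕ) (M : Matrix (Fin n) (Fin n) R) :
    (((XD R n m).map (Phi M)).submoduleOf (XD R n m)).map
      ((j22529_e R n m : ↥(XD R n m) ≃ₗ[R] _) : ↥(XD R n m) →ₗ[R] _) =
    LinearMap.range (Matrix.vecMulLinear ((cm M).submatrix
      (Subtype.val : {I : Finset (Fin n) // I.card = m} → Finset (Fin n))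
      (Subtype.val : {I : Finset (Fin n) // I.card = m} → Finset (Fin n)))) := by
  ext y
  constructor
  · rintro ⟨x, hx, rfl⟩
    obtain ⟨u, hu, hux⟩ := hx
    refine ⟨j22529_e R n m ⟨u, hu⟩, ?_⟩
    funext I
    rw [← j22529_key n m M ⟨u, hu⟩ I]
    exact congrFun hux I.1
  · rintro ⟨v, rfl⟩
    obtain ⟨u, rfl⟩ := (j22529_e R n m).surjective v
    refine ⟨⟨Phi M u.1, j22529_mem n m M u⟩, ⟨u.1, u.2, rfl⟩, ?_⟩
    funext I
    exact j22529_key n m M u I

theorem j22529_inv {R : Type} [CommRing R] [CharP R 2] (n m : ℕ) (F : R)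
    (M M' : Matrix (Fin n) (Fin n) R) (b : ℕ)
    (hM : M' * M = F ^ b • (1 : Matrix (Fin n) (Fin n) R)) :
    ((cm M').submatrix
      (Subtype.val : {I : Finset (Fin n) // I.card = m} → Finset (Fin n))
      (Subtype.val : {I : Finset (Fin n) // I.card = m} → Finset (Fin n))) *
    ((cm M).submatrix
      (Subtype.val : {I : Finset (Fin n) // I.card = m} → Finset (Fin n))
      (Subtype.val : {I : Finset (Fin n) // I.card = m} → Finset (Fin n))) =
    F ^ (b * m) • (1 : Matrix {I : Finset (Fin n) // I.card = m}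
      {I : Finset (Fin n) // I.card = m} R) := by
  ext I J
  rw [Matrix.mul_apply]
  have h1 : ∑ L : {I : Finset (Fin n) // I.card = m}, cm M' I.1 L.1 * cm M L.1 J.1 =
      ∑ L, cm M' I.1 L * cm M L J.1 :=
    (j22529_sum (fun L => cm M' I.1 L * cm M L J.1) (fun L hL => by
      rw [cm_card n M' I.1 L (by rw [I.2]; exact fun h => hL h.symm), zero_mul])).symm
  have h2 : ∑ L, cm M' I.1 L * cm M L J.1 = (cm M' * cm M) I.1 J.1 :=
    (Matrix.mul_apply).symm
  simp only [Matrix.submatrix_apply]
  rw [h1, h2, ← cm_mul, hM, cm_smul_one, Matrix.smul_apply, smul_eq_mul, Matrix.one_apply]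
  by_cases hIJ : I = J
  · rw [if_pos hIJ, hIJ, Matrix.diagonal_apply_eq, J.2, mul_one, ← pow_mul]
  · rw [if_neg hIJ, mul_zero, Matrix.diagonal_apply_ne _ (fun h => hIJ (Subtype.ext h))]

theorem j22529_ix {R : Type} [CommRing R] [CharP R 2] {A : Type} [AddCommGroup A] (n m : ℕ) (F : R)
    (Θ : Inv R F A) (M M' : Matrix (Fin n) (Fin n) R) (b : ℕ)
    (hM : M' * M = F ^ b • (1 : Matrix (Fin n) (Fin n) R)) :
    ix Θ (Phi M) (XD R n m) (XD R n m) =
      Θ.th (({I : Finset (Fin n) // I.card = m} → R) ⧸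
        LinearMap.range (Matrix.vecMulLinear ((cm M).submatrix
      (Subtype.val : {I : Finset (Fin n) // I.card = m} → Finset (Fin n))
      (Subtype.val : {I : Finset (Fin n) // I.card = m} → Finset (Fin n))))) := by
  unfold ix
  symm
  refine Θ.congr _ _ inferInstance ⟨b * m, ?_⟩
    (Submodule.Quotient.equiv _ _ (j22529_e R n m) (j22529_map n m M)).symm
  intro v
  induction v using Submodule.Quotient.induction_on with
  | _ v =>
    rw [← Submodule.Quotient.mk_smul, Submodule.Quotient.mk_eq_zero]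
    refine ⟨Matrix.vecMul v ((cm M').submatrix
      (Subtype.val : {I : Finset (Fin n) // I.card = m} → Finset (Fin n))
      (Subtype.val : {I : Finset (Fin n) // I.card = m} → Finset (Fin n))), ?_⟩
    rw [Matrix.vecMulLinear_apply, Matrix.vecMul_vecMul, j22529_inv n m F M M' b hM,
      Matrix.vecMul_smul, Matrix.vecMul_one]

/-- J65: Frobenius and the index of exterior powers. -/
theorem frob_XD {K : Type} [Field K] [CharP K 2] (n q : ℕ)
    (F : MvPolynomial (Fin n) K) (hF : F ≠ 0)
    (Θ : Inv (MvPolynomial (Fin n) K) F (ZMod q))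
    (Hf : ∀ (ι : Type) [Fintype ι] [DecidableEq ι] (B B' : Matrix ι ι (MvPolynomial (Fin n) K))
      (b : ℕ), B' * B = F ^ b • (1 : Matrix ι ι (MvPolynomial (Fin n) K)) →
      Θ.th ((ι → MvPolynomial (Fin n) K) ⧸
        LinearMap.range (Matrix.vecMulLinear (B.map (fun p => p ^ 2))))
      = 2 ^ n * Θ.th ((ι → MvPolynomial (Fin n) K) ⧸ LinearMap.range (Matrix.vecMulLinear B)))
    (M M' : Matrix (Fin n) (Fin n) (MvPolynomial (Fin n) K)) (b : ℕ)
    (hM : M' * M = F ^ b • (1 : Matrix (Fin n) (Fin n) (MvPolynomial (Fin n) K))) (m : ℕ) :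
    ix Θ (Phi (M.map (fun p => p ^ 2))) (XD _ n m) (XD _ n m)
      = 2 ^ n * ix Θ (Phi M) (XD _ n m) (XD _ n m) := by
  classical
  have hch : CharP (MvPolynomial (Fin n) K) 2 := inferInstance
  have hfr : (fun p : MvPolynomial (Fin n) K => p ^ 2) =
      ⇑(frobenius (MvPolynomial (Fin n) K) 2) := by
    funext p
    rw [frobenius_def]
  have hM2 : (M'.map (fun p => p ^ 2)) * (M.map (fun p => p ^ 2)) =
      F ^ (b * 2) • (1 : Matrix (Fin n) (Fin n) (MvPolynomial (Fin n) K)) := by
    rw [hfr, ← Matrix.map_mul, hM]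
    ext i j
    rw [Matrix.map_apply, Matrix.smul_apply, Matrix.smul_apply, smul_eq_mul, smul_eq_mul,
      map_mul, frobenius_def, ← pow_mul, Matrix.one_apply]
    split_ifs
    · rw [map_one]
    · rw [map_zero]
  rw [j22529_ix n m F Θ _ _ (b * 2) hM2, j22529_ix n m F Θ M M' b hM]
  have h1 := Hf {I : Finset (Fin n) // I.card = m}
    ((cm M).submatrix
      (Subtype.val : {I : Finset (Fin n) // I.card = m} → Finset (Fin n))
      (Subtype.val : {I : Finset (Fin n) // I.card = m} → Finset (Fin n)))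
    ((cm M').submatrix
      (Subtype.val : {I : Finset (Fin n) // I.card = m} → Finset (Fin n))
      (Subtype.val : {I : Finset (Fin n) // I.card = m} → Finset (Fin n)))
    (b * m) (j22529_inv n m F M M' b hM)
  have h2 : ((cm (M.map (fun p => p ^ 2))).submatrix
      (Subtype.val : {I : Finset (Fin n) // I.card = m} → Finset (Fin n))
      (Subtype.val : {I : Finset (Fin n) // I.card = m} → Finset (Fin n))) =
      ((cm M).submatrix
      (Subtype.val : {I : Finset (Fin n) // I.card = m} → Finset (Fin n))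
      (Subtype.val : {I : Finset (Fin n) // I.card = m} → Finset (Fin n))).map
        (fun p => p ^ 2) := by
    rw [hfr, cm_map]
    rfl
  rw [h2]
  exact h1


end S_frob_XD

alias frob_XD := S_frob_XD.frob_XD

end SF
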