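import Pool.Agent.Helper297.SF.Defs
set_option autoImplicit false
open MvPolynomial

namespace SF
namespace S_frob_dim
section FD

variable {K : Type} [Field K] {n : ℕ} {ι : Type}

/-- indicator exponent -/
noncomputable def fdE (E : Finset (Fin n)) : Fin n →₀ ℕ :=
  Finsupp.equivFunOnFinite.symm (fun i => if i ∈ E then 1 else 0)

theorem fdE_apply (E : Finset (Fin n)) (i : Fin n) : fdE E i = if i ∈ E then 1 else 0 := rfl

/-- half of an exponent -/
noncomputable def fdh (γ : Fin n →₀ ℕ) : Fin n →₀ ℕ :=
  Finsupp.equivFunOnFinite.symm (fun i => γ i / 2)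

theorem fdh_apply (γ : Fin n →₀ ℕ) (i : Fin n) : fdh γ i = γ i / 2 := rfl

/-- odd coordinates -/
def fdp (γ : Fin n →₀ ℕ) : Finset (Fin n) := Finset.univ.filter (fun i => γ i % 2 = 1)

theorem fd_decomp (γ : Fin n →₀ ℕ) : γ = 2 • fdh γ + fdE (fdp γ) := by
  ext i
  simp only [Finsupp.add_apply, Finsupp.smul_apply, fdh_apply, fdE_apply, fdp, Finset.mem_filter,
    Finset.mem_univ, true_and, smul_eq_mul]
  split_ifs <;> omega

theorem fd_deg (β : Fin n →₀ ℕ) (E : Finset (Fin n)) :
    (2 • β + fdE E).degree = 2 * β.degree + E.card := by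
  rw [Finsupp.degree_eq_sum, Finsupp.degree_eq_sum]
  simp only [Finsupp.add_apply, Finsupp.smul_apply, smul_eq_mul, Finset.sum_add_distrib,
    ← Finset.mul_sum, fdE_apply]
  simp

theorem fd_tdeg (p : MvPolynomial (Fin n) K) (e : ℕ) :
    p.totalDegree ≤ e ↔ ∀ α : Fin n →₀ ℕ, e < α.degree → coeff α p = 0 := by
  constructor
  · intro h α hα
    by_contra hc
    have h1 := le_totalDegree (mem_support_iff.2 hc)
    have h2 : (α.sum fun _ e => e) = α.degree := rfl
    rw [h2] at h1
    omega
  · intro h
    rw [totalDegree]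
    apply Finset.sup_le
    intro α hα
    by_contra hc
    push Not at hc
    exact (mem_support_iff.1 hα) (h α hc)

/-- only even exponents -/
def Ev (f : MvPolynomial (Fin n) K) : Prop :=
  ∀ γ : Fin n →₀ ℕ, (∃ j, γ j % 2 = 1) → coeff γ f = 0

theorem Ev_sq [CharP K 2] (p : MvPolynomial (Fin n) K) : Ev (p ^ 2) := by
  rintro γ ⟨j, hj⟩
  have : Fact (Nat.Prime 2) := ⟨Nat.prime_two⟩
  rw [← map_frobenius_expand 2, coeff_map]
  have : coeff γ (expand 2 p) = 0 := by
    by_contra hc
    have h1 := mem_support_iff.2 hc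
    rw [support_expand _ two_ne_zero] at h1
    obtain ⟨β, _, hβ⟩ := Finset.mem_image.1 h1
    have h2 := DFunLike.congr_fun hβ j
    simp only [Finsupp.smul_apply, smul_eq_mul] at h2
    omega
  rw [this, map_zero]

theorem coeff_sq [CharP K 2] (p : MvPolynomial (Fin n) K) (β : Fin n →₀ ℕ) :
    coeff (2 • β) (p ^ 2) = (coeff β p) ^ 2 := by
  have : Fact (Nat.Prime 2) := ⟨Nat.prime_two⟩
  rw [← map_frobenius_expand 2, coeff_map, coeff_expand_smul _ two_ne_zero]
  rfl

/-- coefficients of `x^E f` -/
theorem coeff_xE (E E₀ : Finset (Fin n)) (β : Fin n →₀ ℕ) (f : MvPolynomial (Fin n) K)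
    (hf : Ev f) : coeff (2 • β + fdE E₀) (monomial (fdE E) 1 * f) =
      if E = E₀ then coeff (2 • β) f else 0 := by
  rw [coeff_monomial_mul', one_mul]
  split_ifs with h1 h2 h2
  · subst h2
    rw [add_tsub_cancel_right]
  · apply hf
    have : ∃ j, ¬ (j ∈ E ↔ j ∈ E₀) := by
      by_contra hc
      push Not at hc
      exact h2 (Finset.ext hc)
    obtain ⟨j, hj⟩ := this
    refine ⟨j, ?_⟩
    have h3 := h1 j
    simp only [Finsupp.add_apply, Finsupp.smul_apply, smul_eq_mul, Finsupp.tsub_apply,
      fdE_apply] at h3 ⊢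
    by_cases hE : j ∈ E <;> by_cases hE₀ : j ∈ E₀ <;> simp only [hE, hE₀, if_true, if_false] at h3 ⊢
    · exact absurd (by simp [hE, hE₀]) hj
    · omega
    · omega
    · exact absurd (by simp [hE, hE₀]) hj
  · subst h2
    exact absurd le_add_self h1
  · rfl

/-- entrywise squares -/
noncomputable def fdsq (v : ι → MvPolynomial (Fin n) K) : ι → MvPolynomial (Fin n) K := fun i => v i ^ 2

theorem fdsq_add [CharP K 2] (v w : ι → MvPolynomial (Fin n) K) :
    fdsq (v + w) = fdsq v + fdsq w := by
  funext i
  exact CharTwo.add_sq _ _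

theorem fdsq_zero : fdsq (0 : ι → MvPolynomial (Fin n) K) = 0 := by
  funext i
  simp [fdsq]

theorem fdsq_smul (c : K) (v : ι → MvPolynomial (Fin n) K) :
    fdsq (c • v) = c ^ 2 • fdsq v := by
  funext i
  simp [fdsq, smul_pow]

/-- entrywise squares as a homomorphism -/
noncomputable def fdH [CharP K 2] : (ι → MvPolynomial (Fin n) K) →+ (ι → MvPolynomial (Fin n) K) where
  toFun := fdsq
  map_zero' := fdsq_zero
  map_add' := fdsq_add

/-- span of squares -/
noncomputable def Sq (W : Submodule K (ι → MvPolynomial (Fin n) K)) : Submodule K (ι → MvPolynomial (Fin n) K) :=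
  Submodule.span K (fdsq '' (W : Set (ι → MvPolynomial (Fin n) K)))

theorem Sq_mono {W W' : Submodule K (ι → MvPolynomial (Fin n) K)} (h : W ≤ W') : Sq W ≤ Sq W' :=
  Submodule.span_mono (Set.image_mono h)

theorem Sq_ev [CharP K 2] {W : Submodule K (ι → MvPolynomial (Fin n) K)}
    {s : ι → MvPolynomial (Fin n) K} (hs : s ∈ Sq W) (i : ι) : Ev (s i) := by
  intro γ hγ
  induction hs using Submodule.span_induction with
  | mem x hx =>
    obtain ⟨v, _, rfl⟩ := hx
    exact Ev_sq (v i) γ hγ
  | zero => simp
  | add x y _ _ h1 h2 => simp [h1, h2]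
  | smul c x _ h1 => simp [h1]

theorem fdsq_lc [CharP K 2] {J : Type} (w : J → ι → MvPolynomial (Fin n) K) (c : J →₀ K) :
    fdsq (Finsupp.linearCombination K w c) ∈ Submodule.span K (Set.range (fun j => fdsq (w j))) := by
  rw [Finsupp.linearCombination_apply, Finsupp.sum]
  have h1 : fdsq (∑ j ∈ c.support, c j • w j) = ∑ j ∈ c.support, fdsq (c j • w j) :=
    map_sum (fdH (K := K) (n := n) (ι := ι)) _ _
  rw [h1]
  apply Submodule.sum_mem
  intro j _
  rw [fdsq_smul]
  exact Submodule.smul_mem _ _ (Submodule.subset_span ⟨j, rfl⟩)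

/-- the dimension of the span of squares -/
theorem Sq_dim [CharP K 2] (SQ : ∀ (A J : Type) (v : J → A → K),
      LinearIndependent K v → LinearIndependent K (fun j a => v j a ^ 2))
    (W : Submodule K (ι → MvPolynomial (Fin n) K)) :
    Module.finrank K (Sq W) = Module.finrank K W := by
  set b := Module.Basis.ofVectorSpace K W with hb
  have hspan : Sq W = Submodule.span K (Set.range (fun j => fdsq (b j : ι → MvPolynomial (Fin n) K))) := by
    apply le_antisymm
    · apply Submodule.span_le.2
      rintro _ ⟨v, hv, rfl⟩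
      have h1 : v = Finsupp.linearCombination K (fun j => (b j : ι → MvPolynomial (Fin n) K))
          (b.repr ⟨v, hv⟩) := by
        have h2 := b.linearCombination_repr ⟨v, hv⟩
        have h3 := congrArg W.subtype h2
        rw [Finsupp.linearCombination_apply, Finsupp.sum, map_sum] at h3
        rw [Finsupp.linearCombination_apply, Finsupp.sum]
        simpa using h3.symm
      rw [h1]
      exact fdsq_lc _ _
    · apply Submodule.span_le.2
      rintro _ ⟨j, rfl⟩
      exact Submodule.subset_span ⟨_, (b j).2, rfl⟩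
  have hli : LinearIndependent K (fun j => fdsq (b j : ι → MvPolynomial (Fin n) K)) := by
    have hW : LinearIndependent K (fun j => (b j : ι → MvPolynomial (Fin n) K)) :=
      b.linearIndependent.map' W.subtype (Submodule.ker_subtype W)
    let C : (ι → MvPolynomial (Fin n) K) →ₗ[K] (ι × (Fin n →₀ ℕ) → K) :=
      LinearMap.pi fun a => (MvPolynomial.lcoeff K a.2).comp (LinearMap.proj a.1)
    let T : (ι → MvPolynomial (Fin n) K) →ₗ[K] (ι × (Fin n →₀ ℕ) → K) :=
      LinearMap.pi fun a => (MvPolynomial.lcoeff K (2 • a.2)).comp (LinearMap.proj a.1)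
    have hC : LinearMap.ker C = ⊥ := by
      rw [LinearMap.ker_eq_bot']
      intro v hv
      funext i
      ext β
      exact congrFun hv (i, β)
    have h1 := SQ _ _ _ (hW.map' C hC)
    apply LinearIndependent.of_comp T
    convert h1 using 1
    funext j a
    exact coeff_sq _ _
  rw [hspan, Module.finrank_eq_nat_card_basis (Module.Basis.span hli), Module.finrank_eq_nat_card_basis b]

/-- cutting by degree -/
theorem Sq_cut [CharP K 2] (SQ : ∀ (A J : Type) (v : J → A → K),
      LinearIndependent K v → LinearIndependent K (fun j a => v j a ^ 2))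
    (U : Submodule K (ι → MvPolynomial (Fin n) K)) (e : ℕ) (s : ι → MvPolynomial (Fin n) K)
    (hs : s ∈ Sq U) (h : ∀ i (β : Fin n →₀ ℕ), e < β.degree → coeff (2 • β) (s i) = 0) :
    s ∈ Sq (U ⊓ degLE K n ι e) := by
  let q : (ι → MvPolynomial (Fin n) K) →ₗ[K] (ι × {β : Fin n →₀ ℕ // e < β.degree} → K) :=
    LinearMap.pi fun a => (MvPolynomial.lcoeff K (a.2 : Fin n →₀ ℕ)).comp (LinearMap.proj a.1)
  have hq0 : ∀ v, q v = 0 → v ∈ degLE K n ι e := by
    intro v hv i
    rw [fd_tdeg]
    intro α hα
    exact congrFun hv (i, ⟨α, hα⟩)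
  set b := Module.Basis.ofVectorSpace K (U.map q) with hb
  have hw : ∀ j, ∃ u ∈ U, q u = b j := fun j => (b j).2
  choose w hwU hwq using hw
  have key : Sq U ≤ Submodule.span K (Set.range (fun j => fdsq (w j))) ⊔ Sq (U ⊓ degLE K n ι e) := by
    apply Submodule.span_le.2
    rintro _ ⟨v, hv, rfl⟩
    set c := b.repr ⟨q v, Submodule.mem_map_of_mem hv⟩ with hc
    set v' := Finsupp.linearCombination K w c with hv'
    have hv'U : v' ∈ U := by
      rw [hv', Finsupp.linearCombination_apply]
      exact Submodule.sum_mem _ fun j _ => U.smul_mem _ (hwU j)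
    have hqv' : q v' = q v := by
      have h2 := b.linearCombination_repr ⟨q v, Submodule.mem_map_of_mem hv⟩
      have h3 := congrArg (U.map q).subtype h2
      rw [Finsupp.linearCombination_apply, Finsupp.sum, map_sum] at h3
      rw [hv', Finsupp.linearCombination_apply, Finsupp.sum, map_sum]
      simp only [map_smul, hwq]
      simpa using h3
    have hp : v - v' ∈ U ⊓ degLE K n ι e :=
      ⟨U.sub_mem hv hv'U, hq0 _ (by rw [map_sub, hqv', sub_self])⟩
    have e1 : fdsq v = fdsq v' + fdsq (v - v') := by
      rw [← fdsq_add]; congr 1; abel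
    rw [e1]
    exact Submodule.add_mem_sup (fdsq_lc w c) (Submodule.subset_span ⟨_, hp, rfl⟩)
  obtain ⟨s₁, hs₁, t, ht, hst⟩ := Submodule.mem_sup.1 (key hs)
  obtain ⟨l, hl⟩ := (Finsupp.mem_span_range_iff_exists_finsupp).1 hs₁
  have htc : ∀ i (β : Fin n →₀ ℕ), e < β.degree → coeff (2 • β) (t i) = 0 := by
    intro i β hβ
    clear hst
    induction ht using Submodule.span_induction with
    | mem x hx =>
      obtain ⟨v, hv, rfl⟩ := hx
      show coeff (2 • β) (v i ^ 2) = 0
      rw [coeff_sq, (fd_tdeg _ _).1 (hv.2 i) β hβ]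
      simp
    | zero => simp
    | add x y _ _ h1 h2 => simp [h1, h2]
    | smul c x _ h1 => simp [h1]
  have hli : LinearIndependent K (fun j => (b j : ι × {β : Fin n →₀ ℕ // e < β.degree} → K)) :=
    b.linearIndependent.map' (U.map q).subtype (Submodule.ker_subtype _)
  have h1 := SQ _ _ _ hli
  have hl0 : l = 0 := by
    rw [linearIndependent_iff] at h1
    apply h1
    rw [Finsupp.linearCombination_apply]
    funext a
    obtain ⟨i, β, hβ⟩ := a
    have h2 := h i β hβ
    rw [← hst, Pi.add_apply, coeff_add, htc i β hβ, add_zero, ← hl, Finsupp.sum,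
      Finset.sum_apply, coeff_sum] at h2
    rw [Finsupp.sum, Finset.sum_apply, Pi.zero_apply, ← h2]
    apply Finset.sum_congr rfl
    intro j _
    rw [Pi.smul_apply, Pi.smul_apply, coeff_smul, ← hwq j]
    congr 1
    exact (coeff_sq _ _).symm
  rw [hl0] at hl
  have : s₁ = 0 := by rw [← hl]; simp
  rw [← hst, this, zero_add]
  exact ht


/-- multiplication by `x^E` -/
noncomputable def fdL (E : Finset (Fin n)) :
    (ι → MvPolynomial (Fin n) K) →ₗ[K] (ι → MvPolynomial (Fin n) K) where
  toFun v := fun i => monomial (fdE E) 1 * v i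
  map_add' v w := by
    funext i
    simp [mul_add]
  map_smul' c v := by
    funext i
    simp

theorem fdL_apply (E : Finset (Fin n)) (v : ι → MvPolynomial (Fin n) K) (i : ι) :
    fdL E v i = monomial (fdE E) 1 * v i := rfl

/-- the sum map -/
noncomputable def Psi (Q : Finset (Fin n) → Submodule K (ι → MvPolynomial (Fin n) K)) :
    ((E : Finset (Fin n)) → Q E) →ₗ[K] (ι → MvPolynomial (Fin n) K) :=
  ∑ E, (fdL E).comp ((Q E).subtype.comp (LinearMap.proj E))

theorem Psi_apply (Q : Finset (Fin n) → Submodule K (ι → MvPolynomial (Fin n) K))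
    (s : (E : Finset (Fin n)) → Q E) : Psi Q s = ∑ E, fdL E (s E : ι → MvPolynomial (Fin n) K) := by
  simp [Psi, LinearMap.sum_apply]

theorem Psi_coeff (Q : Finset (Fin n) → Submodule K (ι → MvPolynomial (Fin n) K))
    (hQ : ∀ E, ∀ s ∈ Q E, ∀ i, Ev (s i)) (s : (E : Finset (Fin n)) → Q E) (E₀ : Finset (Fin n))
    (β : Fin n →₀ ℕ) (i : ι) :
    coeff (2 • β + fdE E₀) (Psi Q s i) = coeff (2 • β) ((s E₀ : ι → MvPolynomial (Fin n) K) i) := by
  rw [Psi_apply, Finset.sum_apply, coeff_sum]
  simp only [fdL_apply]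
  rw [Finset.sum_eq_single E₀]
  · rw [coeff_xE _ _ _ _ (hQ _ _ (s E₀).2 i), if_pos rfl]
  · intro E _ hE
    rw [coeff_xE _ _ _ _ (hQ _ _ (s E).2 i), if_neg hE]
  · intro h
    exact absurd (Finset.mem_univ _) h

theorem Ev_ext {f : MvPolynomial (Fin n) K} (hf : Ev f)
    (h : ∀ β : Fin n →₀ ℕ, coeff (2 • β) f = 0) : f = 0 := by
  ext γ
  rw [coeff_zero]
  by_cases hγ : ∃ j, γ j % 2 = 1
  · exact hf γ hγ
  · push Not at hγ
    have : γ = 2 • fdh γ := by
      ext i
      have := hγ i
      simp only [Finsupp.smul_apply, fdh_apply, smul_eq_mul]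
      omega
    rw [this]
    exact h _

theorem Psi_inj (Q : Finset (Fin n) → Submodule K (ι → MvPolynomial (Fin n) K))
    (hQ : ∀ E, ∀ s ∈ Q E, ∀ i, Ev (s i)) : Function.Injective (Psi Q) := by
  rw [← LinearMap.ker_eq_bot, LinearMap.ker_eq_bot']
  intro s hs
  funext E
  apply Subtype.ext
  funext i
  apply Ev_ext (hQ _ _ (s E).2 i)
  intro β
  rw [← Psi_coeff Q hQ s E β i, hs]
  simp

theorem Sq_mul [CharP K 2] (U : Submodule (MvPolynomial (Fin n) K) (ι → MvPolynomial (Fin n) K))
    (δ : Fin n →₀ ℕ) (c : K) (s : ι → MvPolynomial (Fin n) K) (hs : s ∈ Sq (U.restrictScalars K)) :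
    (fun i => monomial (2 • δ) c * s i) ∈ Sq (U.restrictScalars K) := by
  induction hs using Submodule.span_induction with
  | mem x hx =>
    obtain ⟨v, hv, rfl⟩ := hx
    have h1 : (monomial δ (1 : K)) • v ∈ U := U.smul_mem _ hv
    have h2 : (fun i => monomial (2 • δ) c * fdsq v i) = c • fdsq ((monomial δ (1 : K)) • v) := by
      funext i
      simp only [fdsq, Pi.smul_apply, smul_eq_mul, mul_pow, monomial_pow, one_pow]
      rw [← smul_mul_assoc, smul_monomial, smul_eq_mul, mul_one]
    rw [h2]
    exact Submodule.smul_mem _ _ (Submodule.subset_span ⟨_, h1, rfl⟩)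
  | zero =>
    have : (fun i => monomial (2 • δ) c * (0 : ι → MvPolynomial (Fin n) K) i) = 0 := by
      funext i; simp
    rw [this]
    exact Submodule.zero_mem _
  | add x y _ _ h1 h2 =>
    have : (fun i => monomial (2 • δ) c * (x + y) i) = (fun i => monomial (2 • δ) c * x i) +
        (fun i => monomial (2 • δ) c * y i) := by
      funext i; simp [mul_add]
    rw [this]
    exact Submodule.add_mem _ h1 h2
  | smul a x _ h1 =>
    have : (fun i => monomial (2 • δ) c * (a • x) i) = a • (fun i => monomial (2 • δ) c * x i) := by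
      funext i; simp
    rw [this]
    exact Submodule.smul_mem _ _ h1

theorem Psi_single (Q : Finset (Fin n) → Submodule K (ι → MvPolynomial (Fin n) K))
    (E : Finset (Fin n)) (s : ι → MvPolynomial (Fin n) K) (hs : s ∈ Q E) :
    fdL E s ∈ LinearMap.range (Psi Q) := by
  refine ⟨Pi.single E ⟨s, hs⟩, ?_⟩
  rw [Psi_apply, Finset.sum_eq_single E]
  · rw [Pi.single_eq_same]
  · intro E' _ hE'
    rw [Pi.single_eq_of_ne hE']
    simp
  · intro h
    exact absurd (Finset.mem_univ _) h

theorem span_le_range [CharP K 2]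
    (U : Submodule (MvPolynomial (Fin n) K) (ι → MvPolynomial (Fin n) K))
    (w : ι → MvPolynomial (Fin n) K)
    (hw : w ∈ Submodule.span (MvPolynomial (Fin n) K)
      (fdsq '' (U : Set (ι → MvPolynomial (Fin n) K)))) :
    w ∈ LinearMap.range (Psi (fun _ : Finset (Fin n) => Sq (U.restrictScalars K))) := by
  induction hw using Submodule.span_induction with
  | mem x hx =>
    obtain ⟨v, hv, rfl⟩ := hx
    have h1 := Psi_single (fun _ : Finset (Fin n) => Sq (U.restrictScalars K)) ∅ (fdsq v)
      (Submodule.subset_span ⟨v, hv, rfl⟩)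
    have h2 : fdL ∅ (fdsq v) = fdsq v := by
      funext i
      rw [fdL_apply]
      have : fdE (∅ : Finset (Fin n)) = 0 := by
        ext i; simp [fdE_apply]
      rw [this]
      simp
    rwa [h2] at h1
  | zero => exact Submodule.zero_mem _
  | add x y _ _ h1 h2 => exact Submodule.add_mem _ h1 h2
  | smul r x _ h1 =>
    induction r using MvPolynomial.induction_on' with
    | monomial γ c =>
      obtain ⟨s, rfl⟩ := h1
      rw [Psi_apply, Finset.smul_sum]
      apply Submodule.sum_mem
      intro E _
      have e : monomial γ c • fdL E (s E : ι → MvPolynomial (Fin n) K) =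
          fdL (fdp (γ + fdE E)) (fun i => monomial (2 • fdh (γ + fdE E)) c *
            (s E : ι → MvPolynomial (Fin n) K) i) := by
        funext i
        rw [Pi.smul_apply, fdL_apply, fdL_apply, smul_eq_mul, ← mul_assoc, ← mul_assoc,
          monomial_mul, monomial_mul, mul_one, one_mul, add_comm (fdE (fdp (γ + fdE E))),
          ← fd_decomp]
      rw [e]
      exact Psi_single _ _ _ (Sq_mul U _ _ _ (s E).2)
    | add p q hp hq =>
      rw [add_smul]
      exact Submodule.add_mem _ hp hq

theorem degLE_finite [Fintype ι] (e : ℕ) : Module.Finite K (degLE K n ι e) := by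
  let f : degLE K n ι e →ₗ[K] (ι → restrictTotalDegree (Fin n) K e) :=
    { toFun := fun v i => ⟨v.1 i, (mem_restrictTotalDegree _ _ _).2 (v.2 i)⟩
      map_add' := fun _ _ => rfl
      map_smul' := fun _ _ => rfl }
  apply Module.Finite.of_injective f
  intro v w h
  apply Subtype.ext
  funext i
  exact congrArg Subtype.val (congrFun h i)

theorem Sq_le_degLE {W : Submodule K (ι → MvPolynomial (Fin n) K)} {e : ℕ}
    (h : W ≤ degLE K n ι e) : Sq W ≤ degLE K n ι (2 * e) := by
  apply Submodule.span_le.2
  rintro _ ⟨v, hv, rfl⟩ i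
  exact (totalDegree_pow _ _).trans (Nat.mul_le_mul_left 2 (h hv i))

end FD

/-- J51: dimension count for the Frobenius pull back of a submodule. -/
theorem frob_dim
    (SQ : ∀ (K : Type) [Field K] [CharP K 2] (A J : Type) (v : J → A → K),
      LinearIndependent K v → LinearIndependent K (fun j a => v j a ^ 2))
    (K : Type) [Field K] [CharP K 2] (n : ℕ) (ι : Type) [Fintype ι]
    (U : Submodule (MvPolynomial (Fin n) K) (ι → MvPolynomial (Fin n) K)) (d : ℕ) :
    Module.finrank K
      ↥((Submodule.span (MvPolynomial (Fin n) K)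
          ((fun (v : ι → MvPolynomial (Fin n) K) (i : ι) => v i ^ 2) ''
            (U : Set (ι → MvPolynomial (Fin n) K)))).restrictScalars K ⊓ degLE K n ι d)
    = ∑ E : Finset (Fin n), if E.card ≤ d then
        Module.finrank K ↥(U.restrictScalars K ⊓ degLE K n ι ((d - E.card) / 2)) else 0 := by
  classical
  set Q : Finset (Fin n) → Submodule K (ι → MvPolynomial (Fin n) K) := fun E =>
    if E.card ≤ d then Sq (U.restrictScalars K ⊓ degLE K n ι ((d - E.card) / 2)) else ⊥ with hQ
  have hQle : ∀ E, Q E ≤ Sq (U.restrictScalars K) := by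
    intro E
    rw [hQ]
    simp only
    split_ifs
    · exact Sq_mono inf_le_left
    · exact bot_le
  have hQev : ∀ E, ∀ s ∈ Q E, ∀ i, Ev (s i) := fun E s hs i => Sq_ev (hQle E hs) i
  have hQfin : ∀ E, Module.Finite K (Q E) := by
    intro E
    have h1 : Q E ≤ degLE K n ι (2 * ((d - E.card) / 2)) := by
      rw [hQ]
      simp only
      split_ifs
      · exact Sq_le_degLE inf_le_right
      · exact bot_le
    have := degLE_finite (K := K) (n := n) (ι := ι) (2 * ((d - E.card) / 2))
    exact Module.Finite.of_injective (Submodule.inclusion h1) (Submodule.inclusion_injective h1)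
  have hrange : LinearMap.range (Psi Q) = (Submodule.span (MvPolynomial (Fin n) K)
          ((fun (v : ι → MvPolynomial (Fin n) K) (i : ι) => v i ^ 2) ''
            (U : Set (ι → MvPolynomial (Fin n) K)))).restrictScalars K ⊓ degLE K n ι d := by
    apply le_antisymm
    · rintro _ ⟨s, rfl⟩
      rw [Psi_apply]
      apply Submodule.sum_mem
      intro E _
      have hsE : ((s E : Q E) : ι → MvPolynomial (Fin n) K) ∈ Q E := (s E).2
      generalize ((s E : Q E) : ι → MvPolynomial (Fin n) K) = sE at hsE ⊢
      by_cases hE : E.card ≤ d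
      · have hQE : Q E = Sq (U.restrictScalars K ⊓ degLE K n ι ((d - E.card) / 2)) := by
          rw [hQ]; simp only; rw [if_pos hE]
        rw [hQE] at hsE
        refine ⟨?_, ?_⟩
        · have h1 : sE ∈ (Submodule.span (MvPolynomial (Fin n) K)
              (fdsq '' (U : Set (ι → MvPolynomial (Fin n) K)))).restrictScalars K := by
            have h2 : Sq (U.restrictScalars K) ≤ (Submodule.span (MvPolynomial (Fin n) K)
              (fdsq '' (U : Set (ι → MvPolynomial (Fin n) K)))).restrictScalars K := by
              apply Submodule.span_le.2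
              exact Submodule.subset_span
            exact h2 (Sq_mono inf_le_left hsE)
          have h3 : fdL E sE =
              (monomial (fdE E) (1 : K)) • sE := rfl
          rw [h3]
          exact Submodule.smul_mem (Submodule.span (MvPolynomial (Fin n) K)
              (fdsq '' (U : Set (ι → MvPolynomial (Fin n) K)))) _ h1
        · have h4 := Sq_le_degLE inf_le_right hsE
          intro i
          rw [fdL_apply]
          refine (totalDegree_mul _ _).trans ?_
          have h5 := h4 i
          have h6 : (monomial (fdE E) (1 : K)).totalDegree ≤ E.card := by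
            rw [fd_tdeg]
            intro α hα
            rw [coeff_monomial, if_neg]
            rintro rfl
            have := fd_deg (0 : Fin n →₀ ℕ) E
            simp at this
            omega
          omega
      · have hQE : Q E = ⊥ := by
          rw [hQ]; simp only; rw [if_neg hE]
        rw [hQE, Submodule.mem_bot] at hsE
        rw [hsE, map_zero]
        exact Submodule.zero_mem _
    · rintro w ⟨hw1, hw2⟩
      obtain ⟨s, hs⟩ := span_le_range U w hw1
      have hev : ∀ E : Finset (Fin n), ∀ s ∈ (fun _ : Finset (Fin n) => Sq (U.restrictScalars K)) E,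
          ∀ i, Ev (s i) := fun E s hs i => Sq_ev hs i
      have hmem : ∀ E, (s E : ι → MvPolynomial (Fin n) K) ∈ Q E := by
        intro E
        have hc : ∀ i (β : Fin n →₀ ℕ), d < 2 * β.degree + E.card →
            coeff (2 • β) ((s E : ι → MvPolynomial (Fin n) K) i) = 0 := by
          intro i β hβ
          rw [← Psi_coeff _ hev s E β i, hs]
          apply (fd_tdeg _ _).1 (hw2 i)
          rw [fd_deg]
          exact hβ
        by_cases hE : E.card ≤ d
        · have hQE : Q E = Sq (U.restrictScalars K ⊓ degLE K n ι ((d - E.card) / 2)) := by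
            rw [hQ]; simp only; rw [if_pos hE]
          rw [hQE]
          apply Sq_cut (fun A J v => SQ K A J v) _ _ _ (s E).2
          intro i β hβ
          apply hc
          omega
        · have hQE : Q E = ⊥ := by
            rw [hQ]; simp only; rw [if_neg hE]
          rw [hQE, Submodule.mem_bot]
          funext i
          apply Ev_ext (Sq_ev (s E).2 i)
          intro β
          apply hc
          omega
      refine ⟨fun E => ⟨s E, hmem E⟩, ?_⟩
      rw [Psi_apply, ← hs, Psi_apply]
  rw [← hrange, LinearMap.finrank_range_of_inj (Psi_inj Q hQev), Module.finrank_pi_fintype]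
  apply Finset.sum_congr rfl
  intro E _
  by_cases hE : E.card ≤ d
  · have hQE : Q E = Sq (U.restrictScalars K ⊓ degLE K n ι ((d - E.card) / 2)) := by
      rw [hQ]; simp only; rw [if_pos hE]
    rw [if_pos hE, hQE]
    exact Sq_dim (fun A J v => SQ K A J v) _
  · have hQE : Q E = ⊥ := by
      rw [hQ]; simp only; rw [if_neg hE]
    rw [if_neg hE, hQE, finrank_bot]


end S_frob_dim

alias frob_dim := S_frob_dim.frob_dim

end SF
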