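import Pool.Agent.Helper297.SF.Defs
set_option autoImplicit false
open MvPolynomial

namespace SF
namespace S_frob_index
theorem frob_index_rank (K : Type) [Field K] (n : ℕ) (ι : Type)
    (U : Submodule (MvPolynomial (Fin n) K) (ι → MvPolynomial (Fin n) K))
    (D : Submodule K (ι → MvPolynomial (Fin n) K)) [Module.Finite K D] :
    Module.finrank K ↥D = Module.finrank K ↥(D.map (U.mkQ.restrictScalars K)) +
      Module.finrank K ↥(U.restrictScalars K ⊓ D) := by
  have h1 := LinearMap.finrank_range_add_finrank_ker ((U.mkQ.restrictScalars K).domRestrict D)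
  rw [LinearMap.range_domRestrict] at h1
  rw [← h1]
  congr 1
  rw [← Submodule.finrank_map_subtype_eq, LinearMap.ker_domRestrict, Submodule.map_comap_subtype,
    inf_comm]
  have h2 : ((U.mkQ.restrictScalars K).ker : Submodule K (ι → MvPolynomial (Fin n) K)) =
      U.restrictScalars K := by
    ext x
    rw [LinearMap.mem_ker, LinearMap.restrictScalars_apply, Submodule.mkQ_apply,
      Submodule.Quotient.mk_eq_zero, Submodule.restrictScalars_mem]
  rw [h2]

theorem frob_index_span (K : Type) [Field K] [CharP K 2] (n : ℕ) (ι : Type) [Fintype ι]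
    [DecidableEq ι] (B : Matrix ι ι (MvPolynomial (Fin n) K)) :
    LinearMap.range (Matrix.vecMulLinear (B.map (fun p => p ^ 2))) =
      Submodule.span (MvPolynomial (Fin n) K)
          ((fun (v : ι → MvPolynomial (Fin n) K) (i : ι) => v i ^ 2) ''
            (LinearMap.range (Matrix.vecMulLinear B) : Set (ι → MvPolynomial (Fin n) K))) := by
  apply le_antisymm
  · rintro _ ⟨w, rfl⟩
    rw [Matrix.vecMulLinear_apply]
    have h1 : Matrix.vecMul w (B.map (fun p => p ^ 2)) =
        ∑ i, w i • (fun j => (Matrix.vecMul (Pi.single i 1) B) j ^ 2) := by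
      ext1 j
      rw [Finset.sum_apply]
      simp only [Matrix.vecMul, dotProduct, Matrix.map_apply, Pi.smul_apply, smul_eq_mul,
        Pi.single_apply, ite_mul, one_mul, zero_mul, Finset.sum_ite_eq', Finset.mem_univ, if_true]
    rw [h1]
    apply Submodule.sum_mem
    intro i _
    apply Submodule.smul_mem
    apply Submodule.subset_span
    exact ⟨Matrix.vecMul (Pi.single i 1) B, ⟨Pi.single i 1, rfl⟩, rfl⟩
  · rw [Submodule.span_le]
    rintro _ ⟨_, ⟨v, rfl⟩, rfl⟩
    refine ⟨fun i => v i ^ 2, ?_⟩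
    rw [Matrix.vecMulLinear_apply, Matrix.vecMulLinear_apply]
    ext1 j
    simp only [Matrix.vecMul, dotProduct, Matrix.map_apply, CharTwo.sum_sq, mul_pow]

theorem frob_index_top (K : Type) [Field K] (n : ℕ) (ι : Type) [Fintype ι]
    [DecidableEq ι] :
    Submodule.span (MvPolynomial (Fin n) K)
          ((fun (v : ι → MvPolynomial (Fin n) K) (i : ι) => v i ^ 2) ''
            ((⊤ : Submodule (MvPolynomial (Fin n) K) (ι → MvPolynomial (Fin n) K)) :
              Set (ι → MvPolynomial (Fin n) K))) = ⊤ := by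
  rw [eq_top_iff]
  intro w _
  have h1 : w = ∑ i, w i • (Pi.single i 1 : ι → MvPolynomial (Fin n) K) := by
    ext1 j
    rw [Finset.sum_apply]
    simp [Pi.single_apply]
  rw [h1]
  apply Submodule.sum_mem
  intro i _
  apply Submodule.smul_mem
  apply Submodule.subset_span
  refine ⟨Pi.single i 1, Submodule.mem_top, ?_⟩
  ext1 j
  by_cases h : j = i
  · subst h
    simp
  · simp [h]

theorem frob_index_tors (K : Type) [Field K] (n : ℕ) (F : MvPolynomial (Fin n) K)
    (ι : Type) [Fintype ι] [DecidableEq ι] (B B' : Matrix ι ι (MvPolynomial (Fin n) K)) (b : ℕ)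
    (hB : B' * B = F ^ b • (1 : Matrix ι ι (MvPolynomial (Fin n) K))) :
    ∃ b : ℕ, ∀ v : ((ι → MvPolynomial (Fin n) K) ⧸ LinearMap.range (Matrix.vecMulLinear B)),
      F ^ b • v = 0 := by
  refine ⟨b, fun v => ?_⟩
  obtain ⟨v, rfl⟩ := Submodule.Quotient.mk_surjective _ v
  rw [← Submodule.Quotient.mk_smul, Submodule.Quotient.mk_eq_zero]
  refine ⟨Matrix.vecMul v B', ?_⟩
  rw [Matrix.vecMulLinear_apply, Matrix.vecMul_vecMul, hB, Matrix.vecMul_smul, Matrix.vecMul_one]

theorem frob_index_rel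
    (hstd : ∀ (K : Type) [Field K] (n : ℕ) (ι : Type) [Fintype ι],
      ∃ N : Fam K n (ι → MvPolynomial (Fin n) K), Good N ∧
      ∀ d v, v ∈ N.N d ↔ ∀ i, (v i).totalDegree ≤ d)
    (hmap : ∀ (K : Type) [Field K] (n : ℕ) (M M' : Type) [AddCommGroup M] [Module K M]
      [Module (MvPolynomial (Fin n) K) M] [IsScalarTower K (MvPolynomial (Fin n) K) M]
      [AddCommGroup M'] [Module K M'] [Module (MvPolynomial (Fin n) K) M']
      [IsScalarTower K (MvPolynomial (Fin n) K) M'] (f : M →ₗ[MvPolynomial (Fin n) K] M'),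
      Function.Surjective f → ∀ (N : Fam K n M), Good N →
      ∃ N' : Fam K n M', Good N' ∧ ∀ d, N'.N d = (N.N d).map (f.restrictScalars K))
    (K : Type) [Field K] (n q : ℕ) (F : MvPolynomial (Fin n) K)
    (Θ : Inv (MvPolynomial (Fin n) K) F (ZMod q))
    (hΘ : ∀ (M : Type) [AddCommGroup M] [Module K M] [Module (MvPolynomial (Fin n) K) M]
        [IsScalarTower K (MvPolynomial (Fin n) K) M], (∃ b : ℕ, ∀ v : M, F ^ b • v = 0) →
        ∀ N : Fam K n M, Good N →
        ∃ d0, ∀ d ≥ d0, (Module.finrank K (N.N d) : ZMod q) = Θ.th M)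
    (ι : Type) [Fintype ι]
    (U : Submodule (MvPolynomial (Fin n) K) (ι → MvPolynomial (Fin n) K))
    (hU : ∃ b : ℕ, ∀ v : ((ι → MvPolynomial (Fin n) K) ⧸ U), F ^ b • v = 0) :
    ∃ d0, ∀ d ≥ d0, (Module.finrank K (degLE K n ι d) : ZMod q) =
      Θ.th ((ι → MvPolynomial (Fin n) K) ⧸ U) +
        (Module.finrank K ↥(U.restrictScalars K ⊓ degLE K n ι d) : ZMod q) := by
  obtain ⟨N, hN, hNd⟩ := hstd K n ι
  have hNe : ∀ d, N.N d = degLE K n ι d := by
    intro d
    ext v
    exact hNd d v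
  obtain ⟨N', hN', hN'd⟩ := hmap K n _ _ U.mkQ U.mkQ_surjective N hN
  obtain ⟨d0, hd0⟩ := hΘ _ hU N' hN'
  refine ⟨d0, fun d hd => ?_⟩
  haveI : Module.Finite K (degLE K n ι d) := by
    rw [← hNe]
    exact hN.fin d
  have h1 := frob_index_rank K n ι U (degLE K n ι d)
  have h2 := hd0 d hd
  rw [hN'd, hNe] at h2
  rw [h1, Nat.cast_add, h2]

/-- J52: the index and Frobenius. -/
theorem frob_index
    (FD : ∀ (K : Type) [Field K] [CharP K 2] (n : ℕ) (ι : Type) [Fintype ι]
      (U : Submodule (MvPolynomial (Fin n) K) (ι → MvPolynomial (Fin n) K)) (d : ℕ),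
      Module.finrank K
        ↥((Submodule.span (MvPolynomial (Fin n) K)
          ((fun (v : ι → MvPolynomial (Fin n) K) (i : ι) => v i ^ 2) ''
            (U : Set (ι → MvPolynomial (Fin n) K)))).restrictScalars K ⊓ degLE K n ι d)
      = ∑ E : Finset (Fin n), if E.card ≤ d then
        Module.finrank K ↥(U.restrictScalars K ⊓ degLE K n ι ((d - E.card) / 2)) else 0)
    (hstd : ∀ (K : Type) [Field K] (n : ℕ) (ι : Type) [Fintype ι],
      ∃ N : Fam K n (ι → MvPolynomial (Fin n) K), Good N ∧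
      ∀ d v, v ∈ N.N d ↔ ∀ i, (v i).totalDegree ≤ d)
    (hmap : ∀ (K : Type) [Field K] (n : ℕ) (M M' : Type) [AddCommGroup M] [Module K M]
      [Module (MvPolynomial (Fin n) K) M] [IsScalarTower K (MvPolynomial (Fin n) K) M]
      [AddCommGroup M'] [Module K M'] [Module (MvPolynomial (Fin n) K) M']
      [IsScalarTower K (MvPolynomial (Fin n) K) M'] (f : M →ₗ[MvPolynomial (Fin n) K] M'),
      Function.Surjective f → ∀ (N : Fam K n M), Good N →
      ∃ N' : Fam K n M', Good N' ∧ ∀ d, N'.N d = (N.N d).map (f.restrictScalars K))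
    (K : Type) [Field K] [CharP K 2] (n q : ℕ) (F : MvPolynomial (Fin n) K)
    (Θ : Inv (MvPolynomial (Fin n) K) F (ZMod q))
    (hΘ : ∀ (M : Type) [AddCommGroup M] [Module K M] [Module (MvPolynomial (Fin n) K) M]
        [IsScalarTower K (MvPolynomial (Fin n) K) M], (∃ b : ℕ, ∀ v : M, F ^ b • v = 0) →
        ∀ N : Fam K n M, Good N →
        ∃ d0, ∀ d ≥ d0, (Module.finrank K (N.N d) : ZMod q) = Θ.th M)
    (ι : Type) [Fintype ι] [DecidableEq ι] (B B' : Matrix ι ι (MvPolynomial (Fin n) K)) (b : ℕ)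
    (hB : B' * B = F ^ b • (1 : Matrix ι ι (MvPolynomial (Fin n) K))) :
    Θ.th ((ι → MvPolynomial (Fin n) K) ⧸
        LinearMap.range (Matrix.vecMulLinear (B.map (fun p => p ^ 2))))
      = 2 ^ n * Θ.th ((ι → MvPolynomial (Fin n) K) ⧸ LinearMap.range (Matrix.vecMulLinear B)) := by
  obtain ⟨d1, hd1⟩ := frob_index_rel hstd hmap K n q F Θ hΘ ι
    (LinearMap.range (Matrix.vecMulLinear B)) (frob_index_tors K n F ι B B' b hB)
  have hB2 : B'.map (fun p => p ^ 2) * B.map (fun p => p ^ 2) =
      F ^ (b * 2) • (1 : Matrix ι ι (MvPolynomial (Fin n) K)) := by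
    have h1 : B'.map (fun p => p ^ 2) * B.map (fun p => p ^ 2) = (B' * B).map (fun p => p ^ 2) := by
      ext1 i j
      simp only [Matrix.mul_apply, Matrix.map_apply, CharTwo.sum_sq, mul_pow]
    rw [h1, hB]
    ext1 i j
    rw [Matrix.map_apply, Matrix.smul_apply, Matrix.smul_apply, smul_eq_mul, smul_eq_mul, mul_pow,
      ← pow_mul]
    congr 1
    by_cases h : i = j
    · subst h
      simp
    · simp [h]
  obtain ⟨d2, hd2⟩ := frob_index_rel hstd hmap K n q F Θ hΘ ι
    (LinearMap.range (Matrix.vecMulLinear (B.map (fun p => p ^ 2))))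
    (frob_index_tors K n F ι _ _ _ hB2)
  set U := LinearMap.range (Matrix.vecMulLinear B) with hUdef
  set d := 2 * d1 + n + d2 with hd
  have h3 := FD K n ι U d
  have h4 := FD K n ι ⊤ d
  rw [frob_index_top, Submodule.restrictScalars_top, top_inf_eq] at h4
  rw [← frob_index_span] at h3
  have h5 := hd2 d (by omega)
  have hcard : ∀ E : Finset (Fin n), E.card ≤ d := by
    intro E
    have := Finset.card_le_univ E
    rw [Fintype.card_fin] at this
    omega
  have h3' : Module.finrank K ↥((LinearMap.range (Matrix.vecMulLinear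
      (B.map (fun p => p ^ 2)))).restrictScalars K ⊓ degLE K n ι d) =
      ∑ E : Finset (Fin n), Module.finrank K
        ↥(U.restrictScalars K ⊓ degLE K n ι ((d - E.card) / 2)) := by
    rw [h3]
    exact Finset.sum_congr rfl fun E _ => if_pos (hcard E)
  have h4' : Module.finrank K ↥(degLE K n ι d) =
      ∑ E : Finset (Fin n), Module.finrank K ↥(degLE K n ι ((d - E.card) / 2)) := by
    rw [h4]
    exact Finset.sum_congr rfl fun E _ => by rw [if_pos (hcard E), top_inf_eq]
  rw [h3', h4', Nat.cast_sum, Nat.cast_sum] at h5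
  have h6 : ∑ E : Finset (Fin n),
      (Module.finrank K ↥(degLE K n ι ((d - E.card) / 2)) : ZMod q) =
      ∑ E : Finset (Fin n), (Θ.th ((ι → MvPolynomial (Fin n) K) ⧸ U) +
        (Module.finrank K ↥(U.restrictScalars K ⊓ degLE K n ι ((d - E.card) / 2)) : ZMod q)) := by
    refine Finset.sum_congr rfl fun E _ => hd1 _ ?_
    have := Finset.card_le_univ E
    rw [Fintype.card_fin] at this
    omega
  rw [h6, Finset.sum_add_distrib] at h5
  have h7 := add_right_cancel h5
  rw [← h7, Finset.sum_const, Finset.card_univ, Fintype.card_finset, Fintype.card_fin,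
    nsmul_eq_mul]
  push_cast
  rfl


end S_frob_index

alias frob_index := S_frob_index.frob_index

end SF
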