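import Pool.Agent.Helper297.SF.Defs
set_option autoImplicit false
open MvPolynomial

namespace SF
namespace S_good_comap
variable {K : Type} [Field K] {n : ℕ} {M : Type} [AddCommGroup M] [Module K M]
    [Module (MvPolynomial (Fin n) K) M] [IsScalarTower K (MvPolynomial (Fin n) K) M]

theorem good_comap_le_iff {M : Type} [AddCommGroup M] [Module K M]
    [Module (MvPolynomial (Fin n) K) M] (A B : Fam K n M) : A ≤ B ↔ ∀ d, A.N d ≤ B.N d := Iff.rfl

/-- push forward of a family -/
noncomputable def good_comap_push {M' : Type} [AddCommGroup M'] [Module K M']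
    [Module (MvPolynomial (Fin n) K) M']
    [IsScalarTower K (MvPolynomial (Fin n) K) M'] (f : M' →ₗ[MvPolynomial (Fin n) K] M)
    (A : Fam K n M') : Fam K n M where
  N d := (A.N d).map (f.restrictScalars K)
  mono d := Submodule.map_mono (A.mono d)
  smul := by
    rintro d _ ⟨w, hw, rfl⟩ i
    refine ⟨(X i : MvPolynomial (Fin n) K) • w, A.smul d w hw i, ?_⟩
    exact f.map_smul _ _

/-- J7b: pull back of a good family along an injection. -/
theorem good_comap {M' : Type} [AddCommGroup M'] [Module K M'] [Module (MvPolynomial (Fin n) K) M']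
    [IsScalarTower K (MvPolynomial (Fin n) K) M'] (f : M' →ₗ[MvPolynomial (Fin n) K] M)
    (hf : Function.Injective f) (N : Fam K n M) (hN : Good N) :
    ∃ N' : Fam K n M', Good N' ∧ ∀ d, N'.N d = (N.N d).comap (f.restrictScalars K) := by
  let N' : Fam K n M' :=
    { N := fun d => (N.N d).comap (f.restrictScalars K)
      mono := fun d => Submodule.comap_mono (N.mono d)
      smul := by
        intro d v hv i
        have h1 := N.smul d (f v) hv i
        show f ((X i : MvPolynomial (Fin n) K) • v) ∈ N.N (d + 1)
        rw [f.map_smul]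
        exact h1 }
  have hN' : ∀ d, N'.N d = (N.N d).comap (f.restrictScalars K) := fun d => rfl
  refine ⟨N', ⟨?_, ?_, ?_⟩, hN'⟩
  · intro d
    haveI := hN.fin d
    let g : N'.N d →ₗ[K] N.N d :=
      LinearMap.codRestrict (N.N d) ((f.restrictScalars K).domRestrict (N'.N d)) (fun c => c.2)
    refine Module.Finite.of_injective g ?_
    intro a b hab
    have h1 : f a.1 = f b.1 := congrArg Subtype.val hab
    exact Subtype.ext (hf h1)
  · intro v
    obtain ⟨d, hd⟩ := hN.exh (f v)
    exact ⟨d, hd⟩
  · haveI := hN.acc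
    have hle : ∀ A : {A : Fam K n M' // A ≤ N'}, good_comap_push f A.1 ≤ N := by
      intro A
      rw [good_comap_le_iff]
      rintro d _ ⟨w, hw, rfl⟩
      exact (good_comap_le_iff _ _).mp A.2 d hw
    have hmono : ∀ A B : Fam K n M', good_comap_push f A ≤ good_comap_push f B ↔ A ≤ B := by
      intro A B
      rw [good_comap_le_iff, good_comap_le_iff]
      constructor
      · intro h d v hv
        obtain ⟨w, hw, hwv⟩ := h d ⟨v, hv, rfl⟩
        rwa [hf hwv] at hw
      · intro h d
        exact Submodule.map_mono (h d)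
    let φ : {A : Fam K n M' // A ≤ N'} → {A : Fam K n M // A ≤ N} := fun A =>
      ⟨good_comap_push f A.1, hle A⟩
    have hφ : StrictMono φ := by
      intro A B hAB
      rw [lt_iff_le_not_ge] at hAB ⊢
      exact ⟨(hmono A.1 B.1).mpr hAB.1, fun h => hAB.2 ((hmono B.1 A.1).mp h)⟩
    exact hφ.wellFoundedGT


end S_good_comap

alias good_comap := S_good_comap.good_comap

end SF
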