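import Pool.Agent.Helper297.SF.Defs
set_option autoImplicit false
open MvPolynomial

namespace SF
namespace S_good_std
/-- the standard family -/
noncomputable def stdFam (K : Type) [Field K] (n : ℕ) (ι : Type) :
    Fam K n (ι → MvPolynomial (Fin n) K) where
  N d := Submodule.pi Set.univ (fun _ => restrictTotalDegree (Fin n) K d)
  mono d := by
    intro v hv i hi
    have h1 := (mem_restrictTotalDegree (Fin n) d (v i)).1 (hv i hi)
    exact (mem_restrictTotalDegree (Fin n) (d + 1) (v i)).2 (h1.trans (Nat.le_succ d))
  smul d := by
    intro v hv j i hi
    have h1 := (mem_restrictTotalDegree (Fin n) d (v i)).1 (hv i hi)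
    refine (mem_restrictTotalDegree (Fin n) (d + 1) _).2 ?_
    rw [Pi.smul_apply, smul_eq_mul]
    refine (totalDegree_mul _ _).trans ?_
    rw [totalDegree_X]
    omega

theorem mem_stdFam (K : Type) [Field K] (n : ℕ) (ι : Type) (d : ℕ)
    (v : ι → MvPolynomial (Fin n) K) :
    v ∈ (stdFam K n ι).N d ↔ ∀ i, (v i).totalDegree ≤ d := by
  constructor
  · intro h i
    exact (mem_restrictTotalDegree (Fin n) d (v i)).1 (h i (Set.mem_univ i))
  · intro h i _
    exact (mem_restrictTotalDegree (Fin n) d (v i)).2 (h i)

/-- the map to the Rees ring -/
noncomputable def phiR (K : Type) [Field K] (n : ℕ) :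
    MvPolynomial (Option (Fin n)) K →ₐ[K] Polynomial (MvPolynomial (Fin n) K) :=
  aeval (fun o => match o with
    | none => Polynomial.X
    | some i => Polynomial.C (X i) * Polynomial.X)

theorem phiR_none (K : Type) [Field K] (n : ℕ) : phiR K n (X none) = Polynomial.X := by
  rw [phiR, aeval_X]

theorem phiR_some (K : Type) [Field K] (n : ℕ) (i : Fin n) :
    phiR K n (X (some i)) = Polynomial.C (X i) * Polynomial.X := by
  rw [phiR, aeval_X]

theorem phiR_lift (K : Type) [Field K] (n : ℕ) (p : MvPolynomial (Fin n) K) (d : ℕ)
    (hp : p.totalDegree ≤ d) : ∃ w, phiR K n w = Polynomial.monomial d p := by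
  have h1 : ∀ α ∈ p.support, ∃ w, phiR K n w = Polynomial.monomial d (monomial α (coeff α p)) := by
    intro α hα
    have h2 : (α.sum fun _ e => e) ≤ d := (le_totalDegree hα).trans hp
    refine ⟨C (coeff α p) * X none ^ (d - (α.sum fun _ e => e)) *
      α.prod (fun i e => X (some i) ^ e), ?_⟩
    rw [map_mul, map_mul, map_pow, phiR_none]
    have h3 : phiR K n (α.prod (fun i e => X (some i) ^ e)) =
        Polynomial.C (α.prod (fun i e => X i ^ e)) * Polynomial.X ^ (α.sum fun _ e => e) := by
      unfold Finsupp.prod Finsupp.sum
      rw [map_prod, map_prod, ← Finset.prod_pow_eq_pow_sum, ← Finset.prod_mul_distrib]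
      apply Finset.prod_congr rfl
      intro i _
      rw [map_pow, phiR_some, mul_pow, map_pow]
    have h4 : phiR K n (C (coeff α p)) = Polynomial.C (C (coeff α p)) := by
      rw [← algebraMap_eq, AlgHom.commutes]
      rfl
    rw [h3, h4, monomial_eq, ← Polynomial.C_mul_X_pow_eq_monomial, map_mul]
    have h5 : (Polynomial.X : Polynomial (MvPolynomial (Fin n) K)) ^ d =
        Polynomial.X ^ (d - (α.sum fun _ e => e)) * Polynomial.X ^ (α.sum fun _ e => e) := by
      rw [← pow_add, Nat.sub_add_cancel h2]
    rw [h5]
    ring
  choose w hw using h1
  refine ⟨∑ α ∈ p.support.attach, w α.1 α.2, ?_⟩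
  rw [map_sum]
  rw [Finset.sum_congr rfl fun α _ => hw α.1 α.2]
  rw [← map_sum]
  congr 1
  rw [Finset.sum_attach p.support (fun α => monomial α (coeff α p))]
  exact (as_sum p).symm

/-- the homogenised submodule -/
noncomputable def Hs (K : Type) [Field K] (n : ℕ) (ι : Type)
    (N : Fam K n (ι → MvPolynomial (Fin n) K)) :
    Submodule (MvPolynomial (Option (Fin n)) K) (ι → MvPolynomial (Option (Fin n)) K) where
  carrier := {w | ∀ d, (fun i => (phiR K n (w i)).coeff d) ∈ N.N d}
  add_mem' := by
    intro v w hv hw d
    have h := (N.N d).add_mem (hv d) (hw d)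
    have h2 : (fun i => (phiR K n ((v + w) i)).coeff d) =
        (fun i => (phiR K n (v i)).coeff d) + (fun i => (phiR K n (w i)).coeff d) := by
      funext i
      rw [Pi.add_apply, Pi.add_apply, map_add, Polynomial.coeff_add]
    rw [h2]
    exact h
  zero_mem' := by
    intro d
    have h2 : (fun i : ι => (phiR K n ((0 : ι → MvPolynomial (Option (Fin n)) K) i)).coeff d) =
        0 := by
      funext i
      rw [Pi.zero_apply, Pi.zero_apply, map_zero, Polynomial.coeff_zero]
    rw [h2]
    exact (N.N d).zero_mem
  smul_mem' := by
    intro s
    induction s using MvPolynomial.induction_on with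
    | C a =>
      intro w hw d
      have h2 : (fun i => (phiR K n (((C a : MvPolynomial (Option (Fin n)) K) • w) i)).coeff d) =
          a • (fun i => (phiR K n (w i)).coeff d) := by
        funext i
        rw [Pi.smul_apply, Pi.smul_apply, smul_eq_mul, C_mul', map_smul, Polynomial.coeff_smul]
      rw [h2]
      exact (N.N d).smul_mem _ (hw d)
    | add p q hp hq =>
      intro w hw d
      have h := (N.N d).add_mem (hp hw d) (hq hw d)
      have h2 : (fun i => (phiR K n (((p + q) • w) i)).coeff d) =
          (fun i => (phiR K n ((p • w) i)).coeff d) + (fun i => (phiR K n ((q • w) i)).coeff d) := by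
        funext i
        rw [Pi.add_apply, add_smul, Pi.add_apply, map_add, Polynomial.coeff_add]
      rw [h2]
      exact h
    | mul_X p o hp =>
      intro w hw
      rw [mul_smul]
      apply hp
      intro d
      cases o with
      | none =>
        cases d with
        | zero =>
          have h2 : (fun i => (phiR K n (((X none : MvPolynomial (Option (Fin n)) K) • w) i)).coeff 0) =
              0 := by
            funext i
            rw [Pi.smul_apply, smul_eq_mul, map_mul, phiR_none, Polynomial.coeff_X_mul_zero]
            rfl
          rw [h2]
          exact (N.N 0).zero_mem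
        | succ d =>
          have h2 : (fun i => (phiR K n (((X none : MvPolynomial (Option (Fin n)) K) • w) i)).coeff
              (d + 1)) = (fun i => (phiR K n (w i)).coeff d) := by
            funext i
            rw [Pi.smul_apply, smul_eq_mul, map_mul, phiR_none, Polynomial.coeff_X_mul]
          rw [h2]
          exact N.mono d (hw d)
      | some j =>
        cases d with
        | zero =>
          have h2 : (fun i => (phiR K n (((X (some j) : MvPolynomial (Option (Fin n)) K) • w) i)).coeff 0) =
              0 := by
            funext i
            rw [Pi.smul_apply, smul_eq_mul, map_mul, phiR_some, mul_assoc, Polynomial.coeff_C_mul,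
              Polynomial.coeff_X_mul_zero, mul_zero]
            rfl
          rw [h2]
          exact (N.N 0).zero_mem
        | succ d =>
          have h2 : (fun i => (phiR K n (((X (some j) : MvPolynomial (Option (Fin n)) K) • w) i)).coeff
              (d + 1)) = (X j : MvPolynomial (Fin n) K) • (fun i => (phiR K n (w i)).coeff d) := by
            funext i
            rw [Pi.smul_apply, Pi.smul_apply, smul_eq_mul, smul_eq_mul, map_mul, phiR_some,
              mul_assoc, Polynomial.coeff_C_mul, Polynomial.coeff_X_mul]
          rw [h2]
          exact N.smul d _ (hw d) j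

/-- J8a: the standard family on a finite free module satisfies the ascending chain condition. -/
theorem good_std (K : Type) [Field K] (n : ℕ) (ι : Type) [Fintype ι] :
    ∃ N : Fam K n (ι → MvPolynomial (Fin n) K), Good N ∧
      ∀ d v, v ∈ N.N d ↔ ∀ i, (v i).totalDegree ≤ d := by
  refine ⟨stdFam K n ι, ⟨?_, ?_, ?_⟩, mem_stdFam K n ι⟩
  · intro d
    have hmem : ∀ (v : (stdFam K n ι).N d) (i : ι),
        (v : ι → MvPolynomial (Fin n) K) i ∈ restrictTotalDegree (Fin n) K d :=
      fun v i => v.2 i (Set.mem_univ i)
    let f : (stdFam K n ι).N d →ₗ[K] (ι → restrictTotalDegree (Fin n) K d) :=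
      { toFun := fun v i => ⟨(v : ι → MvPolynomial (Fin n) K) i, hmem v i⟩
        map_add' := by
          intro v w
          funext i
          apply Subtype.ext
          rfl
        map_smul' := by
          intro c v
          funext i
          apply Subtype.ext
          rfl }
    apply Module.Finite.of_injective f
    intro v w hvw
    apply Subtype.ext
    funext i
    have h1 := congrFun hvw i
    exact congrArg Subtype.val h1
  · intro v
    refine ⟨Finset.univ.sup (fun i => (v i).totalDegree), ?_⟩
    rw [mem_stdFam]
    intro i
    exact Finset.le_sup (f := fun i => (v i).totalDegree) (Finset.mem_univ i)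
  · haveI : WellFoundedGT (Submodule (MvPolynomial (Option (Fin n)) K)
        (ι → MvPolynomial (Option (Fin n)) K)) := inferInstance
    have hmono : StrictMono (fun N' : {N' : Fam K n (ι → MvPolynomial (Fin n) K) //
        N' ≤ stdFam K n ι} => Hs K n ι N'.1) := by
      intro N1 N2 hlt
      have hle : N1.1.N ≤ N2.1.N := hlt.le
      refine lt_of_le_of_ne ?_ ?_
      · intro w hw d
        exact hle d (hw d)
      · intro heq
        apply hlt.ne
        apply Subtype.ext
        apply Fam.ext
        funext d
        apply le_antisymm (hle d)
        intro v hv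
        have hvstd : v ∈ (stdFam K n ι).N d := by
          have h2 : N2.1.N ≤ (stdFam K n ι).N := N2.2
          exact h2 d hv
        rw [mem_stdFam] at hvstd
        choose w hw using fun i => phiR_lift K n (v i) d (hvstd i)
        have hwH : w ∈ Hs K n ι N2.1 := by
          intro e
          by_cases hed : d = e
          · have h3 : (fun i => (phiR K n (w i)).coeff e) = v := by
              funext i
              rw [hw i, Polynomial.coeff_monomial, if_pos hed]
            rw [h3, ← hed]
            exact hv
          · have h3 : (fun i => (phiR K n (w i)).coeff e) = 0 := by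
              funext i
              rw [hw i, Polynomial.coeff_monomial, if_neg hed]
              rfl
            rw [h3]
            exact Submodule.zero_mem _
        have hwH1 : w ∈ Hs K n ι N1.1 := by
          have h4 : Hs K n ι N1.1 = Hs K n ι N2.1 := heq
          rw [h4]
          exact hwH
        have h5 := hwH1 d
        have h3 : (fun i => (phiR K n (w i)).coeff d) = v := by
          funext i
          rw [hw i, Polynomial.coeff_monomial, if_pos rfl]
        rw [h3] at h5
        exact h5
    exact hmono.wellFoundedGT

end S_good_std

alias good_std := S_good_std.good_std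

end SF
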