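import Pool.Agent.Helper297.SF.Defs
set_option autoImplicit false
open MvPolynomial

namespace SF
namespace S_inv_point
theorem acc_of_simple (K : Type) [Field K] (n : ℕ) (M : Type) [AddCommGroup M] [Module K M]
    [Module (MvPolynomial (Fin n) K) M] (hs : ∀ P : Submodule K M, P = ⊥ ∨ P = ⊤)
    (hbt : (⊥ : Submodule K M) ≠ ⊤) (N : Fam K n M) :
    WellFoundedGT {N' : Fam K n M // N' ≤ N} := by
  classical
  have hmono : ∀ N' : Fam K n M, ∀ d e, d ≤ e → N'.N d ≤ N'.N e := fun N' d e h =>
    monotone_nat_of_le_succ N'.mono h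
  let g : {N' : Fam K n M // N' ≤ N} → WithTop ℕ := fun N' =>
    if h : ∃ d, N'.1.N d = ⊤ then ((Nat.find h : ℕ) : WithTop ℕ) else ⊤
  have hg : StrictAnti g := by
    intro A B hAB
    have hle : ∀ d, A.1.N d ≤ B.1.N d := hAB.le
    obtain ⟨d, hd⟩ : ∃ d, A.1.N d ≠ B.1.N d := by
      by_contra hcon
      push Not at hcon
      apply hAB.ne
      apply Subtype.ext
      apply Fam.ext
      funext d
      exact hcon d
    have hlt : A.1.N d < B.1.N d := lt_of_le_of_ne (hle d) hd
    have hA : A.1.N d = ⊥ := by
      rcases hs (A.1.N d) with h | h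
      · exact h
      · rw [h] at hlt; exact absurd hlt not_top_lt
    have hB : B.1.N d = ⊤ := by
      rcases hs (B.1.N d) with h | h
      · rw [h] at hlt; exact absurd hlt not_lt_bot
      · exact h
    have hBex : ∃ d, B.1.N d = ⊤ := ⟨d, hB⟩
    have hgB : g B ≤ (d : WithTop ℕ) := by
      simp only [g, dif_pos hBex]
      exact_mod_cast Nat.find_min' hBex hB
    have hgA : (d : WithTop ℕ) < g A := by
      by_cases hAex : ∃ d, A.1.N d = ⊤
      · simp only [g, dif_pos hAex]
        have : d < Nat.find hAex := by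
          by_contra hcon
          have h1 := Nat.find_spec hAex
          have h2 := hmono A.1 _ _ (not_lt.1 hcon)
          rw [h1, hA] at h2
          exact hbt (le_bot_iff.1 h2).symm
        exact_mod_cast this
      · simp only [g, dif_neg hAex]
        exact WithTop.coe_lt_top d
    exact hgB.trans_lt hgA
  exact hg.wellFoundedGT

/-- J11: the value on the residue field of the origin. -/
theorem inv_point (K : Type) [Field K] (n q : ℕ) (F : MvPolynomial (Fin n) K)
    (hF : F ∈ Ideal.span (Set.range (X : Fin n → MvPolynomial (Fin n) K)))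
    (Θ : Inv (MvPolynomial (Fin n) K) F (ZMod q))
    (hΘ : ∀ (M : Type) [AddCommGroup M] [Module K M] [Module (MvPolynomial (Fin n) K) M]
        [IsScalarTower K (MvPolynomial (Fin n) K) M], (∃ b : ℕ, ∀ v : M, F ^ b • v = 0) →
        ∀ N : Fam K n M, Good N →
        ∃ d0, ∀ d ≥ d0, (Module.finrank K (N.N d) : ZMod q) = Θ.th M) :
    Θ.th (MvPolynomial (Fin n) K ⧸ Ideal.span (Set.range (X : Fin n → MvPolynomial (Fin n) K)))
      = 1 := by
  classical
  have h1 : ∀ p : MvPolynomial (Fin n) K, p - C (constantCoeff p) ∈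
      Ideal.span (Set.range (X : Fin n → MvPolynomial (Fin n) K)) := by
    intro p
    induction p using MvPolynomial.induction_on with
    | C a => simp
    | add p q hp hq =>
      have : p + q - C (constantCoeff (p + q)) =
          (p - C (constantCoeff p)) + (q - C (constantCoeff q)) := by
        rw [map_add, map_add]; ring
      rw [this]
      exact Ideal.add_mem _ hp hq
    | mul_X p i hp =>
      have : p * X i - C (constantCoeff (p * X i)) = p * X i := by simp
      rw [this]
      exact Ideal.mul_mem_left _ _ (Ideal.subset_span ⟨i, rfl⟩)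
  have hne : (1 : MvPolynomial (Fin n) K) ∉
      Ideal.span (Set.range (X : Fin n → MvPolynomial (Fin n) K)) := by
    intro h
    have hle : Ideal.span (Set.range (X : Fin n → MvPolynomial (Fin n) K)) ≤
        RingHom.ker (constantCoeff : MvPolynomial (Fin n) K →+* K) := by
      rw [Ideal.span_le]
      rintro _ ⟨i, rfl⟩
      simp
    have := hle h
    rw [RingHom.mem_ker, map_one] at this
    exact one_ne_zero this
  set I := Ideal.span (Set.range (X : Fin n → MvPolynomial (Fin n) K)) with hI
  have hsurj : Function.Surjective (LinearMap.toSpanSingleton K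
      (MvPolynomial (Fin n) K ⧸ I) (Ideal.Quotient.mk I 1)) := by
    intro v
    obtain ⟨p, rfl⟩ := Ideal.Quotient.mk_surjective v
    refine ⟨constantCoeff p, ?_⟩
    rw [LinearMap.toSpanSingleton_apply]
    have h2 : (constantCoeff p) • (Ideal.Quotient.mk I (1 : MvPolynomial (Fin n) K)) =
        Ideal.Quotient.mk I ((constantCoeff p) • (1 : MvPolynomial (Fin n) K)) := rfl
    rw [h2, Ideal.Quotient.eq]
    have h3 : (constantCoeff p) • (1 : MvPolynomial (Fin n) K) = C (constantCoeff p) := by
      rw [MvPolynomial.smul_eq_C_mul, mul_one]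
    rw [h3, ← neg_sub]
    exact I.neg_mem (h1 p)
  have hmk : Ideal.Quotient.mk I (1 : MvPolynomial (Fin n) K) ≠ 0 := by
    intro h
    exact hne (Ideal.Quotient.eq_zero_iff_mem.1 h)
  have hinj : Function.Injective (LinearMap.toSpanSingleton K
      (MvPolynomial (Fin n) K ⧸ I) (Ideal.Quotient.mk I 1)) := by
    rw [← LinearMap.ker_eq_bot]
    exact LinearMap.ker_toSpanSingleton K hmk
  let e : K ≃ₗ[K] (MvPolynomial (Fin n) K ⧸ I) := LinearEquiv.ofBijective _ ⟨hinj, hsurj⟩
  have hfin : Module.Finite K (MvPolynomial (Fin n) K ⧸ I) := Module.Finite.equiv e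
  have hrank : Module.finrank K (MvPolynomial (Fin n) K ⧸ I) = 1 := by
    rw [← e.finrank_eq, Module.finrank_self]
  have hsm : IsSimpleModule K (MvPolynomial (Fin n) K ⧸ I) :=
    isSimpleModule_iff_finrank_eq_one.2 hrank
  have hso : IsSimpleOrder (Submodule K (MvPolynomial (Fin n) K ⧸ I)) :=
    (isSimpleModule_iff _ _).1 hsm
  let N : Fam K n (MvPolynomial (Fin n) K ⧸ I) :=
    { N := fun _ => ⊤
      mono := fun _ => le_rfl
      smul := fun _ _ _ _ => Submodule.mem_top }
  have hgood : Good N :=
    { fin := fun d => by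
        show Module.Finite K (⊤ : Submodule K (MvPolynomial (Fin n) K ⧸ I))
        infer_instance
      exh := fun v => ⟨0, Submodule.mem_top⟩
      acc := acc_of_simple K n _ (fun P => eq_bot_or_eq_top P) bot_ne_top N }
  obtain ⟨d0, hd0⟩ := hΘ (MvPolynomial (Fin n) K ⧸ I) ⟨1, by
    intro v
    obtain ⟨p, rfl⟩ := Ideal.Quotient.mk_surjective v
    rw [pow_one]
    have : F • (Ideal.Quotient.mk I p) = Ideal.Quotient.mk I (F * p) := rfl
    rw [this, Ideal.Quotient.eq_zero_iff_mem]
    exact Ideal.mul_mem_right _ _ hF⟩ N hgood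
  have h4 := hd0 d0 le_rfl
  have h5 : Module.finrank K (N.N d0) = 1 := by
    show Module.finrank K (⊤ : Submodule K (MvPolynomial (Fin n) K ⧸ I)) = 1
    rw [finrank_top, hrank]
  rw [h5, Nat.cast_one] at h4
  exact h4.symm


end S_inv_point

alias inv_point := S_inv_point.inv_point

end SF
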