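import Pool.Agent.Helper297.SF.Lib
set_option autoImplicit false
open MvPolynomial

namespace SF
namespace S_ix_TD

section tdaux

variable {R : Type} [CommRing R] {n : ℕ}

theorem td_phi_apply (M : Matrix (Fin n) (Fin n) R) (u : Finset (Fin n) → R)
    (I : Finset (Fin n)) : Phi M u I = ∑ I', u I' * cm M I' I := rfl

theorem td_phi_XD (M : Matrix (Fin n) (Fin n) R) (j : ℕ) (u : Finset (Fin n) → R)
    (hu : u ∈ XD R n j) : Phi M u ∈ XD R n j := by
  intro I hI
  rw [td_phi_apply]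
  apply Finset.sum_eq_zero
  intro I' _
  by_cases h : I'.card = j
  · rw [cm_card n M I' I (by rw [h]; exact Ne.symm hI), mul_zero]
  · rw [hu I' h, zero_mul]

theorem td_phi_phi [CharP R 2] (F : R) (b : ℕ) (M M' : Matrix (Fin n) (Fin n) R)
    (hM : M' * M = F ^ b • (1 : Matrix (Fin n) (Fin n) R)) (u : Finset (Fin n) → R)
    (I : Finset (Fin n)) : Phi M (Phi M' u) I = (F ^ b) ^ I.card * u I := by
  have h : Phi M (Phi M' u) = Matrix.vecMul u (cm M' * cm M) := by
    change Matrix.vecMul (Matrix.vecMul u (cm M')) (cm M) = _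
    rw [Matrix.vecMul_vecMul]
  rw [h, ← cm_mul, hM, cm_smul_one, Matrix.vecMul_diagonal, mul_comm]

theorem td_phi_inj [IsDomain R] [CharP R 2] (F : R) (hF : F ≠ 0) (b : ℕ)
    (M M' : Matrix (Fin n) (Fin n) R)
    (hM : M' * M = F ^ b • (1 : Matrix (Fin n) (Fin n) R)) : Function.Injective (Phi M) := by
  rw [← LinearMap.ker_eq_bot, LinearMap.ker_eq_bot']
  intro u hu
  refine Matrix.eq_zero_of_vecMul_eq_zero (M := cm M) ?_ hu
  intro hdet
  have h1 : (cm M' * cm M).det = 0 := by rw [Matrix.det_mul, hdet, mul_zero]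
  rw [← cm_mul, hM, cm_smul_one, Matrix.det_diagonal, Finset.prod_eq_zero_iff] at h1
  obtain ⟨I, -, hI⟩ := h1
  exact pow_ne_zero _ (pow_ne_zero _ hF) hI

/-- action on the first factor -/
noncomputable def tdP1 (M : Matrix (Fin n) (Fin n) R) :
    (Finset (Fin n) × Finset (Fin n) → R) →ₗ[R] (Finset (Fin n) × Finset (Fin n) → R) :=
  LinearMap.pi (fun p => LinearMap.proj p.1 ∘ₗ Phi M ∘ₗ LinearMap.funLeft R R (fun I' => (I', p.2)))

/-- action on the second factor -/
noncomputable def tdP2 (M : Matrix (Fin n) (Fin n) R) :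
    (Finset (Fin n) × Finset (Fin n) → R) →ₗ[R] (Finset (Fin n) × Finset (Fin n) → R) :=
  LinearMap.pi (fun p => LinearMap.proj p.2 ∘ₗ Phi M ∘ₗ LinearMap.funLeft R R (fun J' => (p.1, J')))

theorem td_P1_apply (M : Matrix (Fin n) (Fin n) R) (u : Finset (Fin n) × Finset (Fin n) → R)
    (p : Finset (Fin n) × Finset (Fin n)) : tdP1 M u p = Phi M (fun I' => u (I', p.2)) p.1 := rfl

theorem td_P2_apply (M : Matrix (Fin n) (Fin n) R) (u : Finset (Fin n) × Finset (Fin n) → R)
    (p : Finset (Fin n) × Finset (Fin n)) : tdP2 M u p = Phi M (fun J' => u (p.1, J')) p.2 := rfl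

theorem td_Psi (M : Matrix (Fin n) (Fin n) R) : Psi M = tdP1 M ∘ₗ tdP2 M := by
  apply LinearMap.ext
  intro u
  funext p
  rw [LinearMap.comp_apply, td_P1_apply, td_phi_apply]
  have h1 : Psi M u p = ∑ q : Finset (Fin n) × Finset (Fin n), u q * (cm M q.1 p.1 * cm M q.2 p.2) :=
    rfl
  rw [h1, Fintype.sum_prod_type]
  apply Finset.sum_congr rfl
  intro I' _
  rw [td_P2_apply, td_phi_apply, Finset.sum_mul]
  apply Finset.sum_congr rfl
  intro J' _
  ring

theorem td_P1_TD (M : Matrix (Fin n) (Fin n) R) (k i : ℕ)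
    (u : Finset (Fin n) × Finset (Fin n) → R) (hu : u ∈ TD R n k i) : tdP1 M u ∈ TD R n k i := by
  intro p hp
  rw [td_P1_apply, td_phi_apply]
  apply Finset.sum_eq_zero
  intro I' _
  by_cases h : I'.card = p.1.card
  · rw [hu (I', p.2) (by simpa [h] using hp), zero_mul]
  · rw [cm_card n M I' p.1 h, mul_zero]

theorem td_P2_TD (M : Matrix (Fin n) (Fin n) R) (k i : ℕ)
    (u : Finset (Fin n) × Finset (Fin n) → R) (hu : u ∈ TD R n k i) : tdP2 M u ∈ TD R n k i := by
  intro p hp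
  rw [td_P2_apply, td_phi_apply]
  apply Finset.sum_eq_zero
  intro J' _
  by_cases h : J'.card = p.2.card
  · rw [hu (p.1, J') (by simpa [h] using hp), zero_mul]
  · rw [cm_card n M J' p.2 h, mul_zero]

theorem td_P1_P1 [CharP R 2] (F : R) (b : ℕ) (M M' : Matrix (Fin n) (Fin n) R)
    (hM : M' * M = F ^ b • (1 : Matrix (Fin n) (Fin n) R)) (k i : ℕ)
    (u : Finset (Fin n) × Finset (Fin n) → R) (hu : u ∈ TD R n k i) :
    tdP1 M (tdP1 M' u) = F ^ (b * (k - i)) • u := by
  funext p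
  have h1 : tdP1 M (tdP1 M' u) p = Phi M (Phi M' (fun I' => u (I', p.2))) p.1 := rfl
  rw [h1, td_phi_phi F b M M' hM, Pi.smul_apply, smul_eq_mul]
  by_cases hp : p.1.card + p.2.card = k ∧ p.2.card = i
  · have h2 : p.1.card = k - i := by omega
    rw [h2, pow_mul]
  · have h2 : u p = 0 := hu p hp
    rw [h2, mul_zero, mul_zero]

theorem td_P2_P2 [CharP R 2] (F : R) (b : ℕ) (M M' : Matrix (Fin n) (Fin n) R)
    (hM : M' * M = F ^ b • (1 : Matrix (Fin n) (Fin n) R)) (k i : ℕ)
    (u : Finset (Fin n) × Finset (Fin n) → R) (hu : u ∈ TD R n k i) :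
    tdP2 M (tdP2 M' u) = F ^ (b * i) • u := by
  funext p
  have h1 : tdP2 M (tdP2 M' u) p = Phi M (Phi M' (fun J' => u (p.1, J'))) p.2 := rfl
  rw [h1, td_phi_phi F b M M' hM, Pi.smul_apply, smul_eq_mul]
  by_cases hp : p.1.card + p.2.card = k ∧ p.2.card = i
  · have h2 : p.2.card = i := hp.2
    rw [h2, pow_mul]
  · have h2 : u p = 0 := hu p hp
    rw [h2, mul_zero, mul_zero]

/-- the pieces as functions of the second index -/
noncomputable def tdE1 (k i : ℕ) (hik : i ≤ k) : TD R n k i ≃ₗ[R]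
    Submodule.pi Set.univ (fun _ : {J : Finset (Fin n) // J.card = i} => XD R n (k - i)) where
  toFun u := ⟨fun J I => u.1 (I, J.1), by
    intro J _ I hI
    refine u.2 (I, J.1) ?_
    rintro ⟨h1, h2⟩
    apply hI
    change I.card + J.1.card = k at h1
    have h3 := J.2
    omega⟩
  map_add' u v := rfl
  map_smul' c u := rfl
  invFun v := ⟨fun p => if h : p.2.card = i then v.1 ⟨p.2, h⟩ p.1 else 0, by
    intro p hp
    change (if h : p.2.card = i then v.1 ⟨p.2, h⟩ p.1 else 0) = 0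
    by_cases h : p.2.card = i
    · rw [dif_pos h]
      refine v.2 ⟨p.2, h⟩ trivial p.1 ?_
      intro h3
      apply hp
      exact ⟨by omega, h⟩
    · rw [dif_neg h]⟩
  left_inv u := by
    apply Subtype.ext
    funext p
    by_cases h : p.2.card = i
    · simp only [dif_pos h]
    · simp only [dif_neg h]
      exact (u.2 p (fun hh => h hh.2)).symm
  right_inv v := by
    apply Subtype.ext
    funext J I
    simp only [dif_pos J.2]

/-- the pieces as functions of the first index -/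
noncomputable def tdE2 (k i : ℕ) (hik : i ≤ k) : TD R n k i ≃ₗ[R]
    Submodule.pi Set.univ (fun _ : {I : Finset (Fin n) // I.card = k - i} => XD R n i) where
  toFun u := ⟨fun I J => u.1 (I.1, J), by
    intro I _ J hJ
    refine u.2 (I.1, J) ?_
    rintro ⟨h1, h2⟩
    exact hJ h2⟩
  map_add' u v := rfl
  map_smul' c u := rfl
  invFun v := ⟨fun p => if h : p.1.card = k - i then v.1 ⟨p.1, h⟩ p.2 else 0, by
    intro p hp
    change (if h : p.1.card = k - i then v.1 ⟨p.1, h⟩ p.2 else 0) = 0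
    by_cases h : p.1.card = k - i
    · rw [dif_pos h]
      refine v.2 ⟨p.1, h⟩ trivial p.2 ?_
      intro h3
      apply hp
      exact ⟨by omega, h3⟩
    · rw [dif_neg h]⟩
  left_inv u := by
    apply Subtype.ext
    funext p
    by_cases h : p.1.card = k - i
    · simp only [dif_pos h]
    · simp only [dif_neg h]
      exact (u.2 p (fun hh => h (by omega))).symm
  right_inv v := by
    apply Subtype.ext
    funext J I
    simp only [dif_pos J.2]

theorem td_ix1 [IsDomain R] [IsNoetherianRing R] [CharP R 2]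
    (F : R) {A : Type} [AddCommGroup A] (Θ : Inv R F A)
    (M M' : Matrix (Fin n) (Fin n) R) (b : ℕ)
    (hM : M' * M = F ^ b • (1 : Matrix (Fin n) (Fin n) R)) (k i : ℕ) (hik : i ≤ k) :
    ix Θ (tdP1 M) (TD R n k i) (TD R n k i)
      = Nat.choose n i • ix Θ (Phi M) (XD R n (k - i)) (XD R n (k - i)) := by
  rw [ix_equiv Θ (tdP1 M) (LinearMap.pi
      (fun κ : {J : Finset (Fin n) // J.card = i} => Phi M ∘ₗ LinearMap.proj κ))
    (TD R n k i) (TD R n k i)
    (Submodule.pi Set.univ (fun _ : {J : Finset (Fin n) // J.card = i} => XD R n (k - i)))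
    (Submodule.pi Set.univ (fun _ : {J : Finset (Fin n) // J.card = i} => XD R n (k - i)))
    (tdE1 k i hik) (tdE1 k i hik) (IsNoetherian.noetherian _) ?_ ?_ ?_]
  · rw [ix_pi Θ {J : Finset (Fin n) // J.card = i} (Phi M) (XD R n (k - i))
      (IsNoetherian.noetherian _) ?_ ?_]
    · rw [Fintype.card_finset_len, Fintype.card_fin]
    · rintro _ ⟨u, hu, rfl⟩
      exact td_phi_XD M _ u hu
    · refine ⟨b * (k - i), fun v hv => ?_⟩
      refine ⟨Phi M' v, td_phi_XD M' _ v hv, ?_⟩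
      funext I
      rw [td_phi_phi F b M M' hM, Pi.smul_apply, smul_eq_mul]
      by_cases hI : I.card = k - i
      · rw [hI, pow_mul]
      · rw [hv I hI, mul_zero, mul_zero]
  · rintro _ ⟨u, hu, rfl⟩
    exact td_P1_TD M k i u hu
  · refine ⟨b * (k - i), fun v hv => ?_⟩
    exact ⟨tdP1 M' v, td_P1_TD M' k i v hv, td_P1_P1 F b M M' hM k i v hv⟩
  · intro u h
    rfl

theorem td_ix2 [IsDomain R] [IsNoetherianRing R] [CharP R 2]
    (F : R) {A : Type} [AddCommGroup A] (Θ : Inv R F A)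
    (M M' : Matrix (Fin n) (Fin n) R) (b : ℕ)
    (hM : M' * M = F ^ b • (1 : Matrix (Fin n) (Fin n) R)) (k i : ℕ) (hik : i ≤ k) :
    ix Θ (tdP2 M) (TD R n k i) (TD R n k i)
      = Nat.choose n (k - i) • ix Θ (Phi M) (XD R n i) (XD R n i) := by
  rw [ix_equiv Θ (tdP2 M) (LinearMap.pi
      (fun κ : {J : Finset (Fin n) // J.card = k - i} => Phi M ∘ₗ LinearMap.proj κ))
    (TD R n k i) (TD R n k i)
    (Submodule.pi Set.univ (fun _ : {J : Finset (Fin n) // J.card = k - i} => XD R n i))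
    (Submodule.pi Set.univ (fun _ : {J : Finset (Fin n) // J.card = k - i} => XD R n i))
    (tdE2 k i hik) (tdE2 k i hik) (IsNoetherian.noetherian _) ?_ ?_ ?_]
  · rw [ix_pi Θ {J : Finset (Fin n) // J.card = k - i} (Phi M) (XD R n i)
      (IsNoetherian.noetherian _) ?_ ?_]
    · rw [Fintype.card_finset_len, Fintype.card_fin]
    · rintro _ ⟨u, hu, rfl⟩
      exact td_phi_XD M _ u hu
    · refine ⟨b * i, fun v hv => ?_⟩
      refine ⟨Phi M' v, td_phi_XD M' _ v hv, ?_⟩
      funext I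
      rw [td_phi_phi F b M M' hM, Pi.smul_apply, smul_eq_mul]
      by_cases hI : I.card = i
      · rw [hI, pow_mul]
      · rw [hv I hI, mul_zero, mul_zero]
  · rintro _ ⟨u, hu, rfl⟩
    exact td_P2_TD M k i u hu
  · refine ⟨b * i, fun v hv => ?_⟩
    exact ⟨tdP2 M' v, td_P2_TD M' k i v hv, td_P2_P2 F b M M' hM k i v hv⟩
  · intro u h
    rfl

end tdaux

/-- J64: the index on the bidegree pieces. -/
theorem ix_TD {R : Type} [CommRing R] [IsDomain R] [IsNoetherianRing R] [CharP R 2] (n : ℕ)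
    (F : R) (hF : F ≠ 0) {A : Type} [AddCommGroup A] (Θ : Inv R F A)
    (M M' : Matrix (Fin n) (Fin n) R) (b : ℕ)
    (hM : M' * M = F ^ b • (1 : Matrix (Fin n) (Fin n) R)) (k i : ℕ) (hik : i ≤ k) :
    ix Θ (Psi M) (TD R n k i) (TD R n k i)
      = Nat.choose n (k - i) • ix Θ (Phi M) (XD R n i) (XD R n i)
        + Nat.choose n i • ix Θ (Phi M) (XD R n (k - i)) (XD R n (k - i)) := by
  have hinj : Function.Injective (tdP1 M : (Finset (Fin n) × Finset (Fin n) → R) →ₗ[R] _) := by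
    intro u v huv
    funext p
    have h1 : Phi M (fun I' => u (I', p.2)) = Phi M (fun I' => v (I', p.2)) := by
      funext I
      exact congrFun huv (I, p.2)
    exact congrFun (td_phi_inj F hF b M M' hM h1) p.1
  rw [td_Psi, ix_comp Θ (tdP2 M) (tdP1 M) hinj (TD R n k i) (TD R n k i) (TD R n k i)
    (IsNoetherian.noetherian _) ?_ ?_ ?_, td_ix1 F Θ M M' b hM k i hik,
    td_ix2 F Θ M M' b hM k i hik, add_comm]
  · rintro _ ⟨u, hu, rfl⟩
    exact td_P2_TD M k i u hu
  · rintro _ ⟨u, hu, rfl⟩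
    exact td_P1_TD M k i u hu
  · refine ⟨b * i + b * (k - i), fun v hv => ?_⟩
    refine ⟨tdP2 M' (tdP1 M' v), td_P2_TD M' k i _ (td_P1_TD M' k i v hv), ?_⟩
    rw [LinearMap.comp_apply, td_P2_P2 F b M M' hM k i _ (td_P1_TD M' k i v hv), map_smul,
      td_P1_P1 F b M M' hM k i v hv, smul_smul, pow_add]


end S_ix_TD

alias ix_TD := S_ix_TD.ix_TD

end SF
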