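import Pool.Agent.Helper297.SF.Defs
set_option autoImplicit false
open MvPolynomial

namespace SF
namespace S_ix_comp
/-- J13 -/
theorem ix_comp {R : Type} [CommRing R] [IsNoetherianRing R] {F : R} {A : Type} [AddCommGroup A]
    (Θ : Inv R F A) {Y2 Y1 Y0 : Type} [AddCommGroup Y2] [Module R Y2] [AddCommGroup Y1]
    [Module R Y1] [AddCommGroup Y0] [Module R Y0]
    (f : Y2 →ₗ[R] Y1) (g : Y1 →ₗ[R] Y0) (hg : Function.Injective g)
    (S2 : Submodule R Y2) (S1 : Submodule R Y1) (S0 : Submodule R Y0)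
    (hfg : S0.FG) (h21 : S2.map f ≤ S1) (h10 : S1.map g ≤ S0)
    (htor : ∃ b : ℕ, ∀ v ∈ S0, F ^ b • v ∈ S2.map (g ∘ₗ f)) :
    ix Θ (g ∘ₗ f) S2 S0 = ix Θ g S1 S0 + ix Θ f S2 S1 := by
  unfold ix
  set N : Submodule R S0 := (S2.map (g ∘ₗ f)).submoduleOf S0 with hN
  set T : Submodule R S0 := (S1.map g).submoduleOf S0 with hT
  have hNT : N ≤ T := by
    rintro ⟨v, hv⟩ hvN
    change v ∈ S2.map (g ∘ₗ f) at hvN
    change v ∈ S1.map g
    obtain ⟨u, hu, rfl⟩ := hvN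
    exact ⟨f u, h21 ⟨u, hu, rfl⟩, rfl⟩
  haveI : Module.Finite R S0 := Module.Finite.iff_fg.2 hfg
  have htorQ : ∃ b : ℕ, ∀ v : S0 ⧸ N, F ^ b • v = 0 := by
    obtain ⟨b, hb⟩ := htor
    refine ⟨b, fun v => ?_⟩
    obtain ⟨w, rfl⟩ := N.mkQ_surjective v
    rw [← map_smul]
    rw [Submodule.mkQ_apply, Submodule.Quotient.mk_eq_zero]
    exact hb w.1 w.2
  have hfinQ : Module.Finite R (S0 ⧸ N) := inferInstance
  haveI : IsNoetherian R (S0 ⧸ N) := isNoetherian_of_isNoetherianRing_of_finite R _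
  rw [Θ.add (S0 ⧸ N) (T.map N.mkQ) hfinQ htorQ]
  have e1 : ((S0 ⧸ N) ⧸ T.map N.mkQ) ≃ₗ[R] (S0 ⧸ T) :=
    Submodule.quotientQuotientEquivQuotient N T hNT
  have h1 : Θ.th ((S0 ⧸ N) ⧸ T.map N.mkQ) = Θ.th (S0 ⧸ T) := by
    refine Θ.congr _ _ inferInstance ?_ e1
    obtain ⟨b, hb⟩ := htorQ
    refine ⟨b, fun v => ?_⟩
    obtain ⟨w, rfl⟩ := (T.map N.mkQ).mkQ_surjective v
    rw [← map_smul, hb, map_zero]
  rw [h1, add_comm]
  congr 1
  -- the submodule part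
  let g' : S1 →ₗ[R] S0 := (g.comp S1.subtype).codRestrict S0 (fun x => h10 ⟨x.1, x.2, rfl⟩)
  let φ : S1 →ₗ[R] (S0 ⧸ N) := N.mkQ.comp g'
  have hker : LinearMap.ker φ = (S2.map f).submoduleOf S1 := by
    ext x
    rw [LinearMap.mem_ker]
    change N.mkQ (g' x) = 0 ↔ x.1 ∈ S2.map f
    rw [Submodule.mkQ_apply, Submodule.Quotient.mk_eq_zero]
    change g x.1 ∈ S2.map (g ∘ₗ f) ↔ _
    constructor
    · rintro ⟨u, hu, h⟩
      exact ⟨u, hu, hg h⟩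
    · rintro ⟨u, hu, h⟩
      exact ⟨u, hu, by rw [← h]; rfl⟩
  have hrange : LinearMap.range φ = T.map N.mkQ := by
    rw [LinearMap.range_comp]
    congr 1
    ext y
    constructor
    · rintro ⟨x, rfl⟩
      exact ⟨x.1, x.2, rfl⟩
    · rintro hy
      change y.1 ∈ S1.map g at hy
      obtain ⟨x, hx, h⟩ := hy
      exact ⟨⟨x, hx⟩, Subtype.ext h⟩
  have e2 : ↥(T.map N.mkQ) ≃ₗ[R] (↥S1 ⧸ (S2.map f).submoduleOf S1) :=
    (LinearEquiv.ofEq _ _ hrange.symm).trans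
      (φ.quotKerEquivRange.symm.trans (Submodule.quotEquivOfEq _ _ hker))
  refine Θ.congr _ _ inferInstance ?_ e2
  obtain ⟨b, hb⟩ := htorQ
  refine ⟨b, fun v => ?_⟩
  apply Subtype.ext
  rw [Submodule.coe_smul, hb]
  rfl



end S_ix_comp

alias ix_comp := S_ix_comp.ix_comp

end SF
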