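import Pool.Agent.Helper297.SF.Defs
set_option autoImplicit false
open MvPolynomial

namespace SF
namespace S_ix_equiv
/-- J14 -/
theorem ix_equiv {R : Type} [CommRing R] [IsNoetherianRing R] {F : R} {A : Type} [AddCommGroup A]
    (Θ : Inv R F A) {Y2 Y1 Z2 Z1 : Type} [AddCommGroup Y2] [Module R Y2] [AddCommGroup Y1]
    [Module R Y1] [AddCommGroup Z2] [Module R Z2] [AddCommGroup Z1] [Module R Z1]
    (f : Y2 →ₗ[R] Y1) (f' : Z2 →ₗ[R] Z1)
    (S2 : Submodule R Y2) (S1 : Submodule R Y1) (T2 : Submodule R Z2) (T1 : Submodule R Z1)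
    (e2 : S2 ≃ₗ[R] T2) (e1 : S1 ≃ₗ[R] T1)
    (hfg : S1.FG) (hS : S2.map f ≤ S1) (htor : ∃ b : ℕ, ∀ v ∈ S1, F ^ b • v ∈ S2.map f)
    (hcomm : ∀ u : S2, ∀ h : f u ∈ S1, (e1 ⟨f u, h⟩ : Z1) = f' (e2 u)) :
    ix Θ f S2 S1 = ix Θ f' T2 T1 := by
  have key : ((S2.map f).submoduleOf S1).map (e1 : S1 →ₗ[R] T1) = (T2.map f').submoduleOf T1 := by
    ext z
    simp only [Submodule.mem_map, Submodule.submoduleOf, Submodule.mem_comap,
      Submodule.subtype_apply, LinearEquiv.coe_coe]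
    constructor
    · rintro ⟨y, ⟨u, hu, huy⟩, rfl⟩
      refine ⟨e2 ⟨u, hu⟩, (e2 ⟨u, hu⟩).2, ?_⟩
      have h : f (⟨u, hu⟩ : S2) ∈ S1 := by
        change f u ∈ S1
        rw [huy]
        exact y.2
      rw [← hcomm ⟨u, hu⟩ h]
      congr 2
      exact Subtype.ext huy
    · rintro ⟨w, hw, hwz⟩
      obtain ⟨u, hu⟩ := e2.surjective ⟨w, hw⟩
      have h : f (u : Y2) ∈ S1 := hS ⟨u, u.2, rfl⟩
      refine ⟨⟨f u, h⟩, ⟨u, u.2, rfl⟩, ?_⟩
      apply Subtype.ext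
      rw [hcomm u h, hu]
      exact hwz
  unfold ix
  haveI : Module.Finite R S1 := Module.Finite.iff_fg.mpr hfg
  refine Θ.congr _ _ inferInstance ?_ (Submodule.Quotient.equiv _ _ e1 key)
  obtain ⟨b, hb⟩ := htor
  refine ⟨b, fun v => ?_⟩
  obtain ⟨y, rfl⟩ := Submodule.Quotient.mk_surjective _ v
  rw [← Submodule.Quotient.mk_smul, Submodule.Quotient.mk_eq_zero]
  simp only [Submodule.submoduleOf, Submodule.mem_comap, Submodule.subtype_apply]
  exact hb y y.2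


end S_ix_equiv

alias ix_equiv := S_ix_equiv.ix_equiv

end SF
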