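import Pool.Agent.Helper297.SF.Defs
set_option autoImplicit false
open MvPolynomial

namespace SF
namespace S_ix_pairs
/-- J12 -/
theorem ix_pairs {R : Type} [CommRing R] [IsNoetherianRing R] {F : R} {A : Type} [AddCommGroup A]
    (Θ : Inv R F A) {Y2 Y1 Z2 Z1 : Type} [AddCommGroup Y2] [Module R Y2] [AddCommGroup Y1]
    [Module R Y1] [AddCommGroup Z2] [Module R Z2] [AddCommGroup Z1] [Module R Z1]
    (f : Y2 →ₗ[R] Y1) (f' : Z2 →ₗ[R] Z1) (hf' : Function.Injective f')
    (d1 : Y1 →ₗ[R] Z1) (d2 : Y2 →ₗ[R] Z2) (S2 : Submodule R Y2) (S1 : Submodule R Y1)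
    (hfg : S1.FG) (hS : S2.map f ≤ S1) (htor : ∃ b : ℕ, ∀ v ∈ S1, F ^ b • v ∈ S2.map f)
    (hcomm : ∀ u ∈ S2, d1 (f u) = f' (d2 u)) :
    ix Θ f S2 S1 = ix Θ f (S2 ⊓ LinearMap.ker d2) (S1 ⊓ LinearMap.ker d1)
      + ix Θ f' (S2.map d2) (S1.map d1) := by
  have : Module.Finite R S1 := Module.Finite.iff_fg.2 hfg
  obtain ⟨b, hb⟩ := htor
  have hQtor : ∀ v : (↥S1 ⧸ (S2.map f).submoduleOf S1), F ^ b • v = 0 := by
    intro v
    obtain ⟨x, rfl⟩ := Submodule.mkQ_surjective _ v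
    rw [← map_smul, Submodule.mkQ_apply, Submodule.Quotient.mk_eq_zero]
    exact hb x x.2
  let dr : S1 →ₗ[R] (S1.map d1) := d1.restrict (fun x hx => Submodule.mem_map_of_mem hx)
  have hdr : ∀ x : S1, ((dr x : S1.map d1) : Z1) = d1 x := fun x => rfl
  let g : S1 →ₗ[R] (↥(S1.map d1) ⧸ ((S2.map d2).map f').submoduleOf (S1.map d1)) :=
    (Submodule.mkQ _) ∘ₗ dr
  have hg0 : ∀ x : S1, g x = 0 ↔ d1 x ∈ (S2.map d2).map f' := by
    intro x
    simp only [g, LinearMap.comp_apply, Submodule.mkQ_apply, Submodule.Quotient.mk_eq_zero]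
    exact Iff.rfl
  have hN : (S2.map f).submoduleOf S1 ≤ LinearMap.ker g := by
    intro x hx
    rw [LinearMap.mem_ker, hg0]
    obtain ⟨u, hu, hux⟩ := (Submodule.mem_map.1 (show (x : Y1) ∈ S2.map f from hx))
    rw [← hux, hcomm u hu]
    exact Submodule.mem_map_of_mem (Submodule.mem_map_of_mem hu)
  let gb := ((S2.map f).submoduleOf S1).liftQ g hN
  have hsurj : Function.Surjective gb := by
    intro y
    obtain ⟨z, rfl⟩ := Submodule.mkQ_surjective _ y
    obtain ⟨x, hx, hxz⟩ := Submodule.mem_map.1 z.2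
    refine ⟨Submodule.mkQ _ (⟨x, hx⟩ : S1), ?_⟩
    simp only [gb, Submodule.mkQ_apply, Submodule.liftQ_apply, g, LinearMap.comp_apply]
    congr 1
    exact Subtype.ext hxz
  let k : ↥(S1 ⊓ LinearMap.ker d1) →ₗ[R] (↥S1 ⧸ (S2.map f).submoduleOf S1) :=
    (Submodule.mkQ _) ∘ₗ (Submodule.inclusion inf_le_left)
  have hk0 : ∀ x, k x = 0 ↔ (x : Y1) ∈ S2.map f := by
    intro x
    simp only [k, LinearMap.comp_apply, Submodule.mkQ_apply, Submodule.Quotient.mk_eq_zero]
    exact Iff.rfl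
  have hrange : LinearMap.range k = LinearMap.ker gb := by
    ext v
    constructor
    · rintro ⟨x, rfl⟩
      rw [LinearMap.mem_ker]
      simp only [k, gb, LinearMap.comp_apply, Submodule.mkQ_apply, Submodule.liftQ_apply]
      rw [hg0]
      have : d1 (x : Y1) = 0 := x.2.2
      have h2 : d1 ((Submodule.inclusion (inf_le_left : S1 ⊓ LinearMap.ker d1 ≤ S1) x : S1) : Y1) = 0 := this
      rw [h2]
      exact Submodule.zero_mem _
    · intro hv
      obtain ⟨x, rfl⟩ := Submodule.mkQ_surjective _ v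
      rw [LinearMap.mem_ker] at hv
      simp only [gb, Submodule.mkQ_apply, Submodule.liftQ_apply] at hv
      rw [hg0] at hv
      obtain ⟨w, hw, hwx⟩ := Submodule.mem_map.1 hv
      obtain ⟨u, hu, rfl⟩ := Submodule.mem_map.1 hw
      have hfu : f u ∈ S1 := hS (Submodule.mem_map_of_mem hu)
      refine ⟨⟨(x : Y1) - f u, Submodule.sub_mem _ x.2 hfu, ?_⟩, ?_⟩
      · show d1 ((x : Y1) - f u) = 0
        rw [map_sub, hcomm u hu, hwx, sub_self]
      · simp only [k, LinearMap.comp_apply, Submodule.mkQ_apply]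
        rw [Submodule.Quotient.eq]
        show ((x : Y1) - f u) - (x : Y1) ∈ S2.map f
        have : ((x : Y1) - f u) - (x : Y1) = f (-u) := by rw [map_neg]; abel
        rw [this]
        exact Submodule.mem_map_of_mem (Submodule.neg_mem _ hu)
  have hker : LinearMap.ker k = ((S2 ⊓ LinearMap.ker d2).map f).submoduleOf (S1 ⊓ LinearMap.ker d1) := by
    ext x
    rw [LinearMap.mem_ker, hk0]
    constructor
    · intro hx
      obtain ⟨u, hu, hux⟩ := Submodule.mem_map.1 hx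
      show (x : Y1) ∈ (S2 ⊓ LinearMap.ker d2).map f
      rw [← hux]
      refine Submodule.mem_map_of_mem ⟨hu, ?_⟩
      have h1 : d1 (x : Y1) = 0 := x.2.2
      rw [← hux, hcomm u hu] at h1
      show d2 u = 0
      exact hf' (by rw [h1, map_zero])
    · intro hx
      obtain ⟨u, hu, hux⟩ := Submodule.mem_map.1 (show (x : Y1) ∈ (S2 ⊓ LinearMap.ker d2).map f from hx)
      rw [← hux]
      exact Submodule.mem_map_of_mem hu.1
  unfold ix
  rw [Θ.add (↥S1 ⧸ (S2.map f).submoduleOf S1) (LinearMap.ker gb) inferInstance ⟨b, hQtor⟩]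
  congr 1
  · refine Θ.congr _ _ inferInstance ⟨b, fun v => Subtype.ext (hQtor v)⟩ ?_
    exact (LinearEquiv.ofEq _ _ hrange.symm).trans
      (k.quotKerEquivRange.symm.trans (Submodule.quotEquivOfEq _ _ hker))
  · refine Θ.congr _ _ inferInstance ⟨b, fun v => ?_⟩ (gb.quotKerEquivOfSurjective hsurj)
    obtain ⟨x, rfl⟩ := Submodule.mkQ_surjective _ v
    rw [← map_smul, hQtor, map_zero]


end S_ix_pairs

alias ix_pairs := S_ix_pairs.ix_pairs

end SF
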