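import Pool.Agent.Helper297.SF.Defs
set_option autoImplicit false
open MvPolynomial

namespace SF
namespace S_ix_pi
theorem ix_pi_zero {R : Type} [CommRing R] {F : R} {A : Type} [AddCommGroup A]
    (Θ : Inv R F A) (N : Type) [AddCommGroup N] [Module R N] [Subsingleton N] : Θ.th N = 0 := by
  have hfin : Module.Finite R N := inferInstance
  have htor : ∃ b : ℕ, ∀ v : N, F ^ b • v = 0 := ⟨0, fun v => Subsingleton.elim _ _⟩
  have h1 := Θ.add N ⊤ hfin htor
  have hs : Subsingleton (N ⧸ (⊤ : Submodule R N)) :=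
    Submodule.Quotient.subsingleton_iff.2 rfl
  have e1 := Θ.congr N (⊤ : Submodule R N) hfin htor Submodule.topEquiv.symm
  have e2 := Θ.congr N (N ⧸ (⊤ : Submodule R N)) hfin htor (0 : N ≃ₗ[R] (N ⧸ (⊤ : Submodule R N)))
  rw [← e1, ← e2] at h1
  exact left_eq_add.1 h1

theorem ix_pi_prod {R : Type} [CommRing R] {F : R} {A : Type} [AddCommGroup A]
    (Θ : Inv R F A) (M N : Type) [AddCommGroup M] [Module R M] [AddCommGroup N] [Module R N]
    (hM : Module.Finite R M) (hN : Module.Finite R N) (b : ℕ) (h1 : ∀ v : M, F ^ b • v = 0)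
    (h2 : ∀ v : N, F ^ b • v = 0) : Θ.th (M × N) = Θ.th M + Θ.th N := by
  have hfin : Module.Finite R (M × N) := inferInstance
  have htor : ∃ b : ℕ, ∀ v : M × N, F ^ b • v = 0 := ⟨b, fun v => Prod.ext (h1 v.1) (h2 v.2)⟩
  have h3 := Θ.add (M × N) (LinearMap.ker (LinearMap.snd R M N)) hfin htor
  have e1 : M ≃ₗ[R] LinearMap.ker (LinearMap.snd R M N) :=
    (LinearEquiv.ofInjective (LinearMap.inl R M N) LinearMap.inl_injective).trans
      (LinearEquiv.ofEq _ _ (LinearMap.ker_snd R M N).symm)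
  have e2 : N ≃ₗ[R] ((M × N) ⧸ LinearMap.ker (LinearMap.snd R M N)) :=
    (LinearMap.quotKerEquivOfSurjective (LinearMap.snd R M N) LinearMap.snd_surjective).symm
  rw [h3, ← Θ.congr M _ hM ⟨b, h1⟩ e1, ← Θ.congr N _ hN ⟨b, h2⟩ e2]

theorem ix_pi_pow {R : Type} [CommRing R] {F : R} {A : Type} [AddCommGroup A]
    (Θ : Inv R F A) (M : Type) [AddCommGroup M] [Module R M]
    (hM : Module.Finite R M) (b : ℕ) (h1 : ∀ v : M, F ^ b • v = 0) (κ : Type) [Fintype κ] :
    Θ.th (κ → M) = Fintype.card κ • Θ.th M := by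
  have htor : ∀ (α : Type), ∃ b : ℕ, ∀ v : (α → M), F ^ b • v = 0 := fun α =>
    ⟨b, fun v => funext fun a => h1 (v a)⟩
  refine Fintype.induction_empty_option
    (P := fun κ inst => Θ.th (κ → M) = @Fintype.card κ inst • Θ.th M) ?_ ?_ ?_ κ
  · intro α β _ e ih
    letI : Fintype α := Fintype.ofEquiv β e.symm
    have e1 : (α → M) ≃ₗ[R] (β → M) := LinearEquiv.funCongrLeft R M e.symm
    rw [← Θ.congr (α → M) (β → M) inferInstance (htor α) e1, ih]
    congr 1
    exact Fintype.card_congr e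
  · rw [ix_pi_zero Θ (PEmpty → M), Fintype.card_pempty, zero_smul]
  · intro α _ ih
    have e1 : (Option α → M) ≃ₗ[R] M × (α → M) := LinearEquiv.piOptionEquivProd R
    rw [Θ.congr (Option α → M) (M × (α → M)) inferInstance (htor _) e1,
      ix_pi_prod Θ M (α → M) hM inferInstance b h1 (fun v => funext fun a => h1 (v a)), ih,
      Fintype.card_option, add_smul, one_smul, add_comm]

/-- J15: the index of a finite direct power. -/
theorem ix_pi {R : Type} [CommRing R] [IsNoetherianRing R] {F : R} {A : Type} [AddCommGroup A]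
    (Θ : Inv R F A) {Y : Type} [AddCommGroup Y] [Module R Y] (κ : Type) [Fintype κ]
    (f : Y →ₗ[R] Y) (S : Submodule R Y) (hfg : S.FG) (hS : S.map f ≤ S)
    (htor : ∃ b : ℕ, ∀ v ∈ S, F ^ b • v ∈ S.map f) :
    ix Θ (LinearMap.pi (fun k : κ => f ∘ₗ LinearMap.proj k)) (Submodule.pi Set.univ (fun _ : κ => S))
      (Submodule.pi Set.univ (fun _ : κ => S)) = Fintype.card κ • ix Θ f S S := by
  classical
  obtain ⟨b, hb⟩ := htor
  have hSfin : Module.Finite R S := Module.Finite.iff_fg.2 hfg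
  have hQfin : Module.Finite R (↥S ⧸ (S.map f).submoduleOf S) := inferInstance
  have hQtor : ∀ v : (↥S ⧸ (S.map f).submoduleOf S), F ^ b • v = 0 := by
    intro v
    obtain ⟨x, rfl⟩ := Submodule.mkQ_surjective _ v
    rw [← map_smul, Submodule.mkQ_apply, Submodule.Quotient.mk_eq_zero]
    exact hb x.1 x.2
  unfold ix
  rw [← ix_pi_pow Θ (↥S ⧸ (S.map f).submoduleOf S) hQfin b hQtor κ]
  symm
  let PS : Submodule R (κ → Y) := Submodule.pi Set.univ (fun _ : κ => S)
  let G : ↥PS →ₗ[R] (κ → (↥S ⧸ (S.map f).submoduleOf S)) :=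
    LinearMap.pi (fun k => (Submodule.mkQ _).comp
      (LinearMap.codRestrict S ((LinearMap.proj k).comp PS.subtype)
        (fun v => v.2 k (Set.mem_univ k))))
  have hG : Function.Surjective G := by
    intro q
    have h1 : ∀ k, ∃ x : S, Submodule.mkQ ((S.map f).submoduleOf S) x = q k := fun k =>
      Submodule.mkQ_surjective _ (q k)
    choose x hx using h1
    refine ⟨⟨fun k => (x k : Y), fun k _ => (x k).2⟩, ?_⟩
    funext k
    exact hx k
  have hker : LinearMap.ker G = ((PS.map (LinearMap.pi (fun k : κ => f ∘ₗ LinearMap.proj k))).submoduleOf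
      PS) := by
    ext v
    rw [LinearMap.mem_ker]
    show G v = 0 ↔ (v : κ → Y) ∈ PS.map (LinearMap.pi (fun k : κ => f ∘ₗ LinearMap.proj k))
    rw [Submodule.mem_map]
    constructor
    · intro h
      have h1 : ∀ k, ∃ y ∈ S, f y = (v : κ → Y) k := by
        intro k
        have h2 := congrFun h k
        have h3 : Submodule.mkQ ((S.map f).submoduleOf S)
            ⟨(v : κ → Y) k, v.2 k (Set.mem_univ k)⟩ = 0 := h2
        rw [Submodule.mkQ_apply, Submodule.Quotient.mk_eq_zero] at h3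
        exact h3
      choose w hw hfw using h1
      refine ⟨w, fun k _ => hw k, ?_⟩
      funext k
      exact hfw k
    · rintro ⟨w, hw, hwv⟩
      funext k
      show Submodule.mkQ ((S.map f).submoduleOf S) ⟨(v : κ → Y) k, v.2 k (Set.mem_univ k)⟩ = 0
      rw [Submodule.mkQ_apply, Submodule.Quotient.mk_eq_zero]
      exact ⟨w k, hw k (Set.mem_univ k), congrFun hwv k⟩
  have e := ((Submodule.quotEquivOfEq _ _ hker).symm.trans
    (G.quotKerEquivOfSurjective hG)).symm
  exact Θ.congr _ _ inferInstance ⟨b, fun v => funext fun a => hQtor (v a)⟩ e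


end S_ix_pi

alias ix_pi := S_ix_pi.ix_pi

end SF
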