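import Pool.Agent.Helper297.SF.Defs
set_option autoImplicit false
open MvPolynomial

namespace SF
namespace S_ker_row
/-- J76: the kernel of a unimodular row. -/
theorem ker_row {A : Type} [CommRing A] [Nontrivial A] (m : ℕ) (x w : Fin (m + 1) → A)
    (hxw : ∑ i, w i * x i = 1) :
    Module.Finite A (LinearMap.ker (Fintype.linearCombination A x)) ∧
    Module.Projective A (LinearMap.ker (Fintype.linearCombination A x)) ∧
    (∀ p : PrimeSpectrum A,
      Module.rankAtStalk (LinearMap.ker (Fintype.linearCombination A x)) p = m) ∧
    Nonempty ((LinearMap.ker (Fintype.linearCombination A x) × (Fin 1 → A)) ≃ₗ[A]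
      (Fin (m + 1) → A)) := by
  set L := Fintype.linearCombination A x with hL
  have hLw : L w = 1 := by
    rw [hL, Fintype.linearCombination_apply]
    simpa only [smul_eq_mul] using hxw
  have hr0 : ∀ v, v - L v • w ∈ LinearMap.ker L := by
    intro v
    rw [LinearMap.mem_ker, map_sub, map_smul, hLw, smul_eq_mul, mul_one, sub_self]
  let r : (Fin (m + 1) → A) →ₗ[A] LinearMap.ker L :=
    { toFun := fun v => ⟨v - L v • w, hr0 v⟩
      map_add' := by
        intro u v
        apply Subtype.ext
        show (u + v) - L (u + v) • w = (u - L u • w) + (v - L v • w)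
        rw [map_add, add_smul]
        abel
      map_smul' := by
        intro c v
        apply Subtype.ext
        show (c • v) - L (c • v) • w = c • (v - L v • w)
        rw [map_smul, smul_sub, smul_eq_mul, mul_smul] }
  have hri : r.comp (LinearMap.ker L).subtype = LinearMap.id := by
    apply LinearMap.ext
    intro v
    apply Subtype.ext
    show v.1 - L v.1 • w = v.1
    have : L v.1 = 0 := LinearMap.mem_ker.1 v.2
    rw [this, zero_smul, sub_zero]
  have hsurj : Function.Surjective r := by
    intro v
    exact ⟨v.1, by
      have := LinearMap.congr_fun hri v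
      exact this⟩
  have hfin : Module.Finite A (LinearMap.ker L) := Module.Finite.of_surjective r hsurj
  have hproj : Module.Projective A (LinearMap.ker L) :=
    Module.Projective.of_split (LinearMap.ker L).subtype r hri
  let e : (LinearMap.ker L × (Fin 1 → A)) ≃ₗ[A] (Fin (m + 1) → A) :=
    { toFun := fun p => p.1.1 + p.2 0 • w
      map_add' := by
        intro p q
        show (p.1.1 + q.1.1) + (p.2 0 + q.2 0) • w = (p.1.1 + p.2 0 • w) + (q.1.1 + q.2 0 • w)
        rw [add_smul]
        abel
      map_smul' := by
        intro c p
        show (c • p.1.1) + (c • p.2 0) • w = c • (p.1.1 + p.2 0 • w)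
        rw [smul_add, smul_assoc]
      invFun := fun v => (r v, fun _ => L v)
      left_inv := by
        intro p
        have h1 : L (p.1.1 + p.2 0 • w) = p.2 0 := by
          rw [map_add, map_smul, hLw, LinearMap.mem_ker.1 p.1.2, smul_eq_mul, mul_one, zero_add]
        apply Prod.ext
        · apply Subtype.ext
          show (p.1.1 + p.2 0 • w) - L (p.1.1 + p.2 0 • w) • w = p.1.1
          rw [h1, add_sub_cancel_right]
        · funext i
          show L (p.1.1 + p.2 0 • w) = p.2 i
          rw [h1, Subsingleton.elim i 0]
      right_inv := by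
        intro v
        show (v - L v • w) + L v • w = v
        rw [sub_add_cancel] }
  refine ⟨hfin, hproj, ?_, ⟨e⟩⟩
  intro p
  have h1 := Module.rankAtStalk_eq_of_equiv (R := A) e
  have h2 := Module.rankAtStalk_prod (R := A) (LinearMap.ker L) (Fin 1 → A)
  have h4 : Module.rankAtStalk (R := A) (Fin 1 → A) = ((1 : ℕ) : PrimeSpectrum A → ℕ) := by
    rw [Module.rankAtStalk_eq_finrank_of_free, Module.finrank_fin_fun]
  have h5 : Module.rankAtStalk (R := A) (Fin (m + 1) → A) = ((m + 1 : ℕ) : PrimeSpectrum A → ℕ) := by
    rw [Module.rankAtStalk_eq_finrank_of_free, Module.finrank_fin_fun]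
  rw [h2, h4, h5] at h1
  have h3 := congrFun h1 p
  simp only [Pi.add_apply, Pi.natCast_apply] at h3
  simp only [Nat.cast_id] at h3
  omega


end S_ker_row

alias ker_row := S_ker_row.ker_row

end SF
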