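import Pool.Agent.Helper297.SF.Defs
set_option autoImplicit false
open MvPolynomial

namespace SF
namespace S_krull_away
theorem eq_zero_of_pow_eq_zero' {k : Type} [Field k] {x : k} {m : ℕ} (h : x ^ m = 0) : x = 0 := by
  by_contra hx
  exact pow_ne_zero m hx h

/-- J73: dimension of a principal open subset of affine space. -/
theorem krull_away (k : Type) [Field k] [IsAlgClosed k] (n : ℕ) (F : MvPolynomial (Fin n) k)
    (hF : F ≠ 0) : ringKrullDim (Localization.Away F) = n := by
  have hdim : ringKrullDim (MvPolynomial (Fin n) k) = (n : WithBot ℕ∞) := by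
    rw [MvPolynomial.ringKrullDim_of_isNoetherianRing, ringKrullDim_eq_zero_of_field]
    simp
  apply le_antisymm
  · rw [ringKrullDim_le_iff_height_le]
    intro J hJ
    rw [← IsLocalization.height_under (Submonoid.powers F), ← hdim]
    exact Ideal.height_le_ringKrullDim_of_isPrime
  · obtain ⟨b, hb⟩ : ∃ b : Fin n → k, eval b F ≠ 0 := by
      by_contra hcon
      push Not at hcon
      apply hF
      apply MvPolynomial.funext
      intro b
      rw [hcon b, map_zero]
    have hfin : FiniteRingKrullDim (MvPolynomial (Fin n) k) := by
      rw [finiteRingKrullDim_iff_ne_bot_and_top, hdim]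
      constructor
      · exact WithBot.natCast_ne_bot n
      · intro h
        have h' : ((n : ℕ∞) : WithBot ℕ∞) = ((⊤ : ℕ∞) : WithBot ℕ∞) := h
        exact ENat.natCast_ne_top n (WithBot.coe_injective h')
    obtain ⟨Mx, hmax, hht⟩ := Ideal.exists_isMaximal_height (R := MvPolynomial (Fin n) k)
    obtain ⟨a, ha⟩ := (isMaximal_iff_eq_vanishingIdeal_singleton).1 hmax
    let g : MvPolynomial (Fin n) k ≃ₐ[k] MvPolynomial (Fin n) k :=
      AlgEquiv.ofAlgHom (aeval fun i => X i + C (b i - a i)) (aeval fun i => X i - C (b i - a i))
        (by
          apply MvPolynomial.algHom_ext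
          intro i
          simp)
        (by
          apply MvPolynomial.algHom_ext
          intro i
          simp)
    have hev : ∀ f : MvPolynomial (Fin n) k, aeval a (g f) = aeval b f := by
      intro f
      have h1 : (aeval a : MvPolynomial (Fin n) k →ₐ[k] k).comp (g : MvPolynomial (Fin n) k →ₐ[k] _) =
          aeval b := by
        apply MvPolynomial.algHom_ext
        intro i
        simp [g]
      exact DFunLike.congr_fun h1 f
    have hcomap : Mx.comap g.toRingEquiv = vanishingIdeal k {b} := by
      ext f
      rw [Ideal.mem_comap, ha, mem_vanishingIdeal_iff, mem_vanishingIdeal_iff]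
      simp only [Set.mem_singleton_iff, forall_eq]
      have := hev f
      constructor
      · intro h
        rw [← this]
        exact h
      · intro h
        rw [← this] at h
        exact h
    have hpb : (vanishingIdeal k ({b} : Set (Fin n → k))).IsPrime :=
      ((isMaximal_iff_eq_vanishingIdeal_singleton).2 ⟨b, rfl⟩).isPrime
    have hhb : (vanishingIdeal k ({b} : Set (Fin n → k))).height = Mx.height := by
      rw [← hcomap, RingEquiv.height_comap]
    have hdisj : Disjoint (Submonoid.powers F : Set (MvPolynomial (Fin n) k))
        (vanishingIdeal k ({b} : Set (Fin n → k)) : Set (MvPolynomial (Fin n) k)) := by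
      rw [Set.disjoint_left]
      rintro _ ⟨m, rfl⟩ hm
      have h1 := (mem_vanishingIdeal_iff.1 hm) b rfl
      have h2 : (eval b F) ^ m = 0 := by
        rw [← map_pow]
        exact h1
      exact hb (eq_zero_of_pow_eq_zero' h2)
    have h3 := IsLocalization.height_map_of_disjoint (S := Localization.Away F)
      (Submonoid.powers F) (vanishingIdeal k ({b} : Set (Fin n → k))) hdisj
    have hpJ : ((vanishingIdeal k ({b} : Set (Fin n → k))).map
        (algebraMap (MvPolynomial (Fin n) k) (Localization.Away F))).IsPrime :=
      IsLocalization.isPrime_of_isPrime_disjoint (Submonoid.powers F) _ _ hpb hdisj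
    calc (n : WithBot ℕ∞) = (Mx.height : WithBot ℕ∞) := by rw [hht, hdim]
      _ = (((vanishingIdeal k ({b} : Set (Fin n → k))).map
        (algebraMap (MvPolynomial (Fin n) k) (Localization.Away F))).height : WithBot ℕ∞) := by
          rw [h3, hhb]
      _ ≤ ringKrullDim (Localization.Away F) := Ideal.height_le_ringKrullDim_of_isPrime


end S_krull_away

alias krull_away := S_krull_away.krull_away

end SF
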