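import Pool.Agent.Helper297.SF.Defs
set_option autoImplicit false
open MvPolynomial

namespace SF
namespace S_krull_awayp
/-- J74: dimension of a principal open subset of affine space, over `k[t]`. -/
theorem krull_away' (k : Type) [Field k] [IsAlgClosed k]
    (H : ∀ (n : ℕ) (F : MvPolynomial (Fin n) k), F ≠ 0 → ringKrullDim (Localization.Away F) = n)
    (n : ℕ) (F : MvPolynomial (Fin n) (Polynomial k))
    (hF : F ≠ 0) : ringKrullDim (Localization.Away F) = (n + 1 : ℕ) := by
  classical
  let e1 : MvPolynomial (Fin n) (Polynomial k) ≃+* MvPolynomial (Fin n) (MvPolynomial Unit k) :=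
    MvPolynomial.mapEquiv (Fin n) (MvPolynomial.pUnitAlgEquiv k).symm.toRingEquiv
  let e2 : MvPolynomial (Fin n) (MvPolynomial Unit k) ≃+* MvPolynomial (Fin n ⊕ Unit) k :=
    (MvPolynomial.sumRingEquiv k (Fin n) Unit).symm
  let e3 : MvPolynomial (Fin n ⊕ Unit) k ≃+* MvPolynomial (Fin (n + 1)) k :=
    (MvPolynomial.renameEquiv k (Fintype.equivOfCardEq (by simp))).toRingEquiv
  let e : MvPolynomial (Fin n) (Polynomial k) ≃+* MvPolynomial (Fin (n + 1)) k :=
    (e1.trans e2).trans e3
  have hne : e F ≠ 0 := by
    intro h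
    apply hF
    exact e.injective (by rw [h, map_zero])
  have hM : (Submonoid.powers F).map e.toMonoidHom = Submonoid.powers (e F) := by
    rw [Submonoid.map_powers]
    rfl
  have e4 : Localization.Away F ≃+* Localization.Away (e F) :=
    IsLocalization.ringEquivOfRingEquiv (M := Submonoid.powers F) (T := Submonoid.powers (e F))
      (Localization.Away F) (Localization.Away (e F)) e hM
  rw [ringKrullDim_eq_of_ringEquiv e4]
  exact H (n + 1) (e F) hne


end S_krull_awayp

alias krull_away' := S_krull_awayp.krull_away'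

end SF
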