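import Pool.Agent.Helper297.SF.Defs
set_option autoImplicit false
open MvPolynomial

namespace SF
namespace S_lap_col
theorem lap_col_Yf {R : Type} [CommRing R] {n : ℕ} (M : Matrix (Fin n) (Fin n) R)
    (i j : Fin n) : pderiv i (Yf M j) = C (M j i) := by
  unfold Yf
  rw [map_sum, Finset.sum_eq_single i]
  · rw [pderiv_C_mul, pderiv_X_self, mul_one]
  · intro b _ hb
    rw [pderiv_C_mul, pderiv_X_of_ne hb, mul_zero]
  · intro h
    exact absurd (Finset.mem_univ i) h

theorem lap_col_pd {R : Type} [CommRing R] {n : ℕ} (M : Matrix (Fin n) (Fin n) R)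
    (i : Fin n) (J : Finset (Fin n)) :
    pderiv i (∏ j ∈ J, Yf M j) = ∑ j ∈ J, C (M j i) * ∏ k ∈ J.erase j, Yf M k := by
  induction J using Finset.induction_on with
  | empty => simp
  | insert a s ha ih =>
    rw [Finset.prod_insert ha, pderiv_mul, lap_col_Yf, ih, Finset.sum_insert ha,
      Finset.erase_insert ha, Finset.mul_sum]
    congr 1
    refine Finset.sum_congr rfl (fun j hj => ?_)
    have hja : a ≠ j := fun h => ha (h ▸ hj)
    rw [Finset.erase_insert_of_ne hja, Finset.prod_insert (fun h => ha (Finset.mem_of_mem_erase h))]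
    ring

theorem lap_col_mon {n : ℕ} (I : Finset (Fin n)) (i : Fin n) :
    mon I i = if i ∈ I then 1 else 0 := by
  unfold mon
  rw [Finsupp.finset_sum_apply]
  simp [Finsupp.single_apply]

/-- J22 -/
theorem lap_col {R : Type} [CommRing R] [CharP R 2] (n : ℕ) (M : Matrix (Fin n) (Fin n) R)
    (i : Fin n) (J I : Finset (Fin n)) :
    ∑ j ∈ J, M j i * cm M (J.erase j) I = if i ∈ I then 0 else cm M J (insert i I) := by
  have h1 : coeff (mon I) (pderiv i (∏ j ∈ J, Yf M j)) =
      ∑ j ∈ J, M j i * cm M (J.erase j) I := by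
    rw [lap_col_pd, coeff_sum]
    refine Finset.sum_congr rfl (fun j _ => ?_)
    rw [coeff_C_mul]
    rfl
  rw [← h1, coeff_pderiv, lap_col_mon]
  by_cases hi : i ∈ I
  · rw [if_pos hi, if_pos hi]
    have h2 : ((1 : ℕ) : R) + 1 = 0 := by
      rw [Nat.cast_one]; exact CharTwo.add_self_eq_zero 1
    rw [h2, mul_zero]
  · rw [if_neg hi, if_neg hi, Nat.cast_zero, zero_add, mul_one]
    have h3 : mon (insert i I) = mon I + Finsupp.single i 1 := by
      unfold mon
      rw [Finset.sum_insert hi, add_comm]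
    unfold cm
    rw [h3]


end S_lap_col

alias lap_col := S_lap_col.lap_col

end SF
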