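import Pool.Agent.Helper297.SF.Defs
set_option autoImplicit false
open MvPolynomial

namespace SF
namespace S_lap_row
theorem lap_row_mon {n : ℕ} (I : Finset (Fin n)) (i : Fin n) :
    mon I i = if i ∈ I then 1 else 0 := by
  unfold mon
  rw [Finsupp.finset_sum_apply]
  simp [Finsupp.single_apply]

theorem lap_row_erase {n : ℕ} (I : Finset (Fin n)) (i : Fin n) :
    mon I - Finsupp.single i 1 = mon (I.erase i) := by
  ext k
  rw [Finsupp.tsub_apply, lap_row_mon, lap_row_mon, Finsupp.single_apply]
  by_cases h : i = k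
  · subst h
    simp
    split_ifs <;> simp
  · have h' : k ≠ i := fun e => h e.symm
    simp [h, h']

theorem lap_row_X {R : Type} [CommRing R] {n : ℕ} (I : Finset (Fin n)) (i : Fin n)
    (p : MvPolynomial (Fin n) R) :
    coeff (mon I) (X i * p) = if i ∈ I then coeff (mon (I.erase i)) p else 0 := by
  rw [coeff_X_mul', lap_row_erase]
  refine if_congr ?_ rfl rfl
  rw [Finsupp.mem_support_iff, lap_row_mon]
  simp

theorem lap_row_Y {R : Type} [CommRing R] {n : ℕ} (M : Matrix (Fin n) (Fin n) R)
    (j : Fin n) (I : Finset (Fin n)) (p : MvPolynomial (Fin n) R) :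
    coeff (mon I) (Yf M j * p) = ∑ i ∈ I, M j i * coeff (mon (I.erase i)) p := by
  unfold Yf
  rw [Finset.sum_mul, coeff_sum]
  have h : ∀ i : Fin n, coeff (mon I) (C (M j i) * X i * p) =
      if i ∈ I then M j i * coeff (mon (I.erase i)) p else 0 := by
    intro i
    rw [mul_assoc, coeff_C_mul, lap_row_X]
    split_ifs <;> simp
  rw [Finset.sum_congr rfl fun i _ => h i]
  simp

theorem lap_row_sq {R : Type} [CommRing R] [CharP R 2] {n : ℕ} (M : Matrix (Fin n) (Fin n) R)
    (j : Fin n) (I : Finset (Fin n)) (p : MvPolynomial (Fin n) R) :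
    coeff (mon I) (Yf M j * (Yf M j * p)) = 0 := by
  have e : Yf M j * (Yf M j * p) = ∑ i, (C (M j i ^ 2) * (X i * (X i * p))) := by
    have h1 : Yf M j * (Yf M j * p) = (Yf M j) ^ 2 * p := by ring
    rw [h1]
    unfold Yf
    rw [CharTwo.sum_sq, Finset.sum_mul]
    refine Finset.sum_congr rfl fun i _ => ?_
    rw [C_pow]
    ring
  rw [e, coeff_sum]
  refine Finset.sum_eq_zero fun i _ => ?_
  rw [coeff_C_mul, lap_row_X, lap_row_X]
  simp

/-- J21 -/
theorem lap_row {R : Type} [CommRing R] [CharP R 2] (n : ℕ) (M : Matrix (Fin n) (Fin n) R)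
    (j : Fin n) (J I : Finset (Fin n)) :
    ∑ i ∈ I, M j i * cm M J (I.erase i) = if j ∈ J then 0 else cm M (insert j J) I := by
  unfold cm
  rw [← lap_row_Y]
  split_ifs with hj
  · rw [← Finset.mul_prod_erase J (fun j => Yf M j) hj]
    exact lap_row_sq M j I _
  · rw [Finset.prod_insert hj]


end S_lap_row

alias lap_row := S_lap_row.lap_row

end SF
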