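import Pool.Agent.Helper297.SF.Defs
set_option autoImplicit false
open MvPolynomial

namespace SF
namespace S_mulW_mulW
/-- J27: multiplication by a vector squares to zero. -/
theorem mulW_mulW {R : Type} [CommRing R] [CharP R 2] (n : ℕ) (w : Fin n → R)
    (u : Finset (Fin n) → R) : mulW w (mulW w u) = 0 := by
  funext I
  show ∑ i ∈ I, w i * (∑ i' ∈ I.erase i, w i' * u ((I.erase i).erase i')) = 0
  have h1 : ∑ i ∈ I, w i * (∑ i' ∈ I.erase i, w i' * u ((I.erase i).erase i')) =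
      ∑ i ∈ I, ∑ i' ∈ I.erase i, w i * (w i' * u ((I.erase i).erase i')) :=
    Finset.sum_congr rfl (fun i _ => Finset.mul_sum _ _ _)
  rw [h1, Finset.sum_sigma']
  refine Finset.sum_involution (fun x _ => ⟨x.2, x.1⟩) ?_ ?_ ?_ ?_
  · rintro ⟨i, i'⟩ _
    show w i * (w i' * u ((I.erase i).erase i')) + w i' * (w i * u ((I.erase i').erase i)) = 0
    rw [Finset.erase_right_comm, mul_left_comm (w i') (w i)]
    exact CharTwo.add_self_eq_zero _
  · rintro ⟨i, i'⟩ hx _ heq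
    have h2 := (Finset.mem_erase.1 (Finset.mem_sigma.1 hx).2).1
    have h3 : i' = i := congrArg Sigma.fst heq
    exact h2 h3
  · rintro ⟨i, i'⟩ hx
    obtain ⟨h2, h3⟩ := Finset.mem_sigma.1 hx
    obtain ⟨h4, h5⟩ := Finset.mem_erase.1 h3
    exact Finset.mem_sigma.2 ⟨h5, Finset.mem_erase.2 ⟨Ne.symm h4, h2⟩⟩
  · rintro ⟨i, i'⟩ _
    rfl


end S_mulW_mulW

alias mulW_mulW := S_mulW_mulW.mulW_mulW

end SF
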