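import Pool.Agent.Helper297.SF.Defs
set_option autoImplicit false
open MvPolynomial

namespace SF
namespace S_mulX_exact
theorem mulX_exact_insert {R : Type} [CommRing R] {n : ℕ} (w : Fin n → R) (u : Finset (Fin n) → R)
    (a : Fin n) (I : Finset (Fin n)) (ha : a ∉ I) :
    mulW w u (insert a I) = w a * u I + mulW w (fun J => u (insert a J)) I := by
  show ∑ i ∈ insert a I, w i * u ((insert a I).erase i) =
    w a * u I + ∑ i ∈ I, w i * u (insert a (I.erase i))
  rw [Finset.sum_insert ha, Finset.erase_insert ha]
  congr 1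
  refine Finset.sum_congr rfl (fun i hi => ?_)
  have hne : a ≠ i := fun h => ha (h ▸ hi)
  rw [Finset.erase_insert_of_ne hne]

theorem mulX_exact_reg {K : Type} [Field K] {n : ℕ} (S : Finset (Fin n)) (a : Fin n) (ha : a ∉ S)
    (c : MvPolynomial (Fin n) K)
    (h : X a * c ∈ Ideal.span (MvPolynomial.X '' (S : Set (Fin n)) : Set (MvPolynomial (Fin n) K))) :
    ∃ d : Fin n → MvPolynomial (Fin n) K, ∑ j ∈ S, d j * X j = c := by
  have h1 : c ∈ Ideal.span (MvPolynomial.X '' (S : Set (Fin n)) : Set (MvPolynomial (Fin n) K)) := by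
    rw [mem_ideal_span_X_image] at h ⊢
    intro m hm
    have h2 : Finsupp.single a 1 + m ∈ (X a * c).support := by
      rw [support_X_mul, Finset.mem_map]
      exact ⟨m, hm, rfl⟩
    obtain ⟨j, hj, hj'⟩ := h _ h2
    refine ⟨j, hj, ?_⟩
    have hne : a ≠ j := fun h => ha (h ▸ hj)
    rw [Finsupp.add_apply, Finsupp.single_eq_of_ne' hne, zero_add] at hj'
    exact hj'
  have h3 := (Submodule.mem_span_image_finset_iff_exists_fun' (R := MvPolynomial (Fin n) K)
    (v := (MvPolynomial.X : Fin n → MvPolynomial (Fin n) K)) (x := c) (s := S)).1 h1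
  obtain ⟨d, hd⟩ := h3
  exact ⟨d, by simpa only [smul_eq_mul] using hd⟩

theorem mulX_exact_gen {K : Type} [Field K] [CharP K 2] (n : ℕ) (S : Finset (Fin n)) :
    ∀ (i : ℕ), i < S.card → ∀ (u : Finset (Fin n) → MvPolynomial (Fin n) K),
    (∀ I ⊆ S, I.card ≠ i → u I = 0) →
    (∀ I ⊆ S, mulW (fun j => (X j : MvPolynomial (Fin n) K)) u I = 0) →
    ∃ v : Finset (Fin n) → MvPolynomial (Fin n) K, (∀ I ⊆ S, I.card + 1 ≠ i → v I = 0) ∧
      ∀ I ⊆ S, mulW (fun j => (X j : MvPolynomial (Fin n) K)) v I = u I := by
  classical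
  haveI : CharP (MvPolynomial (Fin n) K) 2 := inferInstance
  induction S using Finset.induction_on with
  | empty => intro i hi; exact absurd hi (by simp)
  | insert a S ha ih =>
    intro i hi u hu h
    rw [Finset.card_insert_of_notMem ha] at hi
    have hsub : ∀ I ⊆ S, I ⊆ insert a S := fun I hI => hI.trans (Finset.subset_insert _ _)
    have hsub2 : ∀ I ⊆ S, insert a I ⊆ insert a S := fun I hI => Finset.insert_subset_insert _ hI
    have haI : ∀ I ⊆ S, a ∉ I := fun I hI h => ha (hI h)
    set u1 : Finset (Fin n) → MvPolynomial (Fin n) K := fun J => u (insert a J) with hu1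
    have h1 : ∀ I ⊆ S, X a * u I + mulW (fun j => (X j : MvPolynomial (Fin n) K)) u1 I = 0 := by
      intro I hI
      have h2 := h (insert a I) (hsub2 I hI)
      rw [mulX_exact_insert _ _ _ _ (haI I hI)] at h2
      exact h2
    obtain ⟨v0, hv0, hv0'⟩ : ∃ v0 : Finset (Fin n) → MvPolynomial (Fin n) K,
        (∀ I ⊆ S, I.card + 1 ≠ i → v0 I = 0) ∧
        ∀ I ⊆ S, mulW (fun j => (X j : MvPolynomial (Fin n) K)) v0 I = u I := by
      rcases Nat.lt_or_ge i S.card with hlt | hge
      · exact ih i hlt u (fun I hI => hu I (hsub I hI)) (fun I hI => h I (hsub I hI))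
      · have hiS : i = S.card := by omega
        have h3 : X a * u S ∈
            Ideal.span (MvPolynomial.X '' (S : Set (Fin n)) : Set (MvPolynomial (Fin n) K)) := by
          have h4 : X a * u S = -mulW (fun j => (X j : MvPolynomial (Fin n) K)) u1 S :=
            eq_neg_of_add_eq_zero_left (h1 S (Finset.Subset.refl _))
          rw [h4]
          refine Submodule.neg_mem _ ?_
          show ∑ j ∈ S, X j * u1 (S.erase j) ∈ _
          refine Submodule.sum_mem _ (fun j hj => ?_)
          exact Ideal.mul_mem_right _ _ (Ideal.subset_span ⟨j, hj, rfl⟩)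
        obtain ⟨d, hd⟩ := mulX_exact_reg S a ha (u S) h3
        refine ⟨fun I => if I.card + 1 = S.card then ∑ j ∈ S \ I, d j else 0, ?_, ?_⟩
        · intro I _ hI2
          rw [hiS] at hI2
          exact if_neg hI2
        · intro I hI
          by_cases hIS : I = S
          · rw [hIS, ← hd]
            show ∑ j ∈ S, X j * (if (S.erase j).card + 1 = S.card then
              ∑ j ∈ S \ (S.erase j), d j else 0) = _
            refine Finset.sum_congr rfl (fun j hj => ?_)
            have h5 : (S.erase j).card + 1 = S.card := Finset.card_erase_add_one hj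
            rw [if_pos h5, Finset.sdiff_erase_self hj, Finset.sum_singleton, mul_comm]
          · have h6 : I.card < S.card :=
              Finset.card_lt_card (lt_of_le_of_ne hI hIS)
            rw [hu I (hsub I hI) (by omega)]
            show ∑ j ∈ I, X j * (if (I.erase j).card + 1 = S.card then
              ∑ j ∈ S \ (I.erase j), d j else 0) = _
            refine Finset.sum_eq_zero (fun j hj => ?_)
            have h7 : (I.erase j).card + 1 = I.card := Finset.card_erase_add_one hj
            rw [if_neg (by omega), mul_zero]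
    set w : Finset (Fin n) → MvPolynomial (Fin n) K := fun I => X a * v0 I + u1 I with hw
    have hww : ∀ I ⊆ S, mulW (fun j => (X j : MvPolynomial (Fin n) K)) w I = 0 := by
      intro I hI
      rw [← h1 I hI, ← hv0' I hI]
      show ∑ j ∈ I, X j * (X a * v0 (I.erase j) + u1 (I.erase j)) =
        X a * ∑ j ∈ I, X j * v0 (I.erase j) + ∑ j ∈ I, X j * u1 (I.erase j)
      rw [Finset.mul_sum, ← Finset.sum_add_distrib]
      exact Finset.sum_congr rfl (fun j _ => by ring)
    have hu1' : ∀ I ⊆ S, I.card + 1 ≠ i → u1 I = 0 := by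
      intro I hI hI2
      refine hu _ (hsub2 I hI) ?_
      rw [Finset.card_insert_of_notMem (haI I hI)]
      exact hI2
    obtain ⟨v1, hv1, hv1'⟩ : ∃ v1 : Finset (Fin n) → MvPolynomial (Fin n) K,
        (∀ I ⊆ S, I.card + 2 ≠ i → v1 I = 0) ∧
        ∀ I ⊆ S, mulW (fun j => (X j : MvPolynomial (Fin n) K)) v1 I = w I := by
      rcases i with _ | i'
      · refine ⟨fun _ => 0, fun _ _ _ => rfl, ?_⟩
        intro I hI
        show ∑ j ∈ I, X j * (0 : MvPolynomial (Fin n) K) = X a * v0 I + u1 I
        rw [hv0 I hI (by omega), hu1' I hI (by omega)]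
        simp
      · obtain ⟨v1, hv1, hv1'⟩ := ih i' (by omega) w (fun I hI hI2 => by
          show X a * v0 I + u1 I = 0
          rw [hv0 I hI (by omega), hu1' I hI (by omega)]
          simp) hww
        exact ⟨v1, fun I hI hI2 => hv1 I hI (by omega), hv1'⟩
    refine ⟨fun I => if a ∈ I then v1 (I.erase a) else v0 I, ?_, ?_⟩
    · intro I hI hI2
      by_cases haI2 : a ∈ I
      · show (if a ∈ I then v1 (I.erase a) else v0 I) = 0
        rw [if_pos haI2]
        have h8 : (I.erase a).card + 1 = I.card := Finset.card_erase_add_one haI2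
        refine hv1 _ ?_ (by omega)
        rw [← Finset.subset_insert_iff]
        exact hI
      · show (if a ∈ I then v1 (I.erase a) else v0 I) = 0
        rw [if_neg haI2]
        exact hv0 I ((Finset.subset_insert_iff_of_notMem haI2).1 hI) hI2
    · intro I hI
      by_cases haI2 : a ∈ I
      · obtain ⟨J, hJ, rfl⟩ : ∃ J, a ∉ J ∧ I = insert a J :=
          ⟨I.erase a, Finset.notMem_erase _ _, (Finset.insert_erase haI2).symm⟩
        have hJS : J ⊆ S := by
          intro x hx
          have h9 := hI (Finset.mem_insert_of_mem hx)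
          rcases Finset.mem_insert.1 h9 with h10 | h10
          · exact absurd (h10 ▸ hx) hJ
          · exact h10
        rw [mulX_exact_insert _ _ _ _ hJ]
        have e1 : (if a ∈ J then v1 (J.erase a) else v0 J) = v0 J := if_neg hJ
        have e2 : mulW (fun j => (X j : MvPolynomial (Fin n) K))
            (fun J' => if a ∈ insert a J' then v1 ((insert a J').erase a) else v0 (insert a J')) J =
            mulW (fun j => (X j : MvPolynomial (Fin n) K)) v1 J := by
          refine Finset.sum_congr rfl (fun j hj => ?_)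
          have h11 : a ∉ J.erase j := fun h => hJ (Finset.mem_of_mem_erase h)
          show X j * (if a ∈ insert a (J.erase j) then v1 ((insert a (J.erase j)).erase a)
            else v0 (insert a (J.erase j))) = _
          rw [if_pos (Finset.mem_insert_self _ _), Finset.erase_insert h11]
        show X a * (if a ∈ J then v1 (J.erase a) else v0 J) + mulW (fun j => (X j : MvPolynomial (Fin n) K))
            (fun J' => if a ∈ insert a J' then v1 ((insert a J').erase a) else v0 (insert a J')) J = _
        rw [e1, e2, hv1' J hJS]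
        show X a * v0 J + (X a * v0 J + u (insert a J)) = u (insert a J)
        rw [← add_assoc, CharTwo.add_self_eq_zero, zero_add]
      · have hIS : I ⊆ S := (Finset.subset_insert_iff_of_notMem haI2).1 hI
        rw [← hv0' I hIS]
        refine Finset.sum_congr rfl (fun j hj => ?_)
        have h11 : a ∉ I.erase j := fun h => haI2 (Finset.mem_of_mem_erase h)
        show X j * (if a ∈ I.erase j then v1 ((I.erase j).erase a) else v0 (I.erase j)) = _
        rw [if_neg h11]

/-- J29: exactness of the Koszul complex of the variables. -/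
theorem mulX_exact {K : Type} [Field K] [CharP K 2] (n : ℕ) (i : ℕ) (hi : i < n)
    (u : Finset (Fin n) → MvPolynomial (Fin n) K) (hu : u ∈ XD (MvPolynomial (Fin n) K) n i)
    (h : mulW (fun j => (X j : MvPolynomial (Fin n) K)) u = 0) :
    ∃ v, (∀ I, I.card + 1 ≠ i → v I = 0) ∧
      mulW (fun j => (X j : MvPolynomial (Fin n) K)) v = u := by
  obtain ⟨v, hv, hv'⟩ := mulX_exact_gen (K := K) n Finset.univ i (by simpa using hi) u
    (fun I _ hI => hu I hI) (fun I _ => by rw [h]; rfl)
  exact ⟨v, fun I hI => hv I (Finset.subset_univ _) hI, funext fun I => hv' I (Finset.subset_univ _)⟩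


end S_mulX_exact

alias mulX_exact := S_mulX_exact.mulX_exact

end SF
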