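import Pool.Agent.Helper297.SF.Defs
set_option autoImplicit false
open MvPolynomial

namespace SF
namespace S_mulX_top
theorem mulX_zero_22121 {R : Type} [CommRing R] {n : ℕ} (hn : 0 < n) (w : Fin n → R)
    (v : Finset (Fin n) → R) (hv : v ∈ XD R n (n - 1)) (I : Finset (Fin n)) (hI : I.card ≠ n) :
    mulW w v I = 0 := by
  show ∑ i ∈ I, w i * v (I.erase i) = 0
  apply Finset.sum_eq_zero
  intro i hi
  have h1 : (I.erase i).card ≠ n - 1 := by
    rw [Finset.card_erase_of_mem hi]
    have h2 := Finset.card_pos.2 ⟨i, hi⟩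
    omega
  rw [hv _ h1, mul_zero]

/-- J30: the image of the last differential. -/
theorem mulX_top {K : Type} [Field K] [CharP K 2] (n : ℕ) (hn : 0 < n)
    (u : Finset (Fin n) → MvPolynomial (Fin n) K) :
    u ∈ (XD (MvPolynomial (Fin n) K) n (n - 1)).map
        (mulW (fun j => (X j : MvPolynomial (Fin n) K))) ↔
      u ∈ XD (MvPolynomial (Fin n) K) n n ∧
      u Finset.univ ∈ Ideal.span (Set.range (X : Fin n → MvPolynomial (Fin n) K)) := by
  constructor
  · rintro ⟨v, hv, rfl⟩
    refine ⟨fun I hI => mulX_zero_22121 hn _ v hv I hI, ?_⟩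
    show ∑ i ∈ (Finset.univ : Finset (Fin n)), (X i : MvPolynomial (Fin n) K) *
      v (Finset.univ.erase i) ∈ _
    refine Ideal.sum_mem _ fun i _ => Ideal.mul_mem_right _ _ (Ideal.subset_span ⟨i, rfl⟩)
  · rintro ⟨h1, h2⟩
    obtain ⟨c, hc⟩ := Ideal.mem_span_range_iff_exists_fun.1 h2
    obtain ⟨v, hv⟩ : ∃ v : Finset (Fin n) → MvPolynomial (Fin n) K,
      ∀ J, v J = if J.card = n - 1 then ∑ i ∈ Jᶜ, c i else 0 := ⟨_, fun J => rfl⟩
    have hvX : v ∈ XD (MvPolynomial (Fin n) K) n (n - 1) := by
      intro I hI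
      rw [hv, if_neg hI]
    refine ⟨v, hvX, ?_⟩
    funext I
    by_cases hI : I.card = n
    · have hIu : I = Finset.univ := by
        apply Finset.eq_univ_of_card
        rw [hI, Fintype.card_fin]
      subst hIu
      show ∑ i ∈ (Finset.univ : Finset (Fin n)), (X i : MvPolynomial (Fin n) K) *
        v (Finset.univ.erase i) = _
      rw [← hc]
      apply Finset.sum_congr rfl
      intro i _
      have h3 : (Finset.univ.erase i : Finset (Fin n)).card = n - 1 := by
        rw [Finset.card_erase_of_mem (Finset.mem_univ i), Finset.card_univ, Fintype.card_fin]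
      have h4 : (Finset.univ.erase i : Finset (Fin n))ᶜ = {i} := by
        ext j
        simp
      rw [hv, if_pos h3, h4, Finset.sum_singleton, mul_comm]
    · rw [mulX_zero_22121 hn _ v hvX I hI]
      exact (h1 I hI).symm


end S_mulX_top

alias mulX_top := S_mulX_top.mulX_top

end SF
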