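import Pool.Agent.Helper297.SF.Defs
set_option autoImplicit false
open MvPolynomial

namespace SF
namespace S_numeric
section aux40
variable {R : Type} [CommRing R]

noncomputable def U40 (f : PowerSeries R) : PowerSeries R :=
  PowerSeries.mk (fun m => PowerSeries.coeff (2 * m) f)

lemma U40_step (f : PowerSeries R) :
    U40 ((1 - PowerSeries.X ^ 2) * f) = (1 - PowerSeries.X) * U40 f := by
  ext m
  unfold U40
  rw [PowerSeries.coeff_mk, sub_mul, one_mul, sub_mul, one_mul, map_sub, map_sub,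
    PowerSeries.coeff_mk, PowerSeries.coeff_X_pow_mul']
  cases m with
  | zero => simp
  | succ m =>
    rw [PowerSeries.coeff_succ_X_mul, PowerSeries.coeff_mk, if_pos (by omega)]
    congr 3

lemma U40_pow (k : ℕ) (f : PowerSeries R) :
    U40 ((1 - PowerSeries.X ^ 2) ^ k * f) = (1 - PowerSeries.X) ^ k * U40 f := by
  induction k generalizing f with
  | zero => simp
  | succ k ih =>
    rw [pow_succ, mul_assoc, ih, U40_step, pow_succ]
    ring

lemma keyU40 (b : ℕ → R) (d : ℕ) (h0 : b 0 = 0) (hb : ∀ i, d + 1 < i → b i = 0)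
    (h : ∀ m, 1 ≤ m → m ≤ d + 1 →
      2 * ∑ i ∈ Finset.range (2 * m + 1), b i * ((d + 1).choose (2 * m - i) : R)
        = 2 ^ (d + 1) * b m) (m : ℕ) :
    2 * PowerSeries.coeff (2 * m)
        (PowerSeries.mk b * PowerSeries.mk (fun k => ((d + k).choose d : R))) =
      2 ^ (d + 1) * PowerSeries.coeff m
        (PowerSeries.mk b * PowerSeries.mk (fun k => ((d + k).choose d : R))) := by
  set B : PowerSeries R := PowerSeries.mk b with hB
  set I : PowerSeries R := PowerSeries.mk (fun k => ((d + k).choose d : R)) with hI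
  have hI1 : I * (1 - PowerSeries.X) ^ (d + 1) = 1 :=
    PowerSeries.mk_add_choose_mul_one_sub_pow_eq_one R d
  have h1 : PowerSeries.C (2 : R) * U40 (B * (1 + PowerSeries.X) ^ (d + 1))
      = PowerSeries.C ((2 : R) ^ (d + 1)) * B := by
    ext m
    rw [PowerSeries.coeff_C_mul, PowerSeries.coeff_C_mul, U40, PowerSeries.coeff_mk, hB,
      PowerSeries.coeff_mk]
    have h2 : PowerSeries.coeff (2 * m) (PowerSeries.mk b * (1 + PowerSeries.X) ^ (d + 1)) =
        ∑ i ∈ Finset.range (2 * m + 1), b i * ((d + 1).choose (2 * m - i) : R) := by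
      rw [PowerSeries.coeff_mul]
      rw [Finset.Nat.sum_antidiagonal_eq_sum_range_succ (fun i j =>
        PowerSeries.coeff i (PowerSeries.mk b) *
          PowerSeries.coeff j ((1 + PowerSeries.X) ^ (d + 1)))]
      refine Finset.sum_congr rfl fun i _ => ?_
      rw [PowerSeries.coeff_mk]
      congr 1
      have h3 : ((1 + PowerSeries.X : PowerSeries R) ^ (d + 1)) =
          (((1 + Polynomial.X : Polynomial R) ^ (d + 1) : Polynomial R) : PowerSeries R) := by
        push_cast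
        rfl
      rw [h3, Polynomial.coeff_coe, Polynomial.coeff_one_add_X_pow]
    rw [h2]
    rcases Nat.eq_zero_or_pos m with rfl | hm
    · simp [h0]
    · by_cases hmn : m ≤ d + 1
      · exact h m hm hmn
      · rw [hb m (by omega), mul_zero]
        have : ∑ i ∈ Finset.range (2 * m + 1), b i * ((d + 1).choose (2 * m - i) : R) = 0 := by
          refine Finset.sum_eq_zero fun i _ => ?_
          by_cases hi : d + 1 < i
          · rw [hb i hi, zero_mul]
          · rw [Nat.choose_eq_zero_of_lt (by omega), Nat.cast_zero, mul_zero]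
        rw [this, mul_zero]
  have h4 : PowerSeries.C (2 : R) * U40 (B * I) = PowerSeries.C ((2 : R) ^ (d + 1)) * (B * I) := by
    have h5 : (1 - PowerSeries.X) ^ (d + 1) * U40 (B * I)
        = U40 (B * (1 + PowerSeries.X) ^ (d + 1)) := by
      rw [← U40_pow]
      congr 1
      have : (1 - PowerSeries.X ^ 2 : PowerSeries R) = (1 + PowerSeries.X) * (1 - PowerSeries.X) := by
        ring
      rw [this, mul_pow]
      linear_combination (B * (1 + PowerSeries.X) ^ (d + 1)) * hI1
    calc PowerSeries.C (2 : R) * U40 (B * I)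
        = I * (PowerSeries.C (2 : R) * ((1 - PowerSeries.X) ^ (d + 1) * U40 (B * I))) := by
          linear_combination (-(PowerSeries.C (2 : R) * U40 (B * I))) * hI1
      _ = I * (PowerSeries.C ((2 : R) ^ (d + 1)) * B) := by rw [h5, h1]
      _ = _ := by ring
  have h6 := congrArg (PowerSeries.coeff m) h4
  rw [PowerSeries.coeff_C_mul, PowerSeries.coeff_C_mul] at h6
  rw [← h6, U40, PowerSeries.coeff_mk]

noncomputable def M40 (R : Type) [CommRing R] (d i : ℕ) : Polynomial R :=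
  ∏ j ∈ Finset.range d, (Polynomial.X + Polynomial.C ((j : R) + 1 - (i : R)))

lemma M40_monic (d i : ℕ) : (M40 R d i).Monic :=
  Polynomial.monic_prod_of_monic _ _ fun j _ => Polynomial.monic_X_add_C _

lemma M40_deg [Nontrivial R] (d i : ℕ) : (M40 R d i).natDegree = d := by
  unfold M40
  rw [Polynomial.natDegree_prod_of_monic _ _ fun _ _ => Polynomial.monic_X_add_C _]
  simp only [Polynomial.natDegree_X_add_C, Finset.sum_const, Finset.card_range, smul_eq_mul, mul_one]

lemma M40_eval_le (d i q : ℕ) (h : i ≤ q) :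
    (M40 R d i).eval (q : R) = (d.factorial : R) * ((d + (q - i)).choose d : R) := by
  obtain ⟨k, rfl⟩ := Nat.exists_eq_add_of_le h
  unfold M40
  rw [Polynomial.eval_prod]
  have h1 : ∀ j ∈ Finset.range d, Polynomial.eval (((i + k : ℕ) : R))
      (Polynomial.X + Polynomial.C ((j : R) + 1 - (i : R))) = ((k + 1 + j : ℕ) : R) := by
    intro j _
    rw [Polynomial.eval_add, Polynomial.eval_X, Polynomial.eval_C]
    push_cast
    ring
  rw [Finset.prod_congr rfl h1, ← Nat.cast_prod, ← Nat.ascFactorial_eq_prod_range,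
    Nat.ascFactorial_eq_factorial_mul_choose]
  push_cast
  congr 3
  omega

lemma M40_eval_gt (d i q : ℕ) (hq : 1 ≤ q) (h : q < i) (hi : i ≤ d + 1) :
    (M40 R d i).eval (q : R) = 0 := by
  unfold M40
  rw [Polynomial.eval_prod]
  refine Finset.prod_eq_zero (i := i - q - 1) (Finset.mem_range.2 (by omega)) ?_
  rw [Polynomial.eval_add, Polynomial.eval_X, Polynomial.eval_C]
  obtain ⟨k, rfl⟩ := Nat.exists_eq_add_of_lt h
  have : q + k + 1 - q - 1 = k := by omega
  rw [this]
  push_cast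
  ring

lemma eval40 (b : ℕ → R) (d q : ℕ) (hq : 1 ≤ q) (hb : ∀ i, d + 1 < i → b i = 0) :
    (∑ i ∈ Finset.range (d + 2), Polynomial.C (b i) * M40 R d i).eval (q : R) =
      (d.factorial : R) * PowerSeries.coeff q
        (PowerSeries.mk b * PowerSeries.mk (fun k => ((d + k).choose d : R))) := by
  rw [Polynomial.eval_finsetSum, PowerSeries.coeff_mul,
    Finset.Nat.sum_antidiagonal_eq_sum_range_succ (fun i j =>
        PowerSeries.coeff i (PowerSeries.mk b) *
          PowerSeries.coeff j (PowerSeries.mk (fun k => ((d + k).choose d : R)))), Finset.mul_sum]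
  have h1 : ∑ i ∈ Finset.range (d + 2), Polynomial.eval (q : R) (Polynomial.C (b i) * M40 R d i)
      = ∑ i ∈ Finset.range (q + d + 2), Polynomial.eval (q : R) (Polynomial.C (b i) * M40 R d i) := by
    refine Finset.sum_subset ?_ ?_
    · intro x hx
      rw [Finset.mem_range] at *
      omega
    · intro x _ hx
      rw [Finset.mem_range] at hx
      rw [hb x (by omega)]
      simp
  have h2 : ∑ i ∈ Finset.range (q + 1), (d.factorial : R) *
      (PowerSeries.coeff i (PowerSeries.mk b) *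
          PowerSeries.coeff (q - i) (PowerSeries.mk (fun k => ((d + k).choose d : R)))) =
      ∑ i ∈ Finset.range (q + 1), Polynomial.eval (q : R) (Polynomial.C (b i) * M40 R d i) := by
    refine Finset.sum_congr rfl fun i hi => ?_
    rw [Finset.mem_range] at hi
    rw [Polynomial.eval_mul, Polynomial.eval_C, M40_eval_le d i q (by omega),
      PowerSeries.coeff_mk, PowerSeries.coeff_mk]
    ring
  rw [h1, Nat.succ_eq_add_one, h2]
  symm
  refine Finset.sum_subset ?_ ?_
  · intro x hx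
    rw [Finset.mem_range] at *
    omega
  · intro x _ hx
    rw [Finset.mem_range] at hx
    rw [Polynomial.eval_mul, Polynomial.eval_C]
    by_cases hx2 : d + 1 < x
    · rw [hb x hx2, zero_mul]
    · rw [M40_eval_gt d x q hq (by omega) (by omega), mul_zero]

lemma vdm40 (n : ℕ) (c : Fin n → R)
    (h : ∀ q : ℕ, 1 ≤ q → ∑ k : Fin n, c k * (q : R) ^ (k : ℕ) = 0) (k : Fin n) :
    (((Matrix.vandermonde (fun i : Fin n => (((i : ℕ) + 1 : ℕ) : ℤ))).det : ℤ) : R) * c k = 0 := by
  have h1 : (((Matrix.vandermonde (fun i : Fin n => (((i : ℕ) + 1 : ℕ) : ℤ))).det : ℤ) : R) =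
      (Matrix.vandermonde (fun i : Fin n => (((i : ℕ) + 1 : ℕ) : R))).det := by
    rw [Matrix.det_vandermonde, Matrix.det_vandermonde]
    push_cast
    rfl
  set V := Matrix.vandermonde (fun i : Fin n => (((i : ℕ) + 1 : ℕ) : R)) with hV
  have h2 : V.mulVec c = 0 := by
    funext i
    rw [Matrix.mulVec, dotProduct]
    have := h ((i : ℕ) + 1) (by omega)
    rw [Pi.zero_apply, ← this]
    refine Finset.sum_congr rfl fun k _ => ?_
    rw [hV, Matrix.vandermonde_apply, mul_comm]
  have h3 : V.det • c = 0 := by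
    have : V.adjugate.mulVec (V.mulVec c) = V.det • c := by
      rw [Matrix.mulVec_mulVec, Matrix.adjugate_mul, Matrix.smul_mulVec, Matrix.one_mulVec]
    rw [← this, h2, Matrix.mulVec_zero]
  have h4 := congrFun h3 k
  rw [h1]
  simpa using h4

end aux40

/-- J40: the numerical contradiction. -/
theorem numeric (n : ℕ) (hn : 3 ≤ n) : ∃ S : ℕ, ∀ r ≥ S, ¬ ∃ a : ℕ → ZMod (2 ^ r),
    a 0 = 0 ∧ (∀ i, n < i → a i = 0) ∧
    (∑ i ∈ Finset.range (n + 1), (-1) ^ i * a i = (-1) ^ n) ∧
    (∀ m, 1 ≤ m → m ≤ n →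
      ∑ i ∈ Finset.range (2 * m + 1), (-1) ^ i *
        ((Nat.choose n (2 * m - i) : ZMod (2 ^ r)) * a i
          + (Nat.choose n i : ZMod (2 ^ r)) * a (2 * m - i))
        = (-1) ^ m * 2 ^ n * a m) := by
  obtain ⟨d, rfl⟩ : ∃ d, n = d + 1 := ⟨n - 1, by omega⟩
  have hd : 2 ≤ d := by omega
  set D : ℤ := (Matrix.vandermonde (fun i : Fin (d + 1) => (((i : ℕ) + 1 : ℕ) : ℤ))).det with hD
  have hD0 : D ≠ 0 := by
    rw [hD, Matrix.det_vandermonde_ne_zero_iff]
    intro i j hij
    apply Fin.ext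
    have : (((i : ℕ) + 1 : ℕ) : ℤ) = (((j : ℕ) + 1 : ℕ) : ℤ) := hij
    omega
  set E : ℤ := ∏ k ∈ Finset.range d, ((2 : ℤ) * 2 ^ k - 2 ^ (d + 1)) with hE
  have hE0 : E ≠ 0 := by
    rw [hE, Finset.prod_ne_zero_iff]
    intro k hk
    rw [Finset.mem_range] at hk
    have : (2 : ℤ) ^ (k + 1) < 2 ^ (d + 1) := pow_lt_pow_right₀ (by norm_num) (by omega)
    rw [pow_succ] at this
    intro h
    linarith
  refine ⟨(D * E).natAbs + 1, ?_⟩
  rintro r hr ⟨a, ha0, ha1, ha2, ha3⟩
  have hr1 : 1 < 2 ^ r := Nat.one_lt_two_pow (by omega)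
  have : Fact (1 < 2 ^ r) := ⟨hr1⟩
  have : NeZero (2 ^ r) := ⟨by omega⟩
  set b : ℕ → ZMod (2 ^ r) := fun i => (-1) ^ i * a i with hb
  have hb0 : b 0 = 0 := by rw [hb]; simp [ha0]
  have hb1 : ∀ i, d + 1 < i → b i = 0 := by
    intro i hi
    rw [hb]
    simp [ha1 i hi]
  have hkey := keyU40 b d hb0 hb1 (by
    intro m hm1 hm2
    have h1 := ha3 m hm1 hm2
    have h2 : ∑ i ∈ Finset.range (2 * m + 1), (-1 : ZMod (2 ^ r)) ^ i *
        ((Nat.choose (d + 1) (2 * m - i) : ZMod (2 ^ r)) * a i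
          + (Nat.choose (d + 1) i : ZMod (2 ^ r)) * a (2 * m - i)) =
        ∑ i ∈ Finset.range (2 * m + 1), b i * ((d + 1).choose (2 * m - i) : ZMod (2 ^ r)) +
        ∑ i ∈ Finset.range (2 * m + 1), b i * ((d + 1).choose (2 * m - i) : ZMod (2 ^ r)) := by
      rw [← Finset.sum_range_reflect (fun i =>
        b i * ((d + 1).choose (2 * m - i) : ZMod (2 ^ r))) (2 * m + 1)]
      nth_rewrite 1 [Finset.sum_range_reflect (fun i =>
        b i * ((d + 1).choose (2 * m - i) : ZMod (2 ^ r))) (2 * m + 1)]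
      rw [← Finset.sum_add_distrib]
      refine Finset.sum_congr rfl fun i hi => ?_
      rw [Finset.mem_range] at hi
      have e1 : 2 * m + 1 - 1 - i = 2 * m - i := by omega
      have e2 : 2 * m - (2 * m - i) = i := by omega
      rw [e1, e2, hb]
      have e3 : (-1 : ZMod (2 ^ r)) ^ (2 * m - i) = (-1) ^ i := by
        rw [neg_one_pow_eq_pow_mod_two, neg_one_pow_eq_pow_mod_two (n := i)]
        congr 1
        omega
      simp only [e3]
      ring
    rw [two_mul, ← h2, h1, hb]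
    ring)
  set G := PowerSeries.mk b * PowerSeries.mk (fun k => ((d + k).choose d : ZMod (2 ^ r))) with hG
  set P : Polynomial (ZMod (2 ^ r)) :=
    ∑ i ∈ Finset.range (d + 2), Polynomial.C (b i) * M40 (ZMod (2 ^ r)) d i with hP
  have hev : ∀ q : ℕ, 1 ≤ q → P.eval (q : ZMod (2 ^ r)) =
      (d.factorial : ZMod (2 ^ r)) * PowerSeries.coeff q G := by
    intro q hq
    exact eval40 b d q hq hb1
  have hPd : P.natDegree < d + 1 := by
    rw [Nat.lt_succ_iff, hP]
    refine Polynomial.natDegree_sum_le_of_forall_le _ _ fun i _ => ?_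
    refine (Polynomial.natDegree_C_mul_le _ _).trans ?_
    rw [M40_deg]
  have hPc : P.coeff d = (-1) ^ (d + 1) := by
    rw [hP, Polynomial.finsetSum_coeff]
    have : ∀ i ∈ Finset.range (d + 2), (Polynomial.C (b i) * M40 (ZMod (2 ^ r)) d i).coeff d
        = (-1) ^ i * a i := by
      intro i _
      rw [Polynomial.coeff_C_mul]
      have h1 := (M40_monic (R := ZMod (2 ^ r)) d i).coeff_natDegree
      rw [M40_deg] at h1
      rw [h1, mul_one]
    rw [Finset.sum_congr rfl this]
    exact ha2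
  have hrec : ∀ q : ℕ, 1 ≤ q → ∑ k : Fin (d + 1),
      ((2 * 2 ^ (k : ℕ) - 2 ^ (d + 1)) * P.coeff (k : ℕ)) * (q : ZMod (2 ^ r)) ^ (k : ℕ) = 0 := by
    intro q hq
    have h1 : 2 * P.eval ((2 * q : ℕ) : ZMod (2 ^ r)) = 2 ^ (d + 1) * P.eval (q : ZMod (2 ^ r)) := by
      rw [hev q hq, hev (2 * q) (by omega)]
      linear_combination (d.factorial : ZMod (2 ^ r)) * hkey q
    rw [Polynomial.eval_eq_sum_range' hPd, Polynomial.eval_eq_sum_range' hPd,
      Finset.mul_sum, Finset.mul_sum, ← sub_eq_zero, ← Finset.sum_sub_distrib] at h1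
    rw [← h1, Finset.sum_range]
    refine Finset.sum_congr rfl fun k _ => ?_
    push_cast
    ring
  have hv := vdm40 (d + 1) _ hrec
  have hz : ∀ k ∈ Finset.range d, ((D : ℤ) : ZMod (2 ^ r)) * ((E : ℤ) : ZMod (2 ^ r)) * P.coeff k = 0 := by
    intro k hk
    have h1 := hv ⟨k, by rw [Finset.mem_range] at hk; omega⟩
    obtain ⟨e, he⟩ := Finset.dvd_prod_of_mem (fun k => ((2 : ℤ) * 2 ^ k - 2 ^ (d + 1))) hk
    rw [hE, he]
    push_cast
    rw [← hD] at h1
    simp only at h1
    linear_combination (e : ZMod (2 ^ r)) * h1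
  have h1 := hev 1 le_rfl
  rw [Polynomial.eval_eq_sum_range' hPd, Finset.sum_range_succ, hPc] at h1
  simp only [Nat.cast_one, one_pow, mul_one] at h1
  have h2 : ((D : ℤ) : ZMod (2 ^ r)) * ((E : ℤ) : ZMod (2 ^ r)) *
      ∑ x ∈ Finset.range d, P.coeff x = 0 := by
    rw [Finset.mul_sum]
    exact Finset.sum_eq_zero hz
  obtain ⟨w, hw⟩ : 2 ∣ d.factorial := Nat.dvd_factorial (by norm_num) hd
  rw [hw] at h1
  push_cast at h1
  set g := PowerSeries.coeff 1 G with hg
  have hs : ((-1 : ZMod (2 ^ r)) ^ (d + 1)) * ((-1 : ZMod (2 ^ r)) ^ (d + 1)) = 1 := by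
    rw [← mul_pow]; simp
  have h3 : ((D : ℤ) : ZMod (2 ^ r)) * ((E : ℤ) : ZMod (2 ^ r)) *
      (1 - 2 * ((-1 : ZMod (2 ^ r)) ^ (d + 1) * (w * g))) = 0 := by
    linear_combination (((-1 : ZMod (2 ^ r)) ^ (d + 1)) * ((D : ℤ) : ZMod (2 ^ r)) * ((E : ℤ) : ZMod (2 ^ r))) * h1 - ((-1 : ZMod (2 ^ r)) ^ (d + 1)) * h2 - (((D : ℤ) : ZMod (2 ^ r)) * ((E : ℤ) : ZMod (2 ^ r))) * hs
  have hnil : IsNilpotent (2 * ((-1 : ZMod (2 ^ r)) ^ (d + 1) * (w * g))) := by
    refine ⟨r, ?_⟩
    rw [mul_pow]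
    have : (2 : ZMod (2 ^ r)) ^ r = 0 := by
      have := ZMod.natCast_self (2 ^ r)
      push_cast at this
      exact this
    rw [this, zero_mul]
  have h4 : ((D : ℤ) : ZMod (2 ^ r)) * ((E : ℤ) : ZMod (2 ^ r)) = 0 :=
    (hnil.isUnit_one_sub.mul_left_eq_zero).1 h3
  rw [← Int.cast_mul, ZMod.intCast_zmod_eq_zero_iff_dvd] at h4
  have h5 : 2 ^ r ≤ (D * E).natAbs := by
    refine Nat.le_of_dvd (Int.natAbs_pos.2 (mul_ne_zero hD0 hE0)) ?_
    have := Int.natAbs_dvd_natAbs.2 h4
    simpa using this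
  have h6 : r < 2 ^ r := Nat.lt_two_pow_self
  omega


end S_numeric

alias numeric := S_numeric.numeric

end SF
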