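import Pool.Agent.Helper297.SF.Defs
set_option autoImplicit false
open MvPolynomial

namespace SF
namespace S_prime_case
theorem hc_pow {K : Type} [Field K] [CharP K 2] (n r : ℕ) (G : MvPolynomial (Fin n) K) (d : ℕ) :
    homogeneousComponent (d * 2 ^ r) (G ^ (2 ^ r)) = (homogeneousComponent d G) ^ (2 ^ r) := by
  have hq : 0 < 2 ^ r := by positivity
  have h1 : G ^ (2 ^ r) = ∑ i ∈ Finset.range (G.totalDegree + 1),
      (homogeneousComponent i G) ^ (2 ^ r) := by
    conv_lhs => rw [← MvPolynomial.sum_homogeneousComponent G]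
    exact sum_pow_char_pow 2 r _ _
  rw [h1, map_sum]
  have h2 : ∀ i ∈ Finset.range (G.totalDegree + 1),
      homogeneousComponent (d * 2 ^ r) ((homogeneousComponent i G) ^ (2 ^ r)) =
      if i = d then (homogeneousComponent d G) ^ (2 ^ r) else 0 := by
    intro i _
    have h3 : ((homogeneousComponent i G) ^ (2 ^ r)).IsHomogeneous (i * 2 ^ r) :=
      (homogeneousComponent_isHomogeneous i G).pow _
    rw [homogeneousComponent_of_mem h3]
    by_cases h : i = d
    · subst h; simp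
    · rw [if_neg h, if_neg]
      intro h4
      exact h (Nat.eq_of_mul_eq_mul_right hq h4).symm
  rw [Finset.sum_congr rfl h2, Finset.sum_ite_eq']
  split_ifs with h
  · rfl
  · rw [homogeneousComponent_eq_zero, zero_pow hq.ne']
    simpa using h

/-- J3 -/
theorem prime_case
    (FL : ∀ (Q : Type) [Field Q] [CharP Q 2] (t : Q) (n e s : ℕ), n ≤ 2 ^ e → e ≤ s →
      ∀ (y : Fin n → Q), (∃ i, y i ≠ 0) → ∑ i : Fin n, t ^ (i : ℕ) * y i ^ (2 ^ s) = 0 →
      ∃ ε : Q, ε ^ (2 ^ (s - e)) = t)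
    {K : Type} [Field K] [CharP K 2] (t : K) (n e s : ℕ) (hn : n ≤ 2 ^ e) (hes : e ≤ s)
    (P : Ideal (MvPolynomial (Fin n) K)) (hP : P.IsPrime)
    (hhom : ∀ p ∈ P, ∀ d, homogeneousComponent d p ∈ P)
    (hF : Fp K n s t ∈ P) (hX : ∃ i, (X i : MvPolynomial (Fin n) K) ∉ P) :
    ∃ (c : ℕ) (g h : MvPolynomial (Fin n) K), g.IsHomogeneous c ∧ h.IsHomogeneous c ∧ h ∉ P ∧
      g ^ (2 ^ (s - e)) - C t * h ^ (2 ^ (s - e)) ∈ P := by
  haveI := hP
  let T := MvPolynomial (Fin n) K ⧸ P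
  let Q := FractionRing T
  let ψ : MvPolynomial (Fin n) K →+* Q := (algebraMap T Q).comp (Ideal.Quotient.mk P)
  have hψ : ∀ p, ψ p = 0 ↔ p ∈ P := by
    intro p
    change (algebraMap T Q) (Ideal.Quotient.mk P p) = 0 ↔ _
    rw [map_eq_zero_iff _ (IsFractionRing.injective T Q), Ideal.Quotient.eq_zero_iff_mem]
  haveI : CharP Q 2 := charP_of_injective_ringHom (f := ψ.comp C) (ψ.comp C).injective 2
  obtain ⟨i0, hi0⟩ := hX
  obtain ⟨eps, heps⟩ := FL Q (ψ (C t)) n e s hn hes (fun i => ψ (X i))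
    ⟨i0, fun h => hi0 ((hψ _).1 h)⟩ (by
      have h1 := (hψ _).2 hF
      rw [Fp, map_sum] at h1
      rw [← h1]
      refine Finset.sum_congr rfl fun i _ => ?_
      rw [C_pow, map_mul, map_pow ψ, map_pow ψ])
  obtain ⟨x, y, hy, hxy⟩ := IsFractionRing.div_surjective (A := T) eps
  obtain ⟨G, rfl⟩ := Ideal.Quotient.mk_surjective x
  obtain ⟨H, rfl⟩ := Ideal.Quotient.mk_surjective y
  have hH0 : ψ H ≠ 0 := by
    intro h
    have h1 : (Ideal.Quotient.mk P H) = 0 := by
      rw [Ideal.Quotient.eq_zero_iff_mem]; exact (hψ _).1 h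
    exact nonZeroDivisors.ne_zero hy h1
  have hxy' : ψ G / ψ H = eps := hxy
  have hGH : G ^ (2 ^ (s - e)) - C t * H ^ (2 ^ (s - e)) ∈ P := by
    rw [← hψ, map_sub, map_mul, map_pow, map_pow, ← heps, ← hxy', div_pow,
      div_mul_cancel₀ _ (pow_ne_zero _ hH0), sub_self]
  have hH : H ∉ P := fun h => hH0 ((hψ _).2 h)
  have hc : ∃ c, homogeneousComponent c H ∉ P := by
    by_contra hcon
    push Not at hcon
    apply hH
    rw [← MvPolynomial.sum_homogeneousComponent H]
    exact Ideal.sum_mem _ fun i _ => hcon i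
  obtain ⟨c, hc⟩ := hc
  refine ⟨c, homogeneousComponent c G, homogeneousComponent c H,
    homogeneousComponent_isHomogeneous c G, homogeneousComponent_isHomogeneous c H, hc, ?_⟩
  have h5 := hhom _ hGH (c * 2 ^ (s - e))
  rwa [map_sub, homogeneousComponent_C_mul, hc_pow, hc_pow] at h5


end S_prime_case

alias prime_case := S_prime_case.prime_case

end SF
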