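import Pool.Agent.Helper297.SF.Defs
set_option autoImplicit false
open MvPolynomial

namespace SF
namespace S_regular_away
/-- J77: a principal open subset of affine space is regular. -/
theorem regular_away (k : Type) [Field k] (n : ℕ) (F : MvPolynomial (Fin n) (Polynomial k)) :
    IsRegularRing (Localization.Away F) := by
  have hB : IsRegularRing (MvPolynomial (Fin n) (Polynomial k)) := inferInstance
  have hN : IsNoetherianRing (Localization.Away F) :=
    IsLocalization.isNoetherianRing (Submonoid.powers F) _ inferInstance
  rw [isRegularRing_iff]
  intro p hp
  have hreg : IsRegularLocalRing (Localization.AtPrime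
      (p.comap (algebraMap (MvPolynomial (Fin n) (Polynomial k)) (Localization.Away F)))) :=
    hB.isRegularLocalRing_localization _
  exact IsRegularLocalRing.of_ringEquiv
    (R := Localization.AtPrime
      (p.comap (algebraMap (MvPolynomial (Fin n) (Polynomial k)) (Localization.Away F))))
    (IsLocalization.localizationLocalizationAtPrimeIsoLocalization
      (Submonoid.powers F) p).toRingEquiv


end S_regular_away

alias regular_away := S_regular_away.regular_away

end SF
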