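import Pool.Agent.Helper297.SF.Lib
set_option autoImplicit false
open MvPolynomial

namespace SF
namespace S_rel_row

theorem th_sub {R : Type} [CommRing R] {F : R} {A : Type} [AddCommGroup A] (Θ : Inv R F A)
    (M : Type) [AddCommGroup M] [Module R M] [Subsingleton M] : Θ.th M = 0 := by
  have hf : Module.Finite R M := inferInstance
  have ht : ∃ b : ℕ, ∀ v : M, F ^ b • v = 0 := ⟨0, fun v => Subsingleton.elim _ _⟩
  have h := Θ.add M (⊤ : Submodule R M) hf ht
  have h1 : Θ.th M = Θ.th (⊤ : Submodule R M) := Θ.congr _ _ hf ht (Submodule.topEquiv.symm)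
  have h2 : Θ.th M = Θ.th (M ⧸ (⊤ : Submodule R M)) := Θ.congr _ _ hf ht 0
  rw [← h1, ← h2] at h
  simpa using h

theorem mulW_XD {R : Type} [CommRing R] {n : ℕ} (w : Fin n → R) {i : ℕ}
    {u : Finset (Fin n) → R} (hu : u ∈ XD R n i) : mulW w u ∈ XD R n (i + 1) := by
  intro I hI
  refine Finset.sum_eq_zero fun j hj => ?_
  rw [hu (I.erase j) (by
    rw [Finset.card_erase_of_mem hj]
    have := Finset.card_pos.2 ⟨j, hj⟩
    omega), mul_zero]

theorem Phi_XD {R : Type} [CommRing R] {n : ℕ} (M : Matrix (Fin n) (Fin n) R) {i : ℕ}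
    {u : Finset (Fin n) → R} (hu : u ∈ XD R n i) : Phi M u ∈ XD R n i := by
  intro I hI
  have e : Phi M u I = ∑ J, u J * cm M J I := rfl
  rw [e]
  refine Finset.sum_eq_zero fun J _ => ?_
  by_cases h : J.card = i
  · rw [cm_card n M J I (by omega), mul_zero]
  · rw [hu J h, zero_mul]

theorem Phi_Phi {R : Type} [CommRing R] [CharP R 2] {n : ℕ} (M M' : Matrix (Fin n) (Fin n) R)
    (c : R) (hM : M' * M = c • (1 : Matrix (Fin n) (Fin n) R)) (u : Finset (Fin n) → R) :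
    Phi M (Phi M' u) = fun I => u I * c ^ I.card := by
  have e : Phi M (Phi M' u) = Matrix.vecMul (Matrix.vecMul u (cm M')) (cm M) := rfl
  rw [e, Matrix.vecMul_vecMul, ← cm_mul, hM, cm_smul_one]
  funext I
  rw [Matrix.vecMul_diagonal]

theorem Phi_inj {R : Type} [CommRing R] [IsDomain R] [CharP R 2] {n : ℕ}
    (M M' : Matrix (Fin n) (Fin n) R)
    (c : R) (hc : c ≠ 0) (hM : M' * M = c • (1 : Matrix (Fin n) (Fin n) R)) :
    Function.Injective (Phi M) := by
  have hdet : (cm M).det ≠ 0 := by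
    intro h
    have h1 : (cm M' * cm M).det = 0 := by rw [Matrix.det_mul, h, mul_zero]
    rw [← cm_mul, hM, cm_smul_one, Matrix.det_diagonal] at h1
    obtain ⟨I, _, hI⟩ := Finset.prod_eq_zero_iff.1 h1
    exact pow_ne_zero _ hc hI
  rw [injective_iff_map_eq_zero]
  intro u hu
  exact Matrix.eq_zero_of_vecMul_eq_zero hdet hu

theorem map_mulE {R : Type} [CommRing R] [CharP R 2] (n : ℕ) (j : Fin n) (i : ℕ) :
    (XD R n i).map (mulW (Pi.single j 1)) =
      XD R n (i + 1) ⊓ LinearMap.ker (mulW (Pi.single j (1 : R))) := by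
  apply le_antisymm
  · rintro _ ⟨u, hu, rfl⟩
    exact ⟨mulW_XD _ hu, mulW_mulW n _ u⟩
  · rintro u ⟨hu, hk⟩
    obtain ⟨v, hv, hvu⟩ := mulE_exact n j (i + 1) u hu hk
    exact ⟨v, fun I hI => hv I (by omega), hvu⟩

theorem map_mulX {K : Type} [Field K] [CharP K 2] (n : ℕ) (i : ℕ) (hi : i + 1 < n) :
    (XD (MvPolynomial (Fin n) K) n i).map (mulW (fun j => (X j : MvPolynomial (Fin n) K))) =
      XD _ n (i + 1) ⊓ LinearMap.ker (mulW (fun j => (X j : MvPolynomial (Fin n) K))) := by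
  apply le_antisymm
  · rintro _ ⟨u, hu, rfl⟩
    exact ⟨mulW_XD _ hu, mulW_mulW n _ u⟩
  · rintro u ⟨hu, hk⟩
    obtain ⟨v, hv, hvu⟩ := mulX_exact n (i + 1) hi u hu hk
    exact ⟨v, fun I hI => hv I (by omega), hvu⟩

theorem XD_top_zero {R : Type} [CommRing R] {n : ℕ} {i : ℕ} (hi : n < i)
    {u : Finset (Fin n) → R} (hu : u ∈ XD R n i) : u = 0 := by
  funext I
  refine hu I ?_
  have : I.card ≤ n := by simpa using Finset.card_le_univ I
  omega

theorem mulW_singleton {R : Type} [CommRing R] {n : ℕ} (w : Fin n → R) (j : Fin n)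
    (u : Finset (Fin n) → R) : mulW w u {j} = w j * u ∅ := by
  have e : mulW w u {j} = ∑ i ∈ ({j} : Finset (Fin n)), w i * u (({j} : Finset (Fin n)).erase i) :=
    rfl
  rw [e, Finset.sum_singleton]
  simp

theorem XD_zero_ker {R : Type} [CommRing R] [IsDomain R] {n : ℕ} (w : Fin n → R) (j : Fin n)
    (hw : w j ≠ 0) : XD R n 0 ⊓ LinearMap.ker (mulW w) = ⊥ := by
  rw [eq_bot_iff]
  rintro u ⟨hu, hk⟩
  have h1 : mulW w u {j} = 0 := by
    have : mulW w u = 0 := hk
    rw [this]; rfl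
  rw [mulW_singleton] at h1
  have h2 : u ∅ = 0 := (mul_eq_zero.1 h1).resolve_left hw
  have h3 : u = 0 := by
    funext I
    by_cases h : I.card = 0
    · rw [Finset.card_eq_zero] at h
      rw [h, h2]; rfl
    · exact hu I h
  rw [h3]
  exact Submodule.zero_mem _

theorem tele {A : Type} [AddCommGroup A] (a z : ℕ → A) (m : ℕ)
    (h : ∀ i < m, a i = z i + z (i + 1)) :
    ∑ i ∈ Finset.range m, (-1 : ℤ) ^ i • a i = z 0 - (-1 : ℤ) ^ m • z m := by
  induction m with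
  | zero => simp
  | succ m ih =>
    rw [Finset.sum_range_succ, ih fun i hi => h i (by omega), h m (by omega), pow_succ]
    simp only [smul_add, mul_neg, mul_one, neg_smul]
    abel

theorem th_top {K : Type} [Field K] [CharP K 2] (m : ℕ)
    (F : MvPolynomial (Fin (m + 1)) K) {A : Type} [AddCommGroup A]
    (Θ : Inv (MvPolynomial (Fin (m + 1)) K) F A)
    (hF1 : F ∈ Ideal.span (Set.range (X : Fin (m + 1) → MvPolynomial (Fin (m + 1)) K))) :
    ix Θ LinearMap.id ((XD (MvPolynomial (Fin (m + 1)) K) (m + 1) m).map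
      (mulW (fun j => (X j : MvPolynomial (Fin (m + 1)) K))))
      (XD (MvPolynomial (Fin (m + 1)) K) (m + 1) (m + 1)) =
    Θ.th (MvPolynomial (Fin (m + 1)) K ⧸
          Ideal.span (Set.range (X : Fin (m + 1) → MvPolynomial (Fin (m + 1)) K))) := by
  set R := MvPolynomial (Fin (m + 1)) K with hR
  set I0 : Ideal R := Ideal.span (Set.range (X : Fin (m + 1) → MvPolynomial (Fin (m + 1)) K))
    with hI0
  have htop : ∀ u : Finset (Fin (m + 1)) → R, u ∈ (XD R (m + 1) m).map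
      (mulW (fun j => (X j : MvPolynomial (Fin (m + 1)) K))) ↔
      u ∈ XD R (m + 1) (m + 1) ∧ u Finset.univ ∈ I0 := fun u => mulX_top (m + 1) (by omega) u
  set N : Submodule R (Finset (Fin (m + 1)) → R) := XD R (m + 1) (m + 1) with hN
  set T : Submodule R (Finset (Fin (m + 1)) → R) := (XD R (m + 1) m).map
      (mulW (fun j => (X j : MvPolynomial (Fin (m + 1)) K))) with hT
  let φ : N →ₗ[R] R ⧸ I0 := (Submodule.mkQ I0) ∘ₗ (LinearMap.proj Finset.univ) ∘ₗ N.subtype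
  have hφ : ∀ u : N, φ u = Submodule.Quotient.mk (u.1 Finset.univ) := fun u => rfl
  have hsurj : Function.Surjective φ := by
    intro q
    obtain ⟨r, rfl⟩ := Submodule.Quotient.mk_surjective _ q
    refine ⟨⟨fun I => if I = Finset.univ then r else 0, ?_⟩, ?_⟩
    · intro I hI
      have : I ≠ Finset.univ := by
        rintro rfl
        apply hI
        simp
      simp [this]
    · rw [hφ]
      simp
  have hker : LinearMap.ker φ = (T.map LinearMap.id).submoduleOf N := by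
    ext u
    rw [LinearMap.mem_ker, hφ, Submodule.Quotient.mk_eq_zero]
    change _ ↔ (u : Finset (Fin (m + 1)) → R) ∈ T.map LinearMap.id
    rw [Submodule.map_id, htop]
    exact ⟨fun h => ⟨u.2, h⟩, fun h => h.2⟩
  have hfinN : Module.Finite R N := Module.Finite.iff_fg.2 (IsNoetherian.noetherian _)
  unfold ix
  refine Θ.congr _ _ inferInstance ⟨1, fun v => ?_⟩
    ((Submodule.quotEquivOfEq _ _ hker.symm).trans (φ.quotKerEquivOfSurjective hsurj))
  obtain ⟨u, rfl⟩ := Submodule.Quotient.mk_surjective _ v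
  rw [← Submodule.Quotient.mk_smul, Submodule.Quotient.mk_eq_zero, ← hker, LinearMap.mem_ker,
    map_smul, hφ, pow_one, ← Submodule.Quotient.mk_smul, Submodule.Quotient.mk_eq_zero,
    smul_eq_mul]
  exact I0.mul_mem_right _ hF1



/-- J62: the relation coming from the first row. -/
theorem rel_row {K : Type} [Field K] [CharP K 2] (n : ℕ) (hn : 0 < n)
    (F : MvPolynomial (Fin n) K) (hF : F ≠ 0) {A : Type} [AddCommGroup A]
    (Θ : Inv (MvPolynomial (Fin n) K) F A)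
    (hF1 : F ∈ Ideal.span (Set.range (X : Fin n → MvPolynomial (Fin n) K)))
    (M M' : Matrix (Fin n) (Fin n) (MvPolynomial (Fin n) K)) (b : ℕ)
    (hM : M' * M = F ^ b • (1 : Matrix (Fin n) (Fin n) (MvPolynomial (Fin n) K)))
    (hrow : ∀ i, M ⟨0, hn⟩ i = X i) :
    ∑ i ∈ Finset.range (n + 1), (-1 : ℤ) ^ i • ix Θ (Phi M) (XD _ n i) (XD _ n i)
      = (-1 : ℤ) ^ n • Θ.th (MvPolynomial (Fin n) K ⧸
          Ideal.span (Set.range (X : Fin n → MvPolynomial (Fin n) K))) := by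
  obtain ⟨m, rfl⟩ : ∃ m, n = m + 1 := ⟨n - 1, by omega⟩
  have hrowv : Matrix.vecMul (Pi.single (⟨0, hn⟩ : Fin (m + 1))
      (1 : MvPolynomial (Fin (m + 1)) K)) M = fun j => X j := by
    rw [Matrix.single_one_vecMul]
    funext j
    exact hrow j
  have hcomm : ∀ u, mulW (fun j => (X j : MvPolynomial (Fin (m + 1)) K)) (Phi M u) =
      Phi M (mulW (Pi.single (⟨0, hn⟩ : Fin (m + 1)) (1 : MvPolynomial (Fin (m + 1)) K)) u) := by
    intro u
    rw [Phi_mulW (m + 1) M (lap_row (m + 1) M), hrowv]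
  set d1 := mulW (fun j => (X j : MvPolynomial (Fin (m + 1)) K)) with hd1
  set d2 := mulW (Pi.single (⟨0, hn⟩ : Fin (m + 1)) (1 : MvPolynomial (Fin (m + 1)) K)) with hd2
  have hinj : Function.Injective (Phi M) := Phi_inj M M' _ (pow_ne_zero b hF) hM
  have hfg : ∀ S : Submodule (MvPolynomial (Fin (m + 1)) K)
      (Finset (Fin (m + 1)) → MvPolynomial (Fin (m + 1)) K), S.FG := fun S =>
    IsNoetherian.noetherian S
  have hS : ∀ i, (XD (MvPolynomial (Fin (m + 1)) K) (m + 1) i).map (Phi M) ≤ XD _ (m + 1) i := by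
    rintro i _ ⟨u, hu, rfl⟩
    exact Phi_XD M hu
  have htor : ∀ i, ∀ v ∈ XD (MvPolynomial (Fin (m + 1)) K) (m + 1) i,
      F ^ (b * i) • v ∈ (XD (MvPolynomial (Fin (m + 1)) K) (m + 1) i).map (Phi M) := by
    intro i v hv
    refine ⟨Phi M' v, Phi_XD M' hv, ?_⟩
    rw [Phi_Phi M M' _ hM]
    funext I
    by_cases h : I.card = i
    · rw [Pi.smul_apply, smul_eq_mul, h, pow_mul]
      ring
    · rw [Pi.smul_apply, hv I h, smul_zero, zero_mul]
  have hpair : ∀ i, ix Θ (Phi M) (XD _ (m + 1) i) (XD _ (m + 1) i) =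
      ix Θ (Phi M) (XD _ (m + 1) i ⊓ LinearMap.ker d2) (XD _ (m + 1) i ⊓ LinearMap.ker d1) +
      ix Θ (Phi M) ((XD _ (m + 1) i).map d2) ((XD _ (m + 1) i).map d1) := fun i =>
    ix_pairs Θ (Phi M) (Phi M) hinj d1 d2 _ _ (hfg _) (hS i) ⟨b * i, htor i⟩
      (fun u _ => hcomm u)
  have hz : ∀ i < m, ix Θ (Phi M) (XD _ (m + 1) i) (XD _ (m + 1) i) =
      ix Θ (Phi M) (XD _ (m + 1) i ⊓ LinearMap.ker d2) (XD _ (m + 1) i ⊓ LinearMap.ker d1) +
      ix Θ (Phi M) (XD _ (m + 1) (i + 1) ⊓ LinearMap.ker d2)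
        (XD _ (m + 1) (i + 1) ⊓ LinearMap.ker d1) := by
    intro i hi
    rw [hpair i, hd1, hd2, map_mulE, map_mulX (m + 1) i (by omega)]
  have hz0 : ix Θ (Phi M) (XD _ (m + 1) 0 ⊓ LinearMap.ker d2)
      (XD _ (m + 1) 0 ⊓ LinearMap.ker d1) = 0 := by
    have e1 : XD _ (m + 1) 0 ⊓ LinearMap.ker d1 = ⊥ :=
      XD_zero_ker _ (⟨0, hn⟩ : Fin (m + 1)) (X_ne_zero _)
    have e2 : XD _ (m + 1) 0 ⊓ LinearMap.ker d2 = ⊥ :=
      XD_zero_ker _ (⟨0, hn⟩ : Fin (m + 1)) (by simp)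
    rw [e1, e2]
    unfold ix
    exact th_sub Θ _
  have hmap2 : (XD (MvPolynomial (Fin (m + 1)) K) (m + 1) m).map d2 = XD _ (m + 1) (m + 1) := by
    rw [hd2, map_mulE, inf_eq_left]
    intro u hu
    exact XD_top_zero (Nat.lt_succ_self _) (mulW_XD _ hu)
  have hle : (XD (MvPolynomial (Fin (m + 1)) K) (m + 1) (m + 1)).map (Phi M) ≤
      (XD (MvPolynomial (Fin (m + 1)) K) (m + 1) m).map d1 := by
    rintro _ ⟨u, hu, rfl⟩
    rw [← hmap2] at hu
    obtain ⟨v, hv, rfl⟩ := hu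
    exact ⟨Phi M v, Phi_XD M hv, hcomm v⟩
  have hle2 : ((XD (MvPolynomial (Fin (m + 1)) K) (m + 1) m).map d1).map LinearMap.id ≤
      XD (MvPolynomial (Fin (m + 1)) K) (m + 1) (m + 1) := by
    rw [Submodule.map_id]
    rintro _ ⟨u, hu, rfl⟩
    exact mulW_XD _ hu
  have hlast := ix_comp Θ (Phi M) LinearMap.id Function.injective_id
    (XD _ (m + 1) (m + 1)) ((XD _ (m + 1) m).map d1) (XD _ (m + 1) (m + 1)) (hfg _) hle hle2
    ⟨b * (m + 1), by
      rw [LinearMap.id_comp]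
      exact htor (m + 1)⟩
  rw [LinearMap.id_comp, hd1, th_top m F Θ hF1, ← hd1] at hlast
  have hprev := hpair m
  rw [hmap2] at hprev
  rw [Finset.sum_range_succ, Finset.sum_range_succ,
    tele (fun i => ix Θ (Phi M) (XD _ (m + 1) i) (XD _ (m + 1) i))
      (fun i => ix Θ (Phi M) (XD _ (m + 1) i ⊓ LinearMap.ker d2)
        (XD _ (m + 1) i ⊓ LinearMap.ker d1)) m hz, hlast, hprev]
  simp only [hz0, pow_succ, smul_add, mul_neg, mul_one, neg_smul]
  abel


end S_rel_row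

alias rel_row := S_rel_row.rel_row

end SF
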