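import Pool.Agent.Helper297.SF.Lib
set_option autoImplicit false
open MvPolynomial

namespace SF
namespace S_rel_tensor

section h170

theorem h170_th_zero {R : Type} [CommRing R] {F : R} {A : Type} [AddCommGroup A] (Θ : Inv R F A)
    (M : Type) [AddCommGroup M] [Module R M] [Subsingleton M] : Θ.th M = 0 := by
  have h1 := Θ.add M ⊥ inferInstance ⟨0, fun v => Subsingleton.elim _ _⟩
  have h2 : Θ.th (⊥ : Submodule R M) = Θ.th M :=
    Θ.congr _ _ inferInstance ⟨0, fun v => Subsingleton.elim _ _⟩ (0 : (⊥ : Submodule R M) ≃ₗ[R] M)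
  haveI : Subsingleton (M ⧸ (⊥ : Submodule R M)) :=
    ⟨fun a b => by
      obtain ⟨a, rfl⟩ := Submodule.Quotient.mk_surjective _ a
      obtain ⟨b, rfl⟩ := Submodule.Quotient.mk_surjective _ b
      rw [Subsingleton.elim a b]⟩
  have h3 : Θ.th (M ⧸ (⊥ : Submodule R M)) = Θ.th M :=
    Θ.congr _ _ inferInstance ⟨0, fun v => Subsingleton.elim _ _⟩
      (0 : (M ⧸ (⊥ : Submodule R M)) ≃ₗ[R] M)
  rw [h2, h3] at h1
  simpa using h1

theorem h170_ix_bot {R : Type} [CommRing R] {F : R} {A : Type} [AddCommGroup A] (Θ : Inv R F A)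
    {Y2 Y1 : Type} [AddCommGroup Y2] [Module R Y2] [AddCommGroup Y1] [Module R Y1]
    (f : Y2 →ₗ[R] Y1) (S2 : Submodule R Y2) : ix Θ f S2 ⊥ = 0 := by
  unfold ix
  haveI : Subsingleton (↥(⊥ : Submodule R Y1) ⧸ (S2.map f).submoduleOf ⊥) :=
    ⟨fun a b => by
      obtain ⟨a, rfl⟩ := Submodule.Quotient.mk_surjective _ a
      obtain ⟨b, rfl⟩ := Submodule.Quotient.mk_surjective _ b
      rw [Subsingleton.elim a b]⟩
  exact h170_th_zero Θ _

theorem h170_Psi_apply {R : Type} [CommRing R] {n : ℕ} (M : Matrix (Fin n) (Fin n) R)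
    (u : Finset (Fin n) × Finset (Fin n) → R) (p : Finset (Fin n) × Finset (Fin n)) :
    Psi M u p = ∑ q, u q * (cm M q.1 p.1 * cm M q.2 p.2) := rfl

theorem h170_Phi_apply {R : Type} [CommRing R] {n : ℕ} (M : Matrix (Fin n) (Fin n) R)
    (u : Finset (Fin n) → R) (I : Finset (Fin n)) :
    Phi M u I = ∑ J, u J * cm M J I := rfl

theorem h170_Psi_mem {R : Type} [CommRing R] {n : ℕ} (M : Matrix (Fin n) (Fin n) R) (k i : ℕ)
    (u : Finset (Fin n) × Finset (Fin n) → R) (hu : u ∈ TD R n k i) : Psi M u ∈ TD R n k i := by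
  intro p hp
  rw [h170_Psi_apply]
  apply Finset.sum_eq_zero
  intro q _
  by_cases h1 : q.1.card = p.1.card
  · by_cases h2 : q.2.card = p.2.card
    · have h3 : u q = 0 := by
        apply hu q
        rw [h1, h2]
        exact hp
      rw [h3, zero_mul]
    · rw [cm_card n M q.2 p.2 h2, mul_zero, mul_zero]
  · rw [cm_card n M q.1 p.1 h1, zero_mul, mul_zero]

theorem h170_Psi_Psi {R : Type} [CommRing R] [CharP R 2] {n : ℕ} (M M' : Matrix (Fin n) (Fin n) R)
    (c : R) (h : M' * M = c • (1 : Matrix (Fin n) (Fin n) R))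
    (u : Finset (Fin n) × Finset (Fin n) → R) (p : Finset (Fin n) × Finset (Fin n)) :
    Psi M (Psi M' u) p = c ^ (p.1.card + p.2.card) * u p := by
  have h1 : Psi M (Psi M' u) = Matrix.vecMul (Matrix.vecMul u
      (Matrix.kroneckerMap (· * ·) (cm M') (cm M')))
      (Matrix.kroneckerMap (· * ·) (cm M) (cm M)) := rfl
  rw [h1, Matrix.vecMul_vecMul, ← Matrix.mul_kronecker_mul, ← cm_mul, h, cm_smul_one,
    Matrix.diagonal_kronecker_diagonal, Matrix.vecMul_diagonal, pow_add]
  ring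

theorem h170_Phi_Phi {R : Type} [CommRing R] [CharP R 2] {n : ℕ} (M M' : Matrix (Fin n) (Fin n) R)
    (c : R) (h : M' * M = c • (1 : Matrix (Fin n) (Fin n) R))
    (u : Finset (Fin n) → R) (I : Finset (Fin n)) :
    Phi M (Phi M' u) I = c ^ I.card * u I := by
  have h1 : Phi M (Phi M' u) = Matrix.vecMul (Matrix.vecMul u (cm M')) (cm M) := rfl
  rw [h1, Matrix.vecMul_vecMul, ← cm_mul, h, cm_smul_one, Matrix.vecMul_diagonal]
  ring

theorem h170_comm {R : Type} [CommRing R] [IsDomain R] {n : ℕ} (M M' : Matrix (Fin n) (Fin n) R)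
    (c : R) (hc : c ≠ 0) (h : M' * M = c • (1 : Matrix (Fin n) (Fin n) R)) :
    M * M' = c • (1 : Matrix (Fin n) (Fin n) R) := by
  have hdet : M.det ≠ 0 := by
    intro h0
    have h1 := congrArg Matrix.det h
    rw [Matrix.det_mul, h0, mul_zero, Matrix.det_smul, Matrix.det_one, mul_one] at h1
    exact pow_ne_zero _ hc h1.symm
  have h2 : (M * M' - c • (1 : Matrix (Fin n) (Fin n) R)) * M = 0 := by
    rw [sub_mul, Matrix.mul_assoc, h, Matrix.mul_smul, Matrix.mul_one, Matrix.smul_mul,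
      Matrix.one_mul, sub_self]
  have h3 : M.det • (M * M' - c • (1 : Matrix (Fin n) (Fin n) R)) = 0 := by
    have h4 := congrArg (fun X => X * M.adjugate) h2
    simp only [zero_mul] at h4
    rw [Matrix.mul_assoc, Matrix.mul_adjugate, Matrix.mul_smul, Matrix.mul_one] at h4
    exact h4
  rw [smul_eq_zero] at h3
  exact sub_eq_zero.1 (h3.resolve_left hdet)

theorem h170_Psi_inj {R : Type} [CommRing R] [IsDomain R] [CharP R 2] {n : ℕ}
    (M M' : Matrix (Fin n) (Fin n) R) (c : R) (hc : c ≠ 0)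
    (h : M' * M = c • (1 : Matrix (Fin n) (Fin n) R)) : Function.Injective (Psi M) := by
  rw [← LinearMap.ker_eq_bot, LinearMap.ker_eq_bot']
  intro u hu
  funext p
  have h1 := h170_Psi_Psi M' M c (h170_comm M M' c hc h) u p
  rw [hu, map_zero] at h1
  exact (mul_eq_zero.1 h1.symm).resolve_left (pow_ne_zero _ hc)

theorem h170_Phi_inj {R : Type} [CommRing R] [IsDomain R] [CharP R 2] {n : ℕ}
    (M M' : Matrix (Fin n) (Fin n) R) (c : R) (hc : c ≠ 0)
    (h : M' * M = c • (1 : Matrix (Fin n) (Fin n) R)) : Function.Injective (Phi M) := by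
  rw [← LinearMap.ker_eq_bot, LinearMap.ker_eq_bot']
  intro u hu
  funext p
  have h1 := h170_Phi_Phi M' M c (h170_comm M M' c hc h) u p
  rw [hu, map_zero] at h1
  exact (mul_eq_zero.1 h1.symm).resolve_left (pow_ne_zero _ hc)

theorem h170_dT_apply {R : Type} [CommRing R] {n : ℕ}
    (u : Finset (Fin n) × Finset (Fin n) → R) (p : Finset (Fin n) × Finset (Fin n)) :
    dT u p = ∑ i ∈ p.1 \ p.2, u (p.1.erase i, insert i p.2) := rfl

theorem h170_dT_mem {R : Type} [CommRing R] {n : ℕ} (k i : ℕ)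
    (u : Finset (Fin n) × Finset (Fin n) → R) (hu : u ∈ TD R n k (i + 1)) :
    dT u ∈ TD R n k i := by
  intro p hp
  rw [h170_dT_apply]
  apply Finset.sum_eq_zero
  intro j hj
  rw [Finset.mem_sdiff] at hj
  apply hu
  intro h
  apply hp
  have h1 : (p.1.erase j).card + 1 = p.1.card := Finset.card_erase_add_one hj.1
  have h2 : (insert j p.2).card = p.2.card + 1 := Finset.card_insert_of_notMem hj.2
  simp only at h
  omega

theorem h170_dT_zero {R : Type} [CommRing R] {n : ℕ} (k : ℕ)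
    (u : Finset (Fin n) × Finset (Fin n) → R) (hu : u ∈ TD R n k 0) : dT u = 0 := by
  funext p
  rw [h170_dT_apply]
  apply Finset.sum_eq_zero
  intro j hj
  rw [Finset.mem_sdiff] at hj
  apply hu
  intro h
  have h2 : (insert j p.2).card = p.2.card + 1 := Finset.card_insert_of_notMem hj.2
  simp only at h
  omega

theorem h170_dT_diag {R : Type} [CommRing R] {n : ℕ}
    (u : Finset (Fin n) × Finset (Fin n) → R) (I : Finset (Fin n)) : dT u (I, I) = 0 := by
  rw [h170_dT_apply]
  simp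

theorem h170_dT_of_diag {R : Type} [CommRing R] {n : ℕ}
    (u : Finset (Fin n) × Finset (Fin n) → R) (hu : ∀ p, p.1 ≠ p.2 → u p = 0) : dT u = 0 := by
  funext p
  rw [h170_dT_apply]
  apply Finset.sum_eq_zero
  intro j hj
  apply hu
  intro h
  have h1 : p.1.erase j = insert j p.2 := h
  have h2 : j ∈ p.1.erase j := by
    rw [h1]
    exact Finset.mem_insert_self _ _
  exact Finset.notMem_erase j p.1 h2

theorem h170_telescope {A : Type} [AddCommGroup A] (Y : ℕ → A) (N : ℕ) :
    ∑ i ∈ Finset.range N, (-1 : ℤ) ^ i • (Y (i + 1) + Y i) = Y 0 - (-1 : ℤ) ^ N • Y N := by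
  induction N with
  | zero => simp
  | succ N ih =>
    rw [Finset.sum_range_succ, ih, pow_succ, smul_add]
    simp only [mul_neg, mul_one, neg_smul]
    abel

end h170

/-- J63: the relation coming from the complex `(Λ ⊗ Λ, dT)`. -/
theorem rel_tensor {R : Type} [CommRing R] [IsDomain R] [IsNoetherianRing R] [CharP R 2] (n : ℕ)
    (F : R) (hF : F ≠ 0) {A : Type} [AddCommGroup A] (Θ : Inv R F A)
    (M M' : Matrix (Fin n) (Fin n) R) (b : ℕ)
    (hM : M' * M = F ^ b • (1 : Matrix (Fin n) (Fin n) R)) (m : ℕ) :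
    ∑ i ∈ Finset.range (2 * m + 1), (-1 : ℤ) ^ i •
        ix Θ (Psi M) (TD R n (2 * m) i) (TD R n (2 * m) i)
      = (-1 : ℤ) ^ m • ix Θ (Phi (M.map (fun p => p ^ 2))) (XD R n m) (XD R n m) := by
  classical
  have hc : F ^ b ≠ 0 := pow_ne_zero _ hF
  have hinj := h170_Psi_inj M M' (F ^ b) hc hM
  have hPsi_dT : ∀ (N : Matrix (Fin n) (Fin n) R) (u : Finset (Fin n) × Finset (Fin n) → R),
      Psi N (dT u) = dT (Psi N u) := fun N u =>
    Psi_dT n N (fun j J I => lap_row n N j J I) (fun i J I => lap_col n N i J I) u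
  have hFG : ∀ S : Submodule R (Finset (Fin n) × Finset (Fin n) → R), S.FG :=
    fun S => IsNoetherian.noetherian S
  have htor : ∀ (i : ℕ) (v : Finset (Fin n) × Finset (Fin n) → R), v ∈ TD R n (2 * m) i →
      F ^ (b * (2 * m)) • v = Psi M (Psi M' v) := by
    intro i v hv
    funext p
    rw [h170_Psi_Psi M M' (F ^ b) hM, Pi.smul_apply, smul_eq_mul]
    by_cases hp : p.1.card + p.2.card = 2 * m
    · rw [hp, pow_mul]
    · have h1 : v p = 0 := hv p (fun h => hp h.1)
      rw [h1, mul_zero, mul_zero]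
  -- first splitting
  have ht : ∀ i, ix Θ (Psi M) (TD R n (2 * m) i) (TD R n (2 * m) i) =
      ix Θ (Psi M) (TD R n (2 * m) i ⊓ LinearMap.ker dT) (TD R n (2 * m) i ⊓ LinearMap.ker dT) +
      ix Θ (Psi M) ((TD R n (2 * m) i).map dT) ((TD R n (2 * m) i).map dT) := by
    intro i
    apply ix_pairs Θ (Psi M) (Psi M) hinj dT dT _ _ (hFG _)
    · rintro _ ⟨u, hu, rfl⟩
      exact h170_Psi_mem M _ _ u hu
    · refine ⟨b * (2 * m), ?_⟩
      intro v hv
      rw [htor i v hv]
      exact ⟨Psi M' v, h170_Psi_mem M' _ _ v hv, rfl⟩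
    · intro u _
      rw [hPsi_dT]
  obtain ⟨Y, hY⟩ : ∃ Y : ℕ → A, Y = fun i =>
    ix Θ (Psi M) ((TD R n (2 * m) i).map dT) ((TD R n (2 * m) i).map dT) := ⟨_, rfl⟩
  obtain ⟨Z, hZ⟩ : ∃ Z : ℕ → A, Z = fun i =>
    ix Θ (Psi M) (TD R n (2 * m) i ⊓ LinearMap.ker dT) (TD R n (2 * m) i ⊓ LinearMap.ker dT) :=
    ⟨_, rfl⟩
  obtain ⟨P, hP⟩ : ∃ P : A, P = ix Θ (Phi (M.map (fun p => p ^ 2))) (XD R n m) (XD R n m) :=
    ⟨_, rfl⟩
  have hY0 : Y 0 = 0 := by
    rw [hY]
    show ix Θ (Psi M) ((TD R n (2 * m) 0).map dT) ((TD R n (2 * m) 0).map dT) = 0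
    have h1 : (TD R n (2 * m) 0).map dT = ⊥ := by
      rw [eq_bot_iff]
      rintro _ ⟨u, hu, rfl⟩
      rw [Submodule.mem_bot]
      exact h170_dT_zero _ u hu
    rw [h1]
    exact h170_ix_bot Θ _ _
  have hYtop : Y (2 * m + 1) = 0 := by
    rw [hY]
    show ix Θ (Psi M) ((TD R n (2 * m) (2 * m + 1)).map dT)
      ((TD R n (2 * m) (2 * m + 1)).map dT) = 0
    have h1 : (TD R n (2 * m) (2 * m + 1)).map dT = ⊥ := by
      rw [eq_bot_iff]
      rintro _ ⟨u, hu, rfl⟩
      have h2 : u = 0 := by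
        funext p
        exact hu p (by omega)
      rw [h2, map_zero]
      exact Submodule.zero_mem _
    rw [h1]
    exact h170_ix_bot Θ _ _
  have hstep : ∀ i, i ≠ m → Z i = Y (i + 1) := by
    intro i him
    rw [hY, hZ]
    show ix Θ (Psi M) (TD R n (2 * m) i ⊓ LinearMap.ker dT) (TD R n (2 * m) i ⊓ LinearMap.ker dT) =
      ix Θ (Psi M) ((TD R n (2 * m) (i + 1)).map dT) ((TD R n (2 * m) (i + 1)).map dT)
    have h1 : (TD R n (2 * m) (i + 1)).map dT = TD R n (2 * m) i ⊓ LinearMap.ker dT := by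
      apply le_antisymm
      · rintro _ ⟨u, hu, rfl⟩
        exact ⟨h170_dT_mem _ _ u hu, LinearMap.mem_ker.2 (dT_dT n u)⟩
      · rintro u ⟨hu1, hu2⟩
        obtain ⟨v, hv, hvu⟩ := dT_exact n (2 * m) i u hu1 (LinearMap.mem_ker.1 hu2)
          (fun I => hu1 (I, I) (by
            simp only
            omega))
        exact ⟨v, hv, hvu⟩
    rw [h1]
  have hsq : M.map (fun p => p ^ 2) = M.map (frobenius R 2) := by
    ext i j
    simp [frobenius_def]
  have hcmsq : ∀ J I, cm (M.map (fun p => p ^ 2)) J I = cm M J I ^ 2 := by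
    intro J I
    rw [hsq, cm_map]
    simp [frobenius_def]
  have hM2 : M'.map (frobenius R 2) * M.map (frobenius R 2) =
      (F ^ b) ^ 2 • (1 : Matrix (Fin n) (Fin n) R) := by
    rw [← Matrix.map_mul, hM]
    ext i j
    simp only [Matrix.map_apply, Matrix.smul_apply, smul_eq_mul, map_mul, frobenius_def]
    congr 1
    rw [Matrix.one_apply]
    split_ifs <;> simp
  have hPhiinj : Function.Injective (Phi (M.map (fun p => p ^ 2))) := by
    rw [hsq]
    exact h170_Phi_inj _ _ ((F ^ b) ^ 2) (pow_ne_zero _ hc) hM2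
  -- the diagonal map
  obtain ⟨D, hD⟩ : ∃ D : (Finset (Fin n) × Finset (Fin n) → R) →ₗ[R] (Finset (Fin n) → R),
    ∀ u I, D u I = u (I, I) := ⟨LinearMap.funLeft R R (fun I : Finset (Fin n) => (I, I)),
      fun u I => rfl⟩
  have hdec : ∀ u ∈ TD R n (2 * m) m ⊓ LinearMap.ker dT, ∃ v ∈ TD R n (2 * m) (m + 1),
      dT v = u - (fun p => if p.1 = p.2 then u p else 0) := by
    rintro u ⟨hu1, hu2⟩
    apply dT_exact n (2 * m) m
    · intro p hp
      have h1 : u p = 0 := hu1 p hp
      rw [Pi.sub_apply, h1]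
      simp
    · rw [map_sub, LinearMap.mem_ker.1 hu2, h170_dT_of_diag, sub_zero]
      intro p hp
      exact if_neg hp
    · intro I
      simp
  have hmid : Z m = Y (m + 1) + P := by
    rw [hY, hZ, hP]
    show ix Θ (Psi M) (TD R n (2 * m) m ⊓ LinearMap.ker dT) (TD R n (2 * m) m ⊓ LinearMap.ker dT) =
      ix Θ (Psi M) ((TD R n (2 * m) (m + 1)).map dT) ((TD R n (2 * m) (m + 1)).map dT) +
      ix Θ (Phi (M.map (fun p => p ^ 2))) (XD R n m) (XD R n m)
    have h1 : (TD R n (2 * m) (m + 1)).map dT =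
        (TD R n (2 * m) m ⊓ LinearMap.ker dT) ⊓ LinearMap.ker D := by
      apply le_antisymm
      · rintro _ ⟨u, hu, rfl⟩
        refine ⟨⟨h170_dT_mem _ _ u hu, LinearMap.mem_ker.2 (dT_dT n u)⟩, ?_⟩
        rw [SetLike.mem_coe, LinearMap.mem_ker]
        funext I
        rw [hD]
        exact h170_dT_diag u I
      · rintro u ⟨⟨hu1, hu2⟩, hu3⟩
        obtain ⟨v, hv, hvu⟩ := dT_exact n (2 * m) m u hu1 (LinearMap.mem_ker.1 hu2)
          (fun I => by
            rw [← hD u I, LinearMap.mem_ker.1 hu3]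
            rfl)
        exact ⟨v, hv, hvu⟩
    have h2 : (TD R n (2 * m) m ⊓ LinearMap.ker dT).map D = XD R n m := by
      apply le_antisymm
      · rintro _ ⟨u, ⟨hu1, hu2⟩, rfl⟩
        intro I hI
        rw [hD]
        apply hu1
        simp only
        omega
      · intro w hw
        refine ⟨fun p => if p.1 = p.2 then w p.1 else 0, ⟨?_, ?_⟩, ?_⟩
        · intro p hp
          show (if p.1 = p.2 then w p.1 else 0) = 0
          split_ifs with h
          · apply hw
            intro h3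
            apply hp
            rw [← h]
            omega
          · rfl
        · rw [SetLike.mem_coe, LinearMap.mem_ker]
          apply h170_dT_of_diag
          intro p hp
          exact if_neg hp
        · funext I
          rw [hD]
          simp
    rw [h1, ← h2]
    apply ix_pairs Θ (Psi M) (Phi (M.map (fun p => p ^ 2))) hPhiinj D D _ _ (hFG _)
    · rintro _ ⟨u, ⟨hu1, hu2⟩, rfl⟩
      refine ⟨h170_Psi_mem M _ _ u hu1, ?_⟩
      rw [SetLike.mem_coe, LinearMap.mem_ker, ← hPsi_dT, LinearMap.mem_ker.1 hu2, map_zero]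
    · refine ⟨b * (2 * m), ?_⟩
      rintro v ⟨hv1, hv2⟩
      rw [htor m v hv1]
      refine ⟨Psi M' v, ⟨h170_Psi_mem M' _ _ v hv1, ?_⟩, rfl⟩
      rw [SetLike.mem_coe, LinearMap.mem_ker, ← hPsi_dT, LinearMap.mem_ker.1 hv2, map_zero]
    · intro u hu
      obtain ⟨v, -, hv⟩ := hdec u hu
      have h3 : u = (fun p => if p.1 = p.2 then u p else 0) + dT v := by
        rw [hv]
        abel
      obtain ⟨ud, hud⟩ : ∃ ud : Finset (Fin n) × Finset (Fin n) → R,
        ud = (fun p => if p.1 = p.2 then u p else 0) := ⟨_, rfl⟩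
      rw [← hud] at h3
      funext I
      rw [hD]
      have h4 : Psi M u (I, I) = Psi M ud (I, I) := by
        conv_lhs => rw [h3]
        rw [map_add, hPsi_dT, Pi.add_apply, h170_dT_diag, add_zero]
      rw [h4, h170_Psi_apply, h170_Phi_apply, Fintype.sum_prod_type]
      apply Finset.sum_congr rfl
      intro J _
      rw [Finset.sum_eq_single J]
      · rw [hud, hcmsq, hD]
        simp only [if_true]
        ring
      · intro J' _ hne
        rw [hud]
        simp only
        rw [if_neg (Ne.symm hne), zero_mul]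
      · intro h
        exact absurd (Finset.mem_univ J) h
  -- conclusion
  have hfinal : ∀ i, ix Θ (Psi M) (TD R n (2 * m) i) (TD R n (2 * m) i) =
      (Y (i + 1) + Y i) + (if i = m then P else 0) := by
    intro i
    rw [ht i]
    have h1 : ix Θ (Psi M) (TD R n (2 * m) i ⊓ LinearMap.ker dT)
      (TD R n (2 * m) i ⊓ LinearMap.ker dT) = Z i := by rw [hZ]
    have h2 : ix Θ (Psi M) ((TD R n (2 * m) i).map dT) ((TD R n (2 * m) i).map dT) = Y i := by
      rw [hY]
    rw [h1, h2]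
    split_ifs with h
    · subst h
      rw [hmid]
      abel
    · rw [hstep i h, add_zero]
  rw [← hP]
  simp_rw [hfinal]
  simp_rw [smul_add _ (_ + _) (ite _ _ _)]
  rw [Finset.sum_add_distrib, h170_telescope, hY0, hYtop]
  rw [Finset.sum_eq_single m]
  · simp
  · intro i _ hi
    rw [if_neg hi, smul_zero]
  · intro h
    exfalso
    apply h
    rw [Finset.mem_range]
    omega


end S_rel_tensor

alias rel_tensor := S_rel_tensor.rel_tensor

end SF
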