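import Pool.Agent.Helper297.SF.Defs
set_option autoImplicit false
open MvPolynomial

namespace SF
namespace S_smooth_away
/-- J75: a principal open subset of affine space is smooth of finite type. -/
theorem smooth_away (k : Type) [Field k] (n : ℕ) (F : MvPolynomial (Fin n) (Polynomial k)) :
    Algebra.FiniteType k (Localization.Away F) ∧ Algebra.Smooth k (Localization.Away F) := by
  have h1 : Algebra.Smooth k (Polynomial k) :=
    { formallySmooth := inferInstance, finitePresentation := inferInstance }
  have h2 : Algebra.Smooth (Polynomial k) (MvPolynomial (Fin n) (Polynomial k)) :=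
    { formallySmooth := inferInstance, finitePresentation := inferInstance }
  have h3 : Algebra.Smooth k (MvPolynomial (Fin n) (Polynomial k)) :=
    Algebra.Smooth.comp k (Polynomial k) _
  have h4 : Algebra.Smooth (MvPolynomial (Fin n) (Polynomial k)) (Localization.Away F) :=
    Algebra.Smooth.of_isLocalization_Away F
  have h5 : Algebra.Smooth k (Localization.Away F) :=
    Algebra.Smooth.comp k (MvPolynomial (Fin n) (Polynomial k)) _
  exact ⟨inferInstance, h5⟩


end S_smooth_away

alias smooth_away := S_smooth_away.smooth_away

end SF
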