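import Pool.Agent.Helper297.SF.Defs
set_option autoImplicit false
open MvPolynomial

namespace SF
namespace S_sq_indep
/-- the squaring map, as a ring homomorphism in characteristic two -/
def sq_indep_hom (K : Type) [Field K] [CharP K 2] : K →+* K where
  toFun x := x ^ 2
  map_one' := one_pow 2
  map_mul' x y := mul_pow x y 2
  map_zero' := by simp
  map_add' x y := CharTwo.add_sq x y

/-- `K` as a vector space over `K` through squaring -/
def sq_indep_Tw (K : Type) : Type := K

instance sq_indep_inst1 (K : Type) [Field K] : AddCommGroup (sq_indep_Tw K) :=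
  inferInstanceAs (AddCommGroup K)

instance sq_indep_inst2 (K : Type) [Field K] [CharP K 2] : Module K (sq_indep_Tw K) :=
  (Module.compHom K (sq_indep_hom K) : Module K K)

/-- the identity map -/
def sq_indep_to (K : Type) [Field K] : K →+ sq_indep_Tw K := AddMonoidHom.id K

theorem sq_indep_smul {K : Type} [Field K] [CharP K 2] (k x : K) :
    k • sq_indep_to K x = sq_indep_to K (k ^ 2 * x) := rfl

theorem sq_indep_zero {K : Type} [Field K] [CharP K 2] (x : K) (h : sq_indep_to K x = 0) :
    x = 0 := h

/-- J50: squares of linearly independent functions are linearly independent. -/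
theorem sq_indep {K : Type} [Field K] [CharP K 2] {A J : Type} (v : J → A → K)
    (hv : LinearIndependent K v) : LinearIndependent K (fun j a => v j a ^ 2) := by
  rw [linearIndependent_iff'] at hv ⊢
  intro s g hg i hi
  have hga : ∀ a, ∑ j ∈ s, g j * v j a ^ 2 = 0 := by
    intro a
    have := congrFun hg a
    simpa using this
  have key : ∀ L : Module.Dual K (sq_indep_Tw K), L (sq_indep_to K (g i)) = 0 := by
    intro L
    refine hv s (fun j => L (sq_indep_to K (g j))) ?_ i hi
    funext a
    rw [Finset.sum_apply]
    have h1 : ∀ j ∈ s, (L (sq_indep_to K (g j)) • v j) a =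
        L (sq_indep_to K (g j * v j a ^ 2)) := by
      intro j _
      rw [mul_comm (g j), ← sq_indep_smul, map_smul]
      simp [mul_comm]
    rw [Finset.sum_congr rfl h1, ← map_sum, ← map_sum, hga a, map_zero, map_zero]
    rfl
  exact sq_indep_zero _ ((Module.forall_dual_apply_eq_zero_iff K (sq_indep_to K (g i))).mp key)


end S_sq_indep

alias sq_indep := S_sq_indep.sq_indep

end SF
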