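import Pool.Agent.Helper297.SF.Defs
set_option autoImplicit false
open MvPolynomial

namespace SF
namespace S_step_irrelevant
variable {K : Type} [Field K] {n : ℕ} {M : Type} [AddCommGroup M] [Module K M]
    [Module (MvPolynomial (Fin n) K) M] [IsScalarTower K (MvPolynomial (Fin n) K) M]

theorem step_irrelevant_le (N' : Fam K n M) (N : Fam K n M)
    (hx0 : ∀ d, N.N d ≤ N'.N (d + 1)) (e0 : ℕ) (v : M) (hv : v ∈ N.N e0) :
    N'.N e0 ⊔ Submodule.span K {v} ≤ N'.N (e0 + 1) := by
  refine sup_le (N'.mono e0) ?_
  rw [Submodule.span_singleton_le_iff_mem]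
  exact hx0 e0 hv

/-- J4b: case where the annihilator is the irrelevant ideal. -/
theorem step_irrelevant (N N' : Fam K n M) (hle : N' ≤ N)
    (hx0 : ∀ d, N.N d ≤ N'.N (d + 1)) (e0 : ℕ) (v : M) (hv : v ∈ N.N e0) (hv' : v ∉ N'.N e0)
    (hX : ∀ i : Fin n, (X i : MvPolynomial (Fin n) K) • v ∈ N'.N (e0 + 1)) :
    ∃ N'' : Fam K n M, N' < N'' ∧ N'' ≤ N ∧ ∀ d > e0, N''.N d = N'.N d := by
  have hle1 := step_irrelevant_le N' N hx0 e0 v hv
  have hle' : ∀ d, N'.N d ≤ N.N d := hle
  let N'' : Fam K n M :=
    { N := Function.update N'.N e0 (N'.N e0 ⊔ Submodule.span K {v})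
      mono := by
        intro d
        by_cases h : d = e0
        · subst h
          rw [Function.update_self, Function.update_of_ne (Nat.succ_ne_self d)]
          exact hle1
        · rw [Function.update_of_ne h]
          by_cases h1 : d + 1 = e0
          · subst h1
            rw [Function.update_self]
            exact (N'.mono d).trans le_sup_left
          · rw [Function.update_of_ne h1]
            exact N'.mono d
      smul := by
        intro d w hw i
        by_cases h : d = e0
        · subst h
          rw [Function.update_self] at hw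
          rw [Function.update_of_ne (Nat.succ_ne_self d)]
          obtain ⟨a, ha, b, hb, rfl⟩ := Submodule.mem_sup.1 hw
          obtain ⟨c, rfl⟩ := Submodule.mem_span_singleton.1 hb
          rw [smul_add, smul_algebra_smul_comm]
          exact Submodule.add_mem _ (N'.smul d a ha i) (Submodule.smul_mem _ c (hX i))
        · rw [Function.update_of_ne h] at hw
          by_cases h1 : d + 1 = e0
          · subst h1
            rw [Function.update_self]
            exact Submodule.mem_sup_left (N'.smul d w hw i)
          · rw [Function.update_of_ne h1]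
            exact N'.smul d w hw i }
  have hN0 : N''.N e0 = N'.N e0 ⊔ Submodule.span K {v} := Function.update_self _ _ _
  have hN1 : ∀ d, d ≠ e0 → N''.N d = N'.N d := fun d hd => Function.update_of_ne hd _ _
  have hA : ∀ d, N'.N d ≤ N''.N d := by
    intro d
    by_cases h : d = e0
    · subst h
      rw [hN0]
      exact le_sup_left
    · rw [hN1 d h]
  have hle2 : N' ≤ N'' := hA
  refine ⟨N'', lt_of_le_not_ge hle2 ?_, ?_, fun d hd => hN1 d (by omega)⟩
  · intro hc
    have hc' : ∀ d, N''.N d ≤ N'.N d := hc
    apply hv'
    apply hc' e0
    rw [hN0]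
    exact Submodule.mem_sup_right (Submodule.mem_span_singleton_self v)
  · have hB : ∀ d, N''.N d ≤ N.N d := by
      intro d
      by_cases h : d = e0
      · subst h
        rw [hN0]
        refine sup_le (hle' _) ?_
        rw [Submodule.span_singleton_le_iff_mem]
        exact hv
      · rw [hN1 d h]
        exact hle' d
    exact hB


end S_step_irrelevant

alias step_irrelevant := S_step_irrelevant.step_irrelevant

end SF
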