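import Pool.Agent.Helper297.SF.Defs
set_option autoImplicit false
open MvPolynomial

namespace SF
namespace S_theta_spec
/-- J9 -/
theorem theta_spec {K : Type} [Field K] {n : ℕ} {M : Type} [AddCommGroup M] [Module K M]
    [Module (MvPolynomial (Fin n) K) M] (q : ℕ)
    (hC : ∀ N : Fam K n M, Good N → ∃ d0, ∀ d ≥ d0,
      (Module.finrank K (N.N d) : ZMod q) = (Module.finrank K (N.N d0) : ZMod q))
    (hE : ∀ N N' : Fam K n M, Good N → Good N' → ∃ d0, ∀ d ≥ d0,
      (Module.finrank K (N.N d) : ZMod q) = (Module.finrank K (N'.N d) : ZMod q))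
    (N : Fam K n M) (hN : Good N) :
    ∃ d0, ∀ d ≥ d0, (Module.finrank K (N.N d) : ZMod q) = theta K n q M := by
  have hex : ∃ a : ZMod q, ∃ N : Fam K n M, Good N ∧
      ∃ d0, ∀ d ≥ d0, (Module.finrank K (N.N d) : ZMod q) = a := by
    obtain ⟨d0, h0⟩ := hC N hN
    exact ⟨_, N, hN, d0, h0⟩
  have hth : theta K n q M = hex.choose := by
    unfold theta
    rw [dif_pos hex]
  rw [hth]
  obtain ⟨N', hN', d1, h1⟩ := hex.choose_spec
  obtain ⟨d2, h2⟩ := hE N N' hN hN'
  refine ⟨max d1 d2, fun d hd => ?_⟩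
  rw [h2 d (le_trans (le_max_right _ _) hd)]
  exact h1 d (le_trans (le_max_left _ _) hd)



end S_theta_spec

alias theta_spec := S_theta_spec.theta_spec

end SF
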