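import Pool.Agent.Helper297.SF.Defs
set_option autoImplicit false
open MvPolynomial

namespace SF
namespace S_two_pow_dvd_finrank
/-- J2 -/
theorem two_pow_dvd_finrank {K : Type} [Field K] [CharP K 2] (t : K) (ht : ∀ a : K, a ^ 2 ≠ t)
    {V : Type} [AddCommGroup V] [Module K V] [Module.Finite K V] (φ : V →ₗ[K] V) (j : ℕ)
    (hφ : ∀ v, (φ ^ (2 ^ j)) v = t • v) : 2 ^ j ∣ Module.finrank K V := by
  by_contra hnd
  have hd : Module.finrank K V ≠ 0 := by
    intro h
    rw [h] at hnd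
    exact hnd (dvd_zero _)
  have h1 : φ ^ (2 ^ j) = t • LinearMap.id := by
    apply LinearMap.ext
    intro v
    rw [hφ v]
    simp
  have h2 : (LinearMap.det φ) ^ (2 ^ j) = t ^ Module.finrank K V := by
    rw [← map_pow, h1, LinearMap.det_smul, LinearMap.det_id, mul_one]
  obtain ⟨i, m, hm, hd'⟩ := Nat.exists_eq_two_pow_mul_odd hd
  have hij : i < j := by
    by_contra h
    push Not at h
    apply hnd
    rw [hd']
    exact (pow_dvd_pow 2 h).mul_right m
  obtain ⟨l, rfl⟩ : ∃ l, j = i + 1 + l := ⟨j - (i + 1), by omega⟩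
  have h3 : ((LinearMap.det φ) ^ (2 ^ l)) ^ 2 = t ^ m := by
    rw [← sub_eq_zero]
    have h4 : (((LinearMap.det φ) ^ (2 ^ l)) ^ 2 - t ^ m) ^ (2 ^ i) = 0 := by
      haveI : Fact (Nat.Prime 2) := ⟨Nat.prime_two⟩
      rw [sub_pow_char_pow, sub_eq_zero, ← pow_mul, ← pow_mul, ← pow_mul]
      rw [hd'] at h2
      rw [show 2 ^ l * (2 * 2 ^ i) = 2 ^ (i + 1 + l) by ring, h2, mul_comm]
    exact pow_eq_zero_iff (by positivity) |>.1 h4
  obtain ⟨k, hk⟩ := hm
  have ht0 : t ≠ 0 := by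
    intro h
    exact ht 0 (by rw [h]; simp)
  apply ht ((LinearMap.det φ) ^ (2 ^ l) / t ^ k)
  rw [div_pow, h3, hk, div_eq_iff (by positivity)]
  ring


end S_two_pow_dvd_finrank

alias two_pow_dvd_finrank := S_two_pow_dvd_finrank.two_pow_dvd_finrank

end SF
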