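import Pool.Agent.Helper297.SF.S_Phi_Phi
import Pool.Agent.Helper297.SF.S_Phi_inj
import Pool.Agent.Helper297.SF.S_Phi_mulW
import Pool.Agent.Helper297.SF.S_Psi_dT
import Pool.Agent.Helper297.SF.S_X_not_sq
import Pool.Agent.Helper297.SF.S_clear_denoms
import Pool.Agent.Helper297.SF.S_cm_card
import Pool.Agent.Helper297.SF.S_cm_map
import Pool.Agent.Helper297.SF.S_cm_mul
import Pool.Agent.Helper297.SF.S_cm_one
import Pool.Agent.Helper297.SF.S_cm_smul_one
import Pool.Agent.Helper297.SF.S_complete_of_free
import Pool.Agent.Helper297.SF.S_dT_dT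
import Pool.Agent.Helper297.SF.S_dT_exact
import Pool.Agent.Helper297.SF.S_eventually_const
import Pool.Agent.Helper297.SF.S_eventually_eq
import Pool.Agent.Helper297.SF.S_exists_good
import Pool.Agent.Helper297.SF.S_exists_inv
import Pool.Agent.Helper297.SF.S_exists_prime_ann
import Pool.Agent.Helper297.SF.S_field_lemma
import Pool.Agent.Helper297.SF.S_frob_XD
import Pool.Agent.Helper297.SF.S_frob_dim
import Pool.Agent.Helper297.SF.S_frob_index
import Pool.Agent.Helper297.SF.S_good_comap
import Pool.Agent.Helper297.SF.S_good_map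
import Pool.Agent.Helper297.SF.S_good_std
import Pool.Agent.Helper297.SF.S_inv_point
import Pool.Agent.Helper297.SF.S_ix_TD
import Pool.Agent.Helper297.SF.S_ix_comp
import Pool.Agent.Helper297.SF.S_ix_equiv
import Pool.Agent.Helper297.SF.S_ix_pairs
import Pool.Agent.Helper297.SF.S_ix_pi
import Pool.Agent.Helper297.SF.S_ker_row
import Pool.Agent.Helper297.SF.S_krull_away
import Pool.Agent.Helper297.SF.S_krull_awayp
import Pool.Agent.Helper297.SF.S_lap_col
import Pool.Agent.Helper297.SF.S_lap_row
import Pool.Agent.Helper297.SF.S_mulE_exact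
import Pool.Agent.Helper297.SF.S_mulW_mulW
import Pool.Agent.Helper297.SF.S_mulX_exact
import Pool.Agent.Helper297.SF.S_mulX_top
import Pool.Agent.Helper297.SF.S_numeric
import Pool.Agent.Helper297.SF.S_prime_case
import Pool.Agent.Helper297.SF.S_regular_away
import Pool.Agent.Helper297.SF.S_rel_row
import Pool.Agent.Helper297.SF.S_rel_tensor
import Pool.Agent.Helper297.SF.S_smooth_away
import Pool.Agent.Helper297.SF.S_sq_indep
import Pool.Agent.Helper297.SF.S_step_irrelevant
import Pool.Agent.Helper297.SF.S_step_prime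
import Pool.Agent.Helper297.SF.S_theta_spec
import Pool.Agent.Helper297.SF.S_two_pow_dvd_finrank
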