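import Mathlib
set_option autoImplicit false
open MvPolynomial

namespace SF

/-- The form `F = ∑ t^i x_i^(2^s)`. -/
noncomputable def Fp (K : Type) [Field K] (n s : ℕ) (t : K) : MvPolynomial (Fin n) K :=
  ∑ i : Fin n, C (t ^ (i : ℕ)) * X i ^ (2 ^ s)

/-- An increasing family of `K`-subspaces of a `K[x_1..x_n]`-module, with `x_i N_d ⊆ N_{d+1}`. -/
@[ext] structure Fam (K : Type) [Field K] (n : ℕ) (M : Type) [AddCommGroup M] [Module K M]
    [Module (MvPolynomial (Fin n) K) M] where
  N : ℕ → Submodule K M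
  mono : ∀ d, N d ≤ N (d + 1)
  smul : ∀ d, ∀ v ∈ N d, ∀ i : Fin n, (X i : MvPolynomial (Fin n) K) • v ∈ N (d + 1)

instance (K : Type) [Field K] (n : ℕ) (M : Type) [AddCommGroup M] [Module K M]
    [Module (MvPolynomial (Fin n) K) M] : PartialOrder (Fam K n M) :=
  PartialOrder.lift Fam.N (fun _ _ h => Fam.ext h)

/-- A good family: finite dimensional pieces, exhaustive, ascending chain condition below it. -/
structure Good {K : Type} [Field K] {n : ℕ} {M : Type} [AddCommGroup M] [Module K M]
    [Module (MvPolynomial (Fin n) K) M] (N : Fam K n M) : Prop where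
  fin : ∀ d, Module.Finite K (N.N d)
  exh : ∀ v, ∃ d, v ∈ N.N d
  acc : WellFoundedGT {N' : Fam K n M // N' ≤ N}

open Classical in
/-- The invariant `θ(M) ∈ ℤ/q`: the eventual value of `dim N_d` for a good family `N`. -/
noncomputable def theta (K : Type) [Field K] (n q : ℕ) (M : Type) [AddCommGroup M] [Module K M]
    [Module (MvPolynomial (Fin n) K) M] : ZMod q :=
  if h : ∃ a : ZMod q, ∃ N : Fam K n M, Good N ∧
      ∃ d0, ∀ d ≥ d0, (Module.finrank K (N.N d) : ZMod q) = a then h.choose else 0

/-- An additive invariant of finitely generated `F`-power torsion `R`-modules. -/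
structure Inv (R : Type) [CommRing R] (F : R) (A : Type) [AddCommGroup A] where
  th : ∀ (M : Type) [AddCommGroup M] [Module R M], A
  congr : ∀ (M M' : Type) [AddCommGroup M] [Module R M] [AddCommGroup M'] [Module R M'],
    Module.Finite R M → (∃ b : ℕ, ∀ v : M, F ^ b • v = 0) → (M ≃ₗ[R] M') → th M = th M'
  add : ∀ (M : Type) [AddCommGroup M] [Module R M] (P : Submodule R M),
    Module.Finite R M → (∃ b : ℕ, ∀ v : M, F ^ b • v = 0) → th M = th P + th (M ⧸ P)

/-- The index `θ(S1 / f(S2))`. -/
def ix {R : Type} [CommRing R] {F : R} {A : Type} [AddCommGroup A] (Θ : Inv R F A)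
    {Y2 Y1 : Type} [AddCommGroup Y2] [Module R Y2] [AddCommGroup Y1] [Module R Y1]
    (f : Y2 →ₗ[R] Y1) (S2 : Submodule R Y2) (S1 : Submodule R Y1) : A :=
  Θ.th (↥S1 ⧸ (S2.map f).submoduleOf S1)

/-- The linear form `Y_j = ∑ M_{ji} X_i`. -/
noncomputable def Yf {R : Type} [CommRing R] {n : ℕ} (M : Matrix (Fin n) (Fin n) R) (j : Fin n) :
    MvPolynomial (Fin n) R := ∑ i, C (M j i) * X i

/-- The squarefree monomial exponent of a finset. -/
noncomputable def mon {n : ℕ} (I : Finset (Fin n)) : Fin n →₀ ℕ := ∑ i ∈ I, Finsupp.single i 1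

/-- The compound matrix (of all minors, mod 2): coefficient of `X^I` in `∏_{j ∈ J} Y_j`. -/
noncomputable def cm {R : Type} [CommRing R] {n : ℕ} (M : Matrix (Fin n) (Fin n) R) :
    Matrix (Finset (Fin n)) (Finset (Fin n)) R :=
  fun J I => coeff (mon I) (∏ j ∈ J, Yf M j)

/-- The action on the exterior algebra: `u ↦ u ᵥ* cm M`. -/
noncomputable def Phi {R : Type} [CommRing R] {n : ℕ} (M : Matrix (Fin n) (Fin n) R) :
    (Finset (Fin n) → R) →ₗ[R] (Finset (Fin n) → R) := Matrix.vecMulLinear (cm M)

/-- The action on the tensor square of the exterior algebra. -/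
noncomputable def Psi {R : Type} [CommRing R] {n : ℕ} (M : Matrix (Fin n) (Fin n) R) :
    (Finset (Fin n) × Finset (Fin n) → R) →ₗ[R] (Finset (Fin n) × Finset (Fin n) → R) :=
  Matrix.vecMulLinear (Matrix.kroneckerMap (· * ·) (cm M) (cm M))

/-- Multiplication by the vector `w` in the exterior algebra mod 2. -/
def mulW {R : Type} [CommRing R] {n : ℕ} (w : Fin n → R) :
    (Finset (Fin n) → R) →ₗ[R] (Finset (Fin n) → R) where
  toFun u I := ∑ i ∈ I, w i * u (I.erase i)
  map_add' u v := by ext I; simp [mul_add, Finset.sum_add_distrib]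
  map_smul' c u := by ext I; simp [Finset.mul_sum, mul_left_comm]

/-- The differential `∑ a_i ∂/∂e_i`. -/
def dT {R : Type} [CommRing R] {n : ℕ} :
    (Finset (Fin n) × Finset (Fin n) → R) →ₗ[R] (Finset (Fin n) × Finset (Fin n) → R) where
  toFun u p := ∑ i ∈ p.1 \ p.2, u (p.1.erase i, insert i p.2)
  map_add' u v := by ext I; simp [Finset.sum_add_distrib]
  map_smul' c u := by ext I; simp [Finset.mul_sum]

/-- Degree `i` part of the exterior algebra. -/
def XD (R : Type) [CommRing R] (n i : ℕ) : Submodule R (Finset (Fin n) → R) where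
  carrier := {u | ∀ I, I.card ≠ i → u I = 0}
  add_mem' := by intro a b ha hb I hI; simp [ha I hI, hb I hI]
  zero_mem' := by intro I _; rfl
  smul_mem' := by intro c a ha I hI; simp [ha I hI]

/-- Bidegree part (total degree `k`, `e`-degree `i`). -/
def TD (R : Type) [CommRing R] (n k i : ℕ) :
    Submodule R (Finset (Fin n) × Finset (Fin n) → R) where
  carrier := {u | ∀ p, ¬(p.1.card + p.2.card = k ∧ p.2.card = i) → u p = 0}
  add_mem' := by intro a b ha hb I hI; simp [ha I hI, hb I hI]
  zero_mem' := by intro I _; rfl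
  smul_mem' := by intro c a ha I hI; simp [ha I hI]

/-- Vectors of polynomials of degree at most `d`. -/
noncomputable def degLE (K : Type) [Field K] (n : ℕ) (ι : Type) (d : ℕ) :
    Submodule K (ι → MvPolynomial (Fin n) K) where
  carrier := {v | ∀ i, (v i).totalDegree ≤ d}
  add_mem' := by
    intro a b ha hb i
    exact (MvPolynomial.totalDegree_add _ _).trans (max_le (ha i) (hb i))
  zero_mem' := by intro i; simp
  smul_mem' := by
    intro c a ha i
    exact (MvPolynomial.totalDegree_smul_le _ _).trans (ha i)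


end SF
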