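import Pool.Agent.Helper297.SF.Defs
set_option autoImplicit false
open MvPolynomial

namespace SF
namespace S_dT_dT
/-- J25: `dT` squares to zero and is exact off the diagonal. -/
theorem dT_dT {R : Type} [CommRing R] [CharP R 2] (n : ℕ)
    (u : Finset (Fin n) × Finset (Fin n) → R) : dT (dT u) = 0 := by
  funext p
  obtain ⟨I, J⟩ := p
  change ∑ i ∈ I \ J, ∑ i' ∈ (I.erase i) \ (insert i J),
    u ((I.erase i).erase i', insert i' (insert i J)) = 0
  rw [Finset.sum_sigma']
  refine Finset.sum_involution (fun p _ => ⟨p.2, p.1⟩) ?_ ?_ ?_ ?_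
  · rintro ⟨i, j⟩ h
    simp only
    rw [Finset.erase_right_comm, Finset.insert_comm i j J]
    exact CharTwo.add_self_eq_zero _
  · rintro ⟨i, j⟩ h _ heq
    simp only [Finset.mem_sigma, Finset.mem_sdiff, Finset.mem_erase, Finset.mem_insert, not_or] at h
    simp only [Sigma.mk.injEq] at heq
    exact h.2.1.1 heq.1
  · rintro ⟨i, j⟩ h
    simp only [Finset.mem_sigma, Finset.mem_sdiff, Finset.mem_erase, Finset.mem_insert, not_or]
      at h ⊢
    exact ⟨⟨h.2.1.2, h.2.2.2⟩, ⟨fun e => h.2.1.1 e.symm, h.1.1⟩, fun e => h.2.1.1 e.symm, h.1.2⟩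
  · rintro ⟨i, j⟩ h
    rfl


end S_dT_dT

alias dT_dT := S_dT_dT.dT_dT

end SF
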