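import Pool.Agent.Helper297.SF.Defs
set_option autoImplicit false
open MvPolynomial

namespace SF
namespace S_mulE_exact
/-- J28: exactness of multiplication by a basis vector. -/
theorem mulE_exact {R : Type} [CommRing R] [CharP R 2] (n : ℕ) (j : Fin n) (i : ℕ)
    (u : Finset (Fin n) → R) (hu : u ∈ XD R n i) (h : mulW (Pi.single j 1) u = 0) :
    ∃ v, (∀ I, I.card + 1 ≠ i → v I = 0) ∧ mulW (Pi.single j 1) v = u := by
  have key : ∀ (w : Finset (Fin n) → R) (I : Finset (Fin n)),
      mulW (Pi.single j 1) w I = if j ∈ I then w (I.erase j) else 0 := by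
    intro w I
    show ∑ i ∈ I, (Pi.single j 1 : Fin n → R) i * w (I.erase i) = _
    have : ∀ i ∈ I, (Pi.single j 1 : Fin n → R) i * w (I.erase i) =
        if j = i then w (I.erase i) else 0 := by
      intro i _
      by_cases hij : j = i
      · subst hij; simp
      · rw [Pi.single_eq_of_ne (Ne.symm hij), zero_mul, if_neg hij]
    rw [Finset.sum_congr rfl this, Finset.sum_ite_eq]
  have hu0 : ∀ J : Finset (Fin n), j ∉ J → u J = 0 := by
    intro J hJ
    have h1 := congrFun h (insert j J)
    rw [key, if_pos (Finset.mem_insert_self j J), Finset.erase_insert hJ] at h1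
    exact h1
  refine ⟨fun I => if j ∈ I then 0 else u (insert j I), ?_, ?_⟩
  · intro I hI
    by_cases hj : j ∈ I
    · simp [hj]
    · simp only [hj, if_false]
      apply hu
      rw [Finset.card_insert_of_notMem hj]
      exact hI
  · funext I
    rw [key]
    by_cases hj : j ∈ I
    · simp [hj, Finset.insert_erase]
    · rw [if_neg hj, hu0 I hj]



end S_mulE_exact

alias mulE_exact := S_mulE_exact.mulE_exact

end SF
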