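import Pool.Agent.Helper297.SF.S_ix_pairs
import Pool.Agent.Helper297.SF.S_ix_comp
import Pool.Agent.Helper297.SF.S_ix_equiv
import Pool.Agent.Helper297.SF.S_ix_pi
import Pool.Agent.Helper297.SF.S_cm_one
import Pool.Agent.Helper297.SF.S_cm_smul_one
import Pool.Agent.Helper297.SF.S_cm_mul
import Pool.Agent.Helper297.SF.S_cm_card
import Pool.Agent.Helper297.SF.S_cm_map
import Pool.Agent.Helper297.SF.S_lap_row
import Pool.Agent.Helper297.SF.S_lap_col
import Pool.Agent.Helper297.SF.S_Phi_mulW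
import Pool.Agent.Helper297.SF.S_Psi_dT
import Pool.Agent.Helper297.SF.S_dT_dT
import Pool.Agent.Helper297.SF.S_dT_exact
import Pool.Agent.Helper297.SF.S_mulW_mulW
import Pool.Agent.Helper297.SF.S_mulE_exact
import Pool.Agent.Helper297.SF.S_mulX_exact
import Pool.Agent.Helper297.SF.S_mulX_top
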