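import Pool.Agent.Helper297.SF.All
set_option autoImplicit false
open MvPolynomial

namespace SF

theorem Fp_homog (K : Type) [Field K] (n s : ℕ) (t : K) : (Fp K n s t).IsHomogeneous (2 ^ s) := by
  unfold Fp
  apply IsHomogeneous.sum
  intro i _
  have h1 : (C (t ^ (i : ℕ)) : MvPolynomial (Fin n) K).IsHomogeneous 0 := isHomogeneous_C _ _
  have h2 : ((X i : MvPolynomial (Fin n) K) ^ (2 ^ s)).IsHomogeneous (1 * 2 ^ s) :=
    (isHomogeneous_X _ _).pow _
  simpa using h1.mul h2

theorem hc_of_homog {K : Type} [Field K] {n : ℕ} {p : MvPolynomial (Fin n) K} {m : ℕ}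
    (hp : p.IsHomogeneous m) (d : ℕ) : homogeneousComponent d p = if m = d then p else 0 := by
  rw [homogeneousComponent_of_mem (n := m) (m := d) ((mem_homogeneousSubmodule _ _).2 hp)]
  by_cases h : m = d
  · simp [h]
  · simp [h, Ne.symm h]

section
variable {K : Type} [Field K] {n : ℕ} {M : Type} [AddCommGroup M] [Module K M]
    [Module (MvPolynomial (Fin n) K) M] [IsScalarTower K (MvPolynomial (Fin n) K) M]

theorem index_fam [CharP K 2] (t : K) (ht : ∀ a : K, a ^ 2 ≠ t) (e s : ℕ) (hn : n ≤ 2 ^ e)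
    (hes : e ≤ s) (N : Fam K n M) (hacc : WellFoundedGT {N' : Fam K n M // N' ≤ N})
    (hfin : ∀ d, Module.Finite K (N.N d)) (N' : Fam K n M) (hle : N' ≤ N)
    (hx0 : ∀ d, N.N d ≤ N'.N (d + 1)) (b : ℕ)
    (hF : ∀ d, ∀ v ∈ N.N d, (Fp K n s t) ^ b • v ∈ N'.N (d + b * 2 ^ s)) :
    ∃ d0, ∀ d ≥ d0, 2 ^ (s - e) ∣ Module.finrank K (N.N d) - Module.finrank K (N'.N d) := by
  have key : ∀ Q : {N' : Fam K n M // N' ≤ N}, (∀ d, N.N d ≤ Q.1.N (d + 1)) →
      (∀ d, ∀ v ∈ N.N d, (Fp K n s t) ^ b • v ∈ Q.1.N (d + b * 2 ^ s)) →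
      ∃ d0, ∀ d ≥ d0, 2 ^ (s - e) ∣ Module.finrank K (N.N d) - Module.finrank K (Q.1.N d) := by
    intro Q
    induction Q using hacc.wf.induction with
    | _ Q ih =>
    obtain ⟨N', hle⟩ := Q
    intro hx0 hF
    by_cases hne : N' = N
    · refine ⟨0, fun d _ => ?_⟩
      subst hne
      simp
    obtain ⟨e0, v, P, hP, hv, hv', hann⟩ := exists_prime_ann N N' hle hne hx0
    have hhom : ∀ p ∈ P, ∀ d, homogeneousComponent d p ∈ P := by
      intro p hp d
      rw [hann]
      intro d'
      rw [hc_of_homog (homogeneousComponent_isHomogeneous d p) d']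
      split_ifs with h
      · subst h
        exact (hann p).1 hp _
      · simp
    have hFP : Fp K n s t ∈ P := by
      apply hP.mem_of_pow_mem b
      rw [hann]
      intro d
      have hh : ((Fp K n s t) ^ b).IsHomogeneous (2 ^ s * b) := (Fp_homog K n s t).pow b
      rw [hc_of_homog hh d]
      split_ifs with h
      · subst h
        rw [mul_comm (2 ^ s) b]
        exact hF e0 v hv
      · simp
    have step : ∀ N'' : Fam K n M, N' < N'' → N'' ≤ N →
        ∃ d0, ∀ d ≥ d0, 2 ^ (s - e) ∣ Module.finrank K (N.N d) - Module.finrank K (N''.N d) := by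
      intro N'' hlt hle2
      refine ih ⟨N'', hle2⟩ ?_ ?_ ?_
      · exact hlt
      · intro d
        exact (hx0 d).trans (hlt.le (d + 1))
      · intro d v hv
        exact hlt.le (d + b * 2 ^ s) (hF d v hv)
    by_cases hX : ∀ i, (X i : MvPolynomial (Fin n) K) ∈ P
    · obtain ⟨N'', hlt, hle2, heq⟩ := step_irrelevant N N' hle hx0 e0 v hv hv' (by
        intro i
        have := (hann _).1 (hX i) 1
        rwa [hc_of_homog (isHomogeneous_X _ _), if_pos rfl] at this)
      obtain ⟨d0, hd0⟩ := step N'' hlt hle2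
      refine ⟨max d0 (e0 + 1), fun d hd => ?_⟩
      rw [← heq d (by omega)]
      exact hd0 d (by omega)
    · push Not at hX
      obtain ⟨c, g, h, hg, hh, hhP, hgh⟩ := prime_case
        (fun Q _ _ t n e s h1 h2 y h3 h4 => field_lemma t n e s h1 h2 y h3 h4) t n e s hn hes P hP
        hhom hFP hX
      obtain ⟨N'', hlt, hle2, hdvd⟩ := step_prime
        (fun K _ _ t ht V _ _ _ φ j hφ => two_pow_dvd_finrank t ht φ j hφ) t ht (s - e) N N' hfin hle
        hx0 e0 v P hP hv hann c g h hg hh hhP hgh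
      obtain ⟨d0, hd0⟩ := step N'' hlt hle2
      refine ⟨d0, fun d hd => ?_⟩
      have h1 := hd0 d hd
      have h2 := hdvd d
      haveI := hfin d
      have hm1 : Module.finrank K (N''.N d) ≤ Module.finrank K (N.N d) :=
        Submodule.finrank_mono (hle2 d)
      haveI : Module.Finite K (N''.N d) := Submodule.finiteDimensional_of_le (hle2 d)
      have hm2 : Module.finrank K (N'.N d) ≤ Module.finrank K (N''.N d) :=
        Submodule.finrank_mono (hlt.le d)
      have : Module.finrank K (N.N d) - Module.finrank K (N'.N d) =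
          (Module.finrank K (N.N d) - Module.finrank K (N''.N d)) +
          (Module.finrank K (N''.N d) - Module.finrank K (N'.N d)) := by omega
      rw [this]
      exact dvd_add h1 h2
  exact key ⟨N', hle⟩ hx0 hF

end

theorem exists_index (K : Type) [Field K] [CharP K 2] (t : K) (ht : ∀ a : K, a ^ 2 ≠ t)
    (n e s : ℕ) (hn : n ≤ 2 ^ e) (hes : e ≤ s) :
    ∃ Θ : Inv (MvPolynomial (Fin n) K) (Fp K n s t) (ZMod (2 ^ (s - e))),
      ∀ (M : Type) [AddCommGroup M] [Module K M] [Module (MvPolynomial (Fin n) K) M]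
        [IsScalarTower K (MvPolynomial (Fin n) K) M], (∃ b : ℕ, ∀ v : M, (Fp K n s t) ^ b • v = 0) →
        ∀ N : Fam K n M, Good N →
        ∃ d0, ∀ d ≥ d0, (Module.finrank K (N.N d) : ZMod (2 ^ (s - e))) = Θ.th M := by
  apply exists_inv K n (2 ^ (s - e)) (Fp K n s t)
  · intro M _ _ _ _ htor N hN
    obtain ⟨b, hb⟩ := htor
    have H : ∀ (N N' : Fam K n M), (WellFoundedGT {N' : Fam K n M // N' ≤ N}) →
      (∀ d, Module.Finite K (N.N d)) → N' ≤ N → (∀ d, N.N d ≤ N'.N (d + 1)) →
      ∃ d0, ∀ d ≥ d0, 2 ^ (s - e) ∣ Module.finrank K (N.N d) - Module.finrank K (N'.N d) := by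
      intro N N' hacc hfin hle hx0
      exact index_fam t ht e s hn hes N hacc hfin N' hle hx0 b (by
        intro d v _
        rw [hb v]
        exact zero_mem _)
    exact theta_spec (2 ^ (s - e)) (fun N hN => eventually_const _ H N hN)
      (fun N N' hN hN' => eventually_eq _ H N N' hN hN') N hN
  · intro M _ _ _ _ _
    exact exists_good (fun K _ n ι _ => good_std K n ι)
      (fun K _ n M M' _ _ _ _ _ _ _ _ f hf N hN => good_map f hf N hN) K n M
  · intro M M' _ _ _ _ _ _ _ _ f hf N hN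
    exact good_map f hf N hN
  · intro M M' _ _ _ _ _ _ _ _ f hf N hN
    exact good_comap f hf N hN

theorem Fp_ne_zero (K : Type) [Field K] (n s : ℕ) (t : K) (hn : 0 < n) : Fp K n s t ≠ 0 := by
  intro h
  have h1 := congrArg (MvPolynomial.eval (fun i : Fin n => if i = ⟨0, hn⟩ then (1 : K) else 0)) h
  simp only [Fp, map_sum, map_mul, eval_C, map_pow, eval_X, map_zero] at h1
  rw [Finset.sum_eq_single (⟨0, hn⟩ : Fin n)] at h1
  · simp at h1
  · intro j _ hj
    simp [hj]
  · simp

theorem Fp_mem (K : Type) [Field K] (n s : ℕ) (t : K) :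
    Fp K n s t ∈ Ideal.span (Set.range (X : Fin n → MvPolynomial (Fin n) K)) := by
  unfold Fp
  apply Ideal.sum_mem
  intro i _
  apply Ideal.mul_mem_left
  apply Ideal.pow_mem_of_mem _ _ _ (by positivity)
  exact Ideal.subset_span ⟨i, rfl⟩

/-- The main non-completability theorem. -/
theorem not_completable (n : ℕ) (hn : 3 ≤ n) : ∃ s : ℕ, ∀ (K : Type) [Field K] [CharP K 2] (t : K),
    (∀ a : K, a ^ 2 ≠ t) → ∀ (M M' : Matrix (Fin n) (Fin n) (MvPolynomial (Fin n) K)) (b : ℕ),
    M' * M = (Fp K n s t) ^ b • (1 : Matrix (Fin n) (Fin n) (MvPolynomial (Fin n) K)) →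
    (∀ i, M ⟨0, by omega⟩ i = X i) → False := by
  obtain ⟨S, hS⟩ := numeric n hn
  refine ⟨S + n, ?_⟩
  intro K _ _ t ht M M' b hM hrow
  have hn0 : 0 < n := by omega
  obtain ⟨Θ, hΘ⟩ := exists_index K t ht n n (S + n) (Nat.lt_two_pow_self).le (by omega)
  have hq : S + n - n = S := by omega
  have hF0 := Fp_ne_zero K n (S + n) t hn0
  have hF1 := Fp_mem K n (S + n) t
  have hpt := inv_point K n (2 ^ (S + n - n)) (Fp K n (S + n) t) hF1 Θ hΘ
  have hrowrel := rel_row n hn0 (Fp K n (S + n) t) hF0 Θ hF1 M M' b hM hrow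
  have hfrob : ∀ m, ix Θ (Phi (M.map (fun p => p ^ 2))) (XD _ n m) (XD _ n m)
      = 2 ^ n * ix Θ (Phi M) (XD _ n m) (XD _ n m) := by
    intro m
    refine frob_XD n (2 ^ (S + n - n)) (Fp K n (S + n) t) hF0 Θ ?_ M M' b hM m
    intro ι _ _ B B' b hB
    refine frob_index ?_ ?_ ?_ K n (2 ^ (S + n - n)) (Fp K n (S + n) t) Θ hΘ ι B B' b hB
    · intro K _ _ n ι _ U d
      exact frob_dim (fun K _ _ A J v hv => sq_indep v hv) K n ι U d
    · intro K _ n ι _
      exact good_std K n ι
    · intro K _ n M M' _ _ _ _ _ _ _ _ f hf N hN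
      exact good_map f hf N hN
  set a : ℕ → ZMod (2 ^ (S + n - n)) := fun i => ix Θ (Phi M) (XD _ n i) (XD _ n i) with ha
  have hthzero : ∀ (Q : Type) [AddCommGroup Q] [Module (MvPolynomial (Fin n) K) Q]
      [Subsingleton Q], Θ.th Q = 0 := by
    intro Q _ _ _
    have h1 := Θ.add Q ⊤ inferInstance ⟨0, fun v => Subsingleton.elim _ _⟩
    have h2 : Θ.th (⊤ : Submodule (MvPolynomial (Fin n) K) Q) = Θ.th Q :=
      Θ.congr _ _ inferInstance ⟨0, fun v => Subsingleton.elim _ _⟩ Submodule.topEquiv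
    have h3 : Θ.th (Q ⧸ (⊤ : Submodule (MvPolynomial (Fin n) K) Q)) = Θ.th Q := by
      refine Θ.congr _ _ inferInstance ⟨0, fun v => Subsingleton.elim _ _⟩ ?_
      exact { toFun := fun _ => 0, invFun := fun _ => 0, map_add' := fun _ _ => Subsingleton.elim _ _,
              map_smul' := fun _ _ => Subsingleton.elim _ _,
              left_inv := fun _ => Subsingleton.elim _ _,
              right_inv := fun _ => Subsingleton.elim _ _ }
    rw [h2, h3] at h1
    exact left_eq_add.mp h1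
  refine hS (S + n - n) (by omega) ⟨a, ?_, ?_, ?_, ?_⟩
  · have hPP := (Phi_Phi n M M' (Fp K n (S + n) t) b hM).2.2.1 0
    have hP' := (Phi_Phi n M M' (Fp K n (S + n) t) b hM).2.1 0
    haveI : Subsingleton (↥(XD (MvPolynomial (Fin n) K) n 0) ⧸
        ((XD (MvPolynomial (Fin n) K) n 0).map (Phi M)).submoduleOf
          (XD (MvPolynomial (Fin n) K) n 0)) := by
      rw [Submodule.Quotient.subsingleton_iff, eq_top_iff]
      rintro ⟨u, hu⟩ _
      change u ∈ (XD (MvPolynomial (Fin n) K) n 0).map (Phi M)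
      refine ⟨Phi M' u, hP' u hu, ?_⟩
      rw [hPP u hu]
      simp
    exact hthzero _
  · intro i hi
    haveI : Subsingleton (↥(XD (MvPolynomial (Fin n) K) n i)) := by
      constructor
      rintro ⟨u, hu⟩ ⟨v, hv⟩
      apply Subtype.ext
      funext I
      have hI : I.card ≠ i := by
        have := Finset.card_le_univ I
        simp at this
        omega
      change u I = v I
      rw [hu I hI, hv I hI]
    exact hthzero _
  · rw [hpt] at hrowrel
    simpa [zsmul_eq_mul] using hrowrel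
  · intro m _ _
    have h1 := rel_tensor n (Fp K n (S + n) t) hF0 Θ M M' b hM m
    rw [hfrob m] at h1
    have h2 : ∀ i ∈ Finset.range (2 * m + 1), (-1 : ZMod (2 ^ (S + n - n))) ^ i *
        ((Nat.choose n (2 * m - i) : ZMod (2 ^ (S + n - n))) * a i
          + (Nat.choose n i : ZMod (2 ^ (S + n - n))) * a (2 * m - i))
        = (-1 : ℤ) ^ i • ix Θ (Psi M) (TD (MvPolynomial (Fin n) K) n (2 * m) i)
            (TD (MvPolynomial (Fin n) K) n (2 * m) i) := by
      intro i hi
      rw [ix_TD n (Fp K n (S + n) t) hF0 Θ M M' b hM (2 * m) i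
        (by have := Finset.mem_range.1 hi; omega)]
      simp [zsmul_eq_mul, nsmul_eq_mul, ha]
      ring
    rw [Finset.sum_congr rfl h2, h1]
    simp [zsmul_eq_mul, ha]
    ring

end SF
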