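import Pool.Agent.Helper297.SF.Lib
set_option autoImplicit false
open MvPolynomial

namespace SF
namespace S_Phi_Phi

theorem pp_XD {R : Type} [CommRing R] (n : ℕ) (M : Matrix (Fin n) (Fin n) R) (i : ℕ)
    (u : Finset (Fin n) → R) (hu : u ∈ XD R n i) : Phi M u ∈ XD R n i := by
  intro I hI
  show Matrix.vecMul u (cm M) I = 0
  rw [Matrix.vecMul, dotProduct]
  apply Finset.sum_eq_zero
  intro J _
  by_cases hJ : J.card = i
  · rw [cm_card n M J I (by omega), mul_zero]
  · rw [hu J hJ, zero_mul]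

theorem pp_TD {R : Type} [CommRing R] (n : ℕ) (M : Matrix (Fin n) (Fin n) R) (k i : ℕ)
    (u : Finset (Fin n) × Finset (Fin n) → R) (hu : u ∈ TD R n k i) : Psi M u ∈ TD R n k i := by
  intro p hp
  show Matrix.vecMul u (Matrix.kroneckerMap (· * ·) (cm M) (cm M)) p = 0
  rw [Matrix.vecMul, dotProduct]
  apply Finset.sum_eq_zero
  intro q _
  rw [Matrix.kroneckerMap_apply]
  by_cases hq : q.1.card + q.2.card = k ∧ q.2.card = i
  · by_cases h1 : q.1.card = p.1.card
    · by_cases h2 : q.2.card = p.2.card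
      · exfalso
        apply hp
        rw [← h1, ← h2]
        exact hq
      · rw [cm_card n M q.2 p.2 h2, mul_zero, mul_zero]
    · rw [cm_card n M q.1 p.1 h1, zero_mul, mul_zero]
  · rw [hu q hq, zero_mul]

/-- J60: `Phi M` and `Psi M` have an inverse up to a power of `F`. -/
theorem Phi_Phi {R : Type} [CommRing R] [CharP R 2] (n : ℕ) (M M' : Matrix (Fin n) (Fin n) R)
    (F : R) (b : ℕ) (hM : M' * M = F ^ b • (1 : Matrix (Fin n) (Fin n) R)) :
    (∀ i, ∀ u ∈ XD R n i, Phi M u ∈ XD R n i) ∧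
    (∀ i, ∀ u ∈ XD R n i, Phi M' u ∈ XD R n i) ∧
    (∀ i, ∀ u ∈ XD R n i, Phi M (Phi M' u) = F ^ (b * i) • u) ∧
    (∀ k i, ∀ u ∈ TD R n k i, Psi M u ∈ TD R n k i) ∧
    (∀ k i, ∀ u ∈ TD R n k i, Psi M' u ∈ TD R n k i) ∧
    (∀ k i, ∀ u ∈ TD R n k i, Psi M (Psi M' u) = F ^ (b * k) • u) := by
  have hc : cm M' * cm M = Matrix.diagonal (fun I : Finset (Fin n) => (F ^ b) ^ I.card) := by
    rw [← cm_mul, hM, cm_smul_one]
  refine ⟨fun i u hu => pp_XD n M i u hu, fun i u hu => pp_XD n M' i u hu, ?_,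
    fun k i u hu => pp_TD n M k i u hu, fun k i u hu => pp_TD n M' k i u hu, ?_⟩
  · intro i u hu
    show Matrix.vecMul (Matrix.vecMul u (cm M')) (cm M) = F ^ (b * i) • u
    rw [Matrix.vecMul_vecMul, hc]
    funext I
    rw [Matrix.vecMul_diagonal, Pi.smul_apply, smul_eq_mul]
    by_cases hI : I.card = i
    · rw [hI, ← pow_mul, mul_comm]
    · rw [hu I hI]; simp
  · intro k i u hu
    show Matrix.vecMul (Matrix.vecMul u (Matrix.kroneckerMap (· * ·) (cm M') (cm M')))
      (Matrix.kroneckerMap (· * ·) (cm M) (cm M)) = F ^ (b * k) • u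
    rw [Matrix.vecMul_vecMul]
    have h1 : Matrix.kroneckerMap (· * ·) (cm M') (cm M') * Matrix.kroneckerMap (· * ·) (cm M) (cm M)
        = Matrix.kroneckerMap (· * ·) (cm M' * cm M) (cm M' * cm M) :=
      (Matrix.mul_kronecker_mul _ _ _ _).symm
    rw [h1, hc]
    have h2 : Matrix.kroneckerMap (· * ·)
        (Matrix.diagonal (fun I : Finset (Fin n) => (F ^ b) ^ I.card))
        (Matrix.diagonal (fun I : Finset (Fin n) => (F ^ b) ^ I.card))
        = Matrix.diagonal (fun p : Finset (Fin n) × Finset (Fin n) =>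
            (F ^ b) ^ p.1.card * (F ^ b) ^ p.2.card) :=
      Matrix.diagonal_kronecker_diagonal _ _
    rw [h2]
    funext p
    rw [Matrix.vecMul_diagonal, Pi.smul_apply, smul_eq_mul]
    by_cases hp : p.1.card + p.2.card = k ∧ p.2.card = i
    · rw [← pow_add, hp.1, ← pow_mul, mul_comm]
    · rw [hu p hp]; simp


end S_Phi_Phi

alias Phi_Phi := S_Phi_Phi.Phi_Phi

end SF
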