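import Pool.Agent.Helper297.SF.Defs
set_option autoImplicit false
open MvPolynomial

namespace SF
namespace S_good_map
variable {K : Type} [Field K] {n : ℕ} {M : Type} [AddCommGroup M] [Module K M]
    [Module (MvPolynomial (Fin n) K) M] [IsScalarTower K (MvPolynomial (Fin n) K) M]

/-- J7a: push forward of a good family along a surjection. -/
theorem good_map {M' : Type} [AddCommGroup M'] [Module K M'] [Module (MvPolynomial (Fin n) K) M']
    [IsScalarTower K (MvPolynomial (Fin n) K) M'] (f : M →ₗ[MvPolynomial (Fin n) K] M')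
    (hf : Function.Surjective f) (N : Fam K n M) (hN : Good N) :
    ∃ N' : Fam K n M', Good N' ∧ ∀ d, N'.N d = (N.N d).map (f.restrictScalars K) := by
  classical
  let g : M →ₗ[K] M' := f.restrictScalars K
  have hg : ∀ v, g v = f v := fun _ => rfl
  let N' : Fam K n M' :=
    { N := fun d => (N.N d).map g
      mono := fun d => Submodule.map_mono (N.mono d)
      smul := by
        rintro d v ⟨w, hw, rfl⟩ i
        exact ⟨(X i : MvPolynomial (Fin n) K) • w, N.smul d w hw i, by
          rw [hg, hg, map_smul]⟩ }
  have hN' : ∀ d, N'.N d = (N.N d).map g := fun d => rfl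
  refine ⟨N', ⟨?_, ?_, ?_⟩, fun d => rfl⟩
  · intro d
    haveI := hN.fin d
    rw [hN']
    infer_instance
  · intro v
    obtain ⟨w, rfl⟩ := hf v
    obtain ⟨d, hd⟩ := hN.exh w
    exact ⟨d, w, hd, rfl⟩
  · haveI := hN.acc
    let pull : {N1 : Fam K n M' // N1 ≤ N'} → {N2 : Fam K n M // N2 ≤ N} := fun N1 =>
      ⟨{ N := fun d => N.N d ⊓ (N1.1.N d).comap g
         mono := fun d => inf_le_inf (N.mono d) (Submodule.comap_mono (N1.1.mono d))
         smul := by
          rintro d v ⟨hv1, hv2⟩ i
          refine ⟨N.smul d v hv1 i, ?_⟩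
          have := N1.1.smul d (g v) hv2 i
          have h2 : g ((X i : MvPolynomial (Fin n) K) • v) = (X i : MvPolynomial (Fin n) K) • g v := by
            rw [hg, hg, map_smul]
          change g ((X i : MvPolynomial (Fin n) K) • v) ∈ N1.1.N (d + 1)
          rw [h2]
          exact this }, fun d => inf_le_left⟩
    have hpull : ∀ N1 d, (pull N1).1.N d = N.N d ⊓ (N1.1.N d).comap g := fun _ _ => rfl
    have hback : ∀ (N1 : {N1 : Fam K n M' // N1 ≤ N'}) d, ((pull N1).1.N d).map g = N1.1.N d := by
      intro N1 d
      apply le_antisymm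
      · rintro _ ⟨w, ⟨_, hw2⟩, rfl⟩
        exact hw2
      · intro v hv
        obtain ⟨w, hw, rfl⟩ := N1.2 d hv
        exact ⟨w, ⟨hw, hv⟩, rfl⟩
    have hmono : Monotone pull := by
      intro N1 N2 h d
      change (pull N1).1.N d ≤ (pull N2).1.N d
      rw [hpull, hpull]
      exact inf_le_inf le_rfl (Submodule.comap_mono (h d))
    have hinj : Function.Injective pull := by
      intro N1 N2 h
      apply Subtype.ext
      apply Fam.ext
      funext d
      rw [← hback N1 d, ← hback N2 d, h]
    have hstrict : StrictMono pull := hmono.strictMono_of_injective hinj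
    exact hstrict.wellFoundedGT


end S_good_map

alias good_map := S_good_map.good_map

end SF
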