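import Pool.Agent.Helper297.SF.Defs
set_option autoImplicit false
open MvPolynomial

namespace SF
namespace S_step_prime
variable {K : Type} [Field K] {n : ℕ} {M : Type} [AddCommGroup M] [Module K M]
    [Module (MvPolynomial (Fin n) K) M] [IsScalarTower K (MvPolynomial (Fin n) K) M]

omit [Module (MvPolynomial (Fin n) K) M] [IsScalarTower K (MvPolynomial (Fin n) K) M] in
theorem sf_count {R Q : Type} 
    [AddCommGroup R] [Module K R] [AddCommGroup Q] [Module K Q]
    (A : R →ₗ[K] M) (π : R →ₗ[K] Q) (B : Submodule K R) (N' : Submodule K M)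
    [Module.Finite K N'] [Module.Finite K (B.map A)]
    (hker : ∀ x ∈ B, A x ∈ N' ↔ π x = 0) :
    Module.Finite K (B.map π) ∧
      Module.finrank K ↥(N' ⊔ B.map A) - Module.finrank K N' = Module.finrank K (B.map π) := by
  obtain ⟨f, hf⟩ : ∃ f : B →ₗ[K] M ⧸ N', f = N'.mkQ ∘ₗ (A ∘ₗ B.subtype) := ⟨_, rfl⟩
  obtain ⟨gg, hgg⟩ : ∃ gg : B →ₗ[K] Q, gg = π ∘ₗ B.subtype := ⟨_, rfl⟩
  have hk : LinearMap.ker f = LinearMap.ker gg := by
    ext x
    simp only [hf, hgg, LinearMap.mem_ker, LinearMap.comp_apply, Submodule.mkQ_apply,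
      Submodule.Quotient.mk_eq_zero, Submodule.subtype_apply]
    exact hker x x.2
  have hrg : LinearMap.range gg = B.map π := by
    rw [hgg, LinearMap.range_comp, Submodule.range_subtype]
  have hrf : LinearMap.range f = (B.map A).map N'.mkQ := by
    rw [hf, LinearMap.range_comp, LinearMap.range_comp, Submodule.range_subtype]
  have e : LinearMap.range f ≃ₗ[K] LinearMap.range gg :=
    f.quotKerEquivRange.symm ≪≫ₗ Submodule.quotEquivOfEq _ _ hk ≪≫ₗ gg.quotKerEquivRange
  have hfin1 : Module.Finite K (LinearMap.range f) := by rw [hrf]; infer_instance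
  have hfin2 : Module.Finite K (LinearMap.range gg) := Module.Finite.equiv e
  have hsup : (N' ⊔ B.map A).map N'.mkQ = (B.map A).map N'.mkQ := by
    rw [Submodule.map_sup, Submodule.mkQ_map_self, bot_sup_eq]
  have hrn := LinearMap.finrank_range_add_finrank_ker (N'.mkQ.domRestrict (N' ⊔ B.map A))
  rw [LinearMap.range_domRestrict, hsup, ← hrf, LinearMap.ker_domRestrict,
    Submodule.ker_mkQ] at hrn
  have e2 := (Submodule.comapSubtypeEquivOfLe
    (le_sup_left : N' ≤ N' ⊔ B.map A)).finrank_eq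
  rw [e2, e.finrank_eq, hrg] at hrn
  rw [hrg] at hfin2
  refine ⟨hfin2, ?_⟩
  omega

omit [AddCommGroup M] [Module K M]
    [Module (MvPolynomial (Fin n) K) M] [IsScalarTower K (MvPolynomial (Fin n) K) M] in
/-- generators of the degree d part -/
noncomputable def sfB (K : Type) [Field K] (n : ℕ) (q c' e0 : ℕ) (w : ℕ → MvPolynomial (Fin n) K)
    (d : ℕ) : Submodule K (MvPolynomial (Fin n) K) :=
  Submodule.span K {x | ∃ (a : ℕ) (r : MvPolynomial (Fin n) K) (i : ℕ), i < q ∧
    e0 + (a + c') = d ∧ r.IsHomogeneous a ∧ x = r * w i}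

theorem sf_inv (t : K) (j : ℕ)
    {Q : Type} [Field Q] [Algebra K Q] (π : MvPolynomial (Fin n) K →ₐ[K] Q)
    (g h : MvPolynomial (Fin n) K) (hh : π h ≠ 0)
    (hgh : π g ^ (2 ^ j) = algebraMap K Q t * π h ^ (2 ^ j)) (c' e0 d : ℕ) :
    (sfB K n (2 ^ j) c' e0 (fun i => h ^ (2 ^ j - 1 - i) * g ^ i) d).map π.toLinearMap ≤
      ((sfB K n (2 ^ j) c' e0 (fun i => h ^ (2 ^ j - 1 - i) * g ^ i) d).map π.toLinearMap).comap
        (LinearMap.mulLeft K (π g / π h)) := by
  rw [Submodule.map_le_iff_le_comap]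
  refine Submodule.span_le.mpr ?_
  rintro _ ⟨a, r, i, hi, had, hr, rfl⟩
  have hq : 0 < 2 ^ j := by positivity
  by_cases hi' : i + 1 < 2 ^ j
  · refine ⟨r * (h ^ (2 ^ j - 1 - (i + 1)) * g ^ (i + 1)),
      Submodule.subset_span ⟨a, r, i + 1, hi', had, hr, rfl⟩, ?_⟩
    have e1 : 2 ^ j - 1 - i = (2 ^ j - 1 - (i + 1)) + 1 := by omega
    show π (r * (h ^ (2 ^ j - 1 - (i + 1)) * g ^ (i + 1))) =
      π g / π h * π (r * (h ^ (2 ^ j - 1 - i) * g ^ i))
    rw [e1]
    simp only [map_mul, map_pow]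
    field_simp
    ring
  · have e1 : i = 2 ^ j - 1 := by omega
    refine ⟨t • (r * (h ^ (2 ^ j - 1 - 0) * g ^ 0)),
      Submodule.smul_mem _ _ (Submodule.subset_span ⟨a, r, 0, hq, had, hr, rfl⟩), ?_⟩
    show π (t • (r * (h ^ (2 ^ j - 1 - 0) * g ^ 0))) =
      π g / π h * π (r * (h ^ (2 ^ j - 1 - i) * g ^ i))
    have e2 : 2 ^ j - 1 - i = 0 := by omega
    have e3 : π g * π g ^ i = algebraMap K Q t * (π h * π h ^ i) := by
      rw [← pow_succ', ← pow_succ', e1, Nat.sub_add_cancel hq]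
      exact hgh
    rw [e2, map_smul, Algebra.smul_def, Nat.sub_zero, ← e1]
    simp only [map_mul, map_pow, pow_zero, one_mul, mul_one]
    rw [div_mul_eq_mul_div, eq_div_iff hh]
    linear_combination (-(π r)) * e3

theorem sf_dvd
    (J2 : ∀ (K : Type) [Field K] [CharP K 2] (t : K), (∀ a : K, a ^ 2 ≠ t) →
      ∀ (V : Type) [AddCommGroup V] [Module K V] [Module.Finite K V] (φ : V →ₗ[K] V) (j : ℕ),
      (∀ v, (φ ^ (2 ^ j)) v = t • v) → 2 ^ j ∣ Module.finrank K V)
    [CharP K 2] (t : K) (ht : ∀ a : K, a ^ 2 ≠ t) (j : ℕ)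
    {Q : Type} [Field Q] [Algebra K Q] (π : MvPolynomial (Fin n) K →ₐ[K] Q)
    (g h : MvPolynomial (Fin n) K) (hh : π h ≠ 0)
    (hgh : π g ^ (2 ^ j) = algebraMap K Q t * π h ^ (2 ^ j)) (c' e0 d : ℕ)
    (hfin : Module.Finite K ((sfB K n (2 ^ j) c' e0
      (fun i => h ^ (2 ^ j - 1 - i) * g ^ i) d).map π.toLinearMap)) :
    2 ^ j ∣ Module.finrank K ((sfB K n (2 ^ j) c' e0
      (fun i => h ^ (2 ^ j - 1 - i) * g ^ i) d).map π.toLinearMap) := by
  have hinv := sf_inv t j π g h hh hgh c' e0 d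
  generalize (sfB K n (2 ^ j) c' e0
      (fun i => h ^ (2 ^ j - 1 - i) * g ^ i) d).map π.toLinearMap = V at *
  have hpow : ∀ (m : ℕ) (v : V), ((((LinearMap.mulLeft K (π g / π h)).restrict hinv) ^ m) v : Q) =
      (π g / π h) ^ m * (v : Q) := by
    intro m
    induction m with
    | zero => intro v; simp
    | succ m ih =>
      intro v
      rw [pow_succ', Module.End.mul_apply, pow_succ', mul_assoc, ← ih v]
      rfl
  refine J2 K t ht V ((LinearMap.mulLeft K (π g / π h)).restrict hinv) j (fun v => ?_)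
  apply Subtype.ext
  rw [hpow, div_pow, hgh, mul_div_assoc, div_self (pow_ne_zero _ hh), mul_one,
    Submodule.coe_smul, Algebra.smul_def]

theorem sf_homog (N : Fam K n M) (e : ℕ) (u : M) (hu : u ∈ N.N e) (k : ℕ)
    (r : MvPolynomial (Fin n) K) (hr : r.IsHomogeneous k) : r • u ∈ N.N (e + k) := by
  have hmon : ∀ k : ℕ, ∀ m : Fin n →₀ ℕ, m.degree = k →
      (monomial m (1 : K)) • u ∈ N.N (e + k) := by
    intro k
    induction k with
    | zero =>
      intro m hm
      have hm0 : m = 0 := (Finsupp.degree_eq_zero_iff m).mp hm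
      subst hm0
      have e1 : (monomial (0 : Fin n →₀ ℕ) (1 : K)) = 1 := rfl
      rw [e1, one_smul]
      exact hu
    | succ k ih =>
      intro m hm
      obtain ⟨i, hi⟩ : ∃ i, m i ≠ 0 := by
        by_contra hcon
        push Not at hcon
        have hm0 : m = 0 := Finsupp.ext hcon
        subst hm0
        simp at hm
      have hm' : m = Finsupp.single i 1 + (m - Finsupp.single i 1) := by
        rw [add_tsub_cancel_of_le]
        rw [Finsupp.single_le_iff]
        omega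
      have e1 : monomial m (1 : K) = X i * monomial (m - Finsupp.single i 1) 1 := by
        conv_lhs => rw [hm']
        rw [X, monomial_mul, mul_one]
      have e2 : (m - Finsupp.single i 1).degree = k := by
        rw [hm', map_add, Finsupp.degree_single] at hm
        omega
      rw [e1, mul_smul]
      exact N.smul _ _ (ih _ e2) i
  rw [r.as_sum, Finset.sum_smul]
  refine Submodule.sum_mem _ fun m hm => ?_
  have e1 : monomial m (coeff m r) • u = coeff m r • ((monomial m (1 : K)) • u) := by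
    rw [← smul_assoc, smul_monomial, smul_eq_mul, mul_one]
  rw [e1]
  refine Submodule.smul_mem _ _ (hmon k m ?_)
  by_contra hcon
  exact (mem_support_iff.mp hm) (hr.coeff_eq_zero hcon)

/-- J4c: the main step. -/
theorem step_prime
    (J2 : ∀ (K : Type) [Field K] [CharP K 2] (t : K), (∀ a : K, a ^ 2 ≠ t) →
      ∀ (V : Type) [AddCommGroup V] [Module K V] [Module.Finite K V] (φ : V →ₗ[K] V) (j : ℕ),
      (∀ v, (φ ^ (2 ^ j)) v = t • v) → 2 ^ j ∣ Module.finrank K V)
    [CharP K 2] (t : K) (ht : ∀ a : K, a ^ 2 ≠ t) (j : ℕ)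
    (N N' : Fam K n M) (hfin : ∀ d, Module.Finite K (N.N d)) (hle : N' ≤ N)
    (hx0 : ∀ d, N.N d ≤ N'.N (d + 1))
    (e0 : ℕ) (v : M) (P : Ideal (MvPolynomial (Fin n) K)) (hP : P.IsPrime)
    (hv : v ∈ N.N e0) (hann : ∀ r, r ∈ P ↔ ∀ d, homogeneousComponent d r • v ∈ N'.N (e0 + d))
    (c : ℕ) (g h : MvPolynomial (Fin n) K) (hg : g.IsHomogeneous c) (hh : h.IsHomogeneous c)
    (hhP : h ∉ P) (hgh : g ^ (2 ^ j) - C t * h ^ (2 ^ j) ∈ P) :
    ∃ N'' : Fam K n M, N' < N'' ∧ N'' ≤ N ∧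
      ∀ d, 2 ^ j ∣ Module.finrank K (N''.N d) - Module.finrank K (N'.N d) := by
  classical
  have hq : 0 < 2 ^ j := by positivity
  obtain ⟨w, hw⟩ : ∃ w : ℕ → MvPolynomial (Fin n) K,
    w = fun i => h ^ (2 ^ j - 1 - i) * g ^ i := ⟨_, rfl⟩
  have hwh : ∀ i, i < 2 ^ j → (w i).IsHomogeneous (c * (2 ^ j - 1)) := by
    intro i hi
    have h1 := (hh.pow (2 ^ j - 1 - i)).mul (hg.pow i)
    have e1 : c * (2 ^ j - 1 - i) + c * i = c * (2 ^ j - 1) := by
      rw [← mul_add]
      congr 1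
      omega
    rw [e1] at h1
    rw [hw]
    exact h1
  obtain ⟨A, hA⟩ : ∃ A : MvPolynomial (Fin n) K →ₗ[K] M, ∀ x, A x = x • v :=
    ⟨(LinearMap.toSpanSingleton (MvPolynomial (Fin n) K) M v).restrictScalars K, fun x => rfl⟩
  obtain ⟨B, hB⟩ : ∃ B : ℕ → Submodule K (MvPolynomial (Fin n) K),
    B = fun d => sfB K n (2 ^ j) (c * (2 ^ j - 1)) e0 w d := ⟨_, rfl⟩
  have hBN : ∀ d, (B d).map A ≤ N.N d := by
    intro d
    rw [Submodule.map_le_iff_le_comap, hB]
    refine Submodule.span_le.mpr ?_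
    rintro _ ⟨a, r, i, hi, had, hr, rfl⟩
    show A (r * w i) ∈ N.N d
    rw [hA, ← had]
    exact sf_homog N e0 v hv _ _ (hr.mul (hwh i hi))
  have hBX : ∀ d (l : Fin n), ∀ x ∈ B d, X l * x ∈ B (d + 1) := by
    intro d l
    have h1 : B d ≤ (B (d + 1)).comap (LinearMap.mulLeft K (X l : MvPolynomial (Fin n) K)) := by
      rw [hB]
      refine Submodule.span_le.mpr ?_
      rintro _ ⟨a, r, i, hi, had, hr, rfl⟩
      show X l * (r * w i) ∈ sfB K n (2 ^ j) (c * (2 ^ j - 1)) e0 w (d + 1)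
      refine Submodule.subset_span ⟨a + 1, X l * r, i, hi, by omega, ?_, by ring⟩
      have := (isHomogeneous_X K l).mul hr
      rwa [add_comm] at this
    exact fun x hx => h1 hx
  have hhom : ∀ k (r : MvPolynomial (Fin n) K), r.IsHomogeneous k →
      (r ∈ P ↔ r • v ∈ N'.N (e0 + k)) := by
    intro k r hr
    rw [hann r]
    constructor
    · intro H
      have := H k
      rwa [homogeneousComponent_of_mem ((mem_homogeneousSubmodule k r).mpr hr),
        if_pos rfl] at this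
    · intro H d
      rw [homogeneousComponent_of_mem ((mem_homogeneousSubmodule k r).mpr hr)]
      split_ifs with hd
      · rw [hd]; exact H
      · rw [zero_smul]; exact zero_mem _
  have hBhom : ∀ d, e0 ≤ d → ∀ x ∈ B d, x.IsHomogeneous (d - e0) := by
    intro d hd
    have h1 : B d ≤ homogeneousSubmodule (Fin n) K (d - e0) := by
      rw [hB]
      refine Submodule.span_le.mpr ?_
      rintro _ ⟨a, r, i, hi, had, hr, rfl⟩
      have h2 := hr.mul (hwh i hi)
      have e1 : a + c * (2 ^ j - 1) = d - e0 := by omega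
      rw [e1] at h2
      exact h2
    exact fun x hx => h1 hx
  have hBbot : ∀ d, ¬ e0 ≤ d → ∀ x ∈ B d, x = 0 := by
    intro d hd
    have h1 : B d ≤ ⊥ := by
      rw [hB]
      refine Submodule.span_le.mpr ?_
      rintro _ ⟨a, r, i, hi, had, hr, rfl⟩
      omega
    exact fun x hx => by simpa using h1 hx
  let N'' : Fam K n M :=
    { N := fun d => N'.N d ⊔ (B d).map A
      mono := fun d => sup_le ((N'.mono d).trans le_sup_left)
        (((hBN d).trans (hx0 d)).trans le_sup_left)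
      smul := by
        intro d u hu l
        obtain ⟨u1, hu1, u2, ⟨x, hx, rfl⟩, rfl⟩ := Submodule.mem_sup.mp hu
        rw [smul_add]
        refine add_mem (Submodule.mem_sup_left (N'.smul d u1 hu1 l))
          (Submodule.mem_sup_right ⟨X l * x, hBX d l x hx, ?_⟩)
        rw [hA, hA, mul_smul] }
  have hN''N : ∀ d, N''.N d = N'.N d ⊔ (B d).map A := fun d => rfl
  have hle' : ∀ d, N'.N d ≤ N.N d := hle
  refine ⟨N'', ?_, ?_, ?_⟩
  · rw [lt_iff_le_not_ge]
    refine ⟨fun d => le_sup_left, fun hcon => ?_⟩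
    have hcon' : ∀ d, N''.N d ≤ N'.N d := hcon
    have h1 : h ^ (2 ^ j - 1) ∈ B (e0 + (0 + c * (2 ^ j - 1))) := by
      rw [hB]
      refine Submodule.subset_span ⟨0, 1, 0, hq, rfl, isHomogeneous_one _ _, ?_⟩
      rw [hw]
      simp
    have h2 : A (h ^ (2 ^ j - 1)) ∈ N'.N (e0 + (0 + c * (2 ^ j - 1))) :=
      hcon' _ (Submodule.mem_sup_right ⟨_, h1, rfl⟩)
    rw [hA, zero_add] at h2
    have h3 := (hhom _ _ (hh.pow (2 ^ j - 1))).mpr h2
    exact hhP (hP.mem_of_pow_mem _ h3)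
  · intro d
    exact sup_le (hle' d) (hBN d)
  · intro d
    haveI := hP
    haveI := hfin d
    let Q := FractionRing (MvPolynomial (Fin n) K ⧸ P)
    let π : MvPolynomial (Fin n) K →ₐ[K] Q :=
      (IsScalarTower.toAlgHom K (MvPolynomial (Fin n) K ⧸ P) Q).comp (Ideal.Quotient.mkₐ K P)
    have hπ : ∀ x, π x = 0 ↔ x ∈ P := by
      intro x
      show algebraMap (MvPolynomial (Fin n) K ⧸ P) Q (Ideal.Quotient.mk P x) = 0 ↔ _
      rw [IsFractionRing.to_map_eq_zero_iff, Ideal.Quotient.eq_zero_iff_mem]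
    have hfin1 : Module.Finite K (N'.N d) := Submodule.finiteDimensional_of_le (hle' d)
    have hfin2 : Module.Finite K ((B d).map A) := Submodule.finiteDimensional_of_le (hBN d)
    have hker : ∀ x ∈ B d, A x ∈ N'.N d ↔ π.toLinearMap x = 0 := by
      intro x hx
      show A x ∈ N'.N d ↔ π x = 0
      rw [hπ, hA]
      by_cases hd : e0 ≤ d
      · rw [hhom _ _ (hBhom d hd x hx), Nat.add_sub_cancel' hd]
      · rw [hBbot d hd x hx, zero_smul]
        exact ⟨fun _ => zero_mem _, fun _ => zero_mem _⟩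
    obtain ⟨h1, h2⟩ := sf_count A π.toLinearMap (B d) (N'.N d) hker
    rw [hN''N, h2]
    have hπh : π h ≠ 0 := fun h0 => hhP ((hπ h).mp h0)
    have hπg : π g ^ (2 ^ j) = algebraMap K Q t * π h ^ (2 ^ j) := by
      have h3 := (hπ _).mpr hgh
      rw [map_sub, map_mul, map_pow, map_pow] at h3
      have h4 : π (C t) = algebraMap K Q t := by
        have : (C t : MvPolynomial (Fin n) K) = algebraMap K _ t := rfl
        rw [this, AlgHom.commutes]
      rw [h4] at h3
      exact sub_eq_zero.mp h3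
    rw [hB, hw] at h1 ⊢
    exact sf_dvd J2 t ht j π g h hπh hπg _ _ _ h1



end S_step_prime

alias step_prime := S_step_prime.step_prime

end SF
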